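import Pool.Agent.H15.HF.Upp
import Pool.Agent.H15.HF.Out

/-!
# Block M (MP_c15324_an): soft potentials in the layer lemma, preparations

All exponents `-1 ≤ γ ≤ 2` at once. `og m = 1/|m| + 1 + |m|²` dominates `|m|^γ`. `og_int`, `outerM`: integrals against `og`. `qf_01M`, `upp_qM`:
`qf` and the bound of `∫ (1 - qf) dNm`, which only need `d + γ ≥ 1`.
-/

set_option autoImplicit false

open MeasureTheory Set Filter Topology Pool.Agent.H25.Kin Pool.Agent.H48.PL Pool.Agent.H48.PD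
open Pool.Agent.H82.BK Pool.Agent.H82.CM Pool.Agent.H48.PR Pool.Agent.H82.HF
open scoped ENNReal

namespace Pool.Agent.H15.HF.M

variable {d : ℕ} {γ s C Ca cb : ℝ} {b : ℝ → ℝ}

/-- the range of the exponent -/
theorem gam_ge (H : Hyp d γ s b C Ca) (hs : 2 * s < 1) : -1 ≤ γ := by
  have := H.h0
  linarith

/-- the weight which dominates `|m|^γ` for `-1 ≤ γ ≤ 2` -/
noncomputable def og (m : Vec d) : ℝ := (len m)⁻¹ + (1 + nsq m)

theorem og_pos (m : Vec d) : 1 ≤ og m := by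
  have h1 := inv_nonneg.2 (len_nonneg m)
  have h2 := sq_nonneg' m
  unfold og
  linarith

theorem len_og (h1 : -1 ≤ γ) (h2 : γ ≤ 2) (m : Vec d) : len m ^ γ ≤ og m := by
  have hn := sq_nonneg' m
  rcases eq_or_ne m 0 with rfl | hm
  · have h3 : len (0 : Vec d) ^ γ ≤ 1 := by
      rw [len_zero]
      rcases eq_or_ne γ 0 with h | h
      · rw [h, Real.rpow_zero]
      · rw [Real.zero_rpow h]
        exact zero_le_one
    exact h3.trans (og_pos 0)
  · have hl := len_pos hm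
    have hi := inv_pos.2 hl
    unfold og
    rcases le_total (len m) 1 with h | h
    · have h3 : len m ^ γ ≤ len m ^ (-1 : ℝ) :=
        Real.rpow_le_rpow_of_exponent_ge hl h h1
      rw [Real.rpow_neg_one] at h3
      linarith
    · have h3 : len m ^ γ ≤ len m ^ (2 : ℝ) := Real.rpow_le_rpow_of_exponent_le h h2
      rw [Real.rpow_two, len_sq] at h3
      linarith

private lemma Pre_nsq (v m : Vec d) : 1 + nsq m ≤ 2 * ((1 + nsq v) * (1 + nsq (v - m))) := by
  have h1 := sq_nonneg' v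
  have h2 := sq_nonneg' (v - m)
  have h3 : nsq m ≤ 2 * nsq v + 2 * nsq (v - m) := by
    unfold nsq
    rw [Finset.mul_sum, Finset.mul_sum, ← Finset.sum_add_distrib]
    refine Finset.sum_le_sum fun i _ => ?_
    rw [Pi.sub_apply]
    nlinarith [sq_nonneg (2 * v i - m i)]
  nlinarith [mul_nonneg h1 h2]

private lemma Pre_W (p : ℕ) (v : Vec d) : Wp (p + 2) v * (1 + nsq v) ^ 2 = Wp p v := by
  have h := sq_nonneg' v
  have h1 : (1 + nsq v) ≠ 0 := by positivity
  unfold Wp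
  rw [pow_add, mul_inv, mul_assoc, inv_mul_cancel₀ (pow_ne_zero _ h1), mul_one]

private lemma Pre_wt {q : ℕ} (hq : d + 1 ≤ 2 * q) (z : Vec d) : Wp q z ≤ 2 ^ q * wt d z := by
  have h := sq_nonneg' z
  have h1 := one_le_w z
  have h2 : (1 + ‖z‖) ^ (d + 1) ≤ 2 ^ q * (1 + nsq z) ^ q := by
    calc (1 + ‖z‖) ^ (d + 1) ≤ (1 + ‖z‖) ^ (2 * q) := pow_le_pow_right₀ h1 hq
      _ = ((1 + ‖z‖) ^ 2) ^ q := pow_mul _ _ _
      _ ≤ (2 * (1 + nsq z)) ^ q := pow_le_pow_left₀ (by positivity) (norm_le_nsq z) q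
      _ = 2 ^ q * (1 + nsq z) ^ q := mul_pow _ _ _
  unfold Wp wt
  have h3 : 0 < (1 + nsq z) ^ q := by positivity
  have h4 : 0 < (1 + ‖z‖) ^ (d + 1) := by positivity
  rw [← div_eq_mul_inv, inv_eq_one_div, div_le_div_iff₀ h3 h4, one_mul]
  exact h2

/-- `(1 + 1/|m|) W_q(v-m)` has a majorant with bounded integral -/
private lemma Pre_kg {q : ℕ} (hq : d + 1 ≤ 2 * q) {m : Vec d} (hm : m ≠ 0) (v : Vec d) :
    (1 + (len m)⁻¹) * Wp q (v - m) ≤
      2 * 2 ^ q * wt d (v - m) + 2 ^ (d + 5) * kg (-1) m := by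
  have ha : 0 < len m := len_pos hm
  have hi := inv_pos.2 ha
  have h1 := Pre_wt (d := d) hq (v - m)
  have hW := (Wp_pos q (v - m)).le
  have hW1 := Wp_le_one q (v - m)
  have hkg := kg_nonneg (-1) m
  rcases le_total (len m) 1 with h | h
  · have h2 : (len m)⁻¹ ≤ 2 ^ (d + 5) * kg (-1) m := by
      unfold kg
      rw [Real.rpow_neg_one]
      have h3 : (1 + ‖m‖) ^ (d + 5) ≤ 2 ^ (d + 5) :=
        pow_le_pow_left₀ (by positivity) (by linarith [norm_le_len m]) _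
      have h4 : 0 < (1 + ‖m‖) ^ (d + 5) := by positivity
      have h5 : 1 ≤ 2 ^ (d + 5) * ((1 + ‖m‖) ^ (d + 5))⁻¹ := by
        rw [← div_eq_mul_inv, one_le_div h4]
        exact h3
      have h6 : 1 ≤ 1 + nsq m := by linarith [sq_nonneg' m]
      calc (len m)⁻¹ = (len m)⁻¹ * 1 * 1 := by ring
        _ ≤ (len m)⁻¹ * (1 + nsq m) * (2 ^ (d + 5) * ((1 + ‖m‖) ^ (d + 5))⁻¹) := by
            gcongr
        _ = _ := by ring
    calc (1 + (len m)⁻¹) * Wp q (v - m) = Wp q (v - m) + (len m)⁻¹ * Wp q (v - m) := by ring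
      _ ≤ Wp q (v - m) + (len m)⁻¹ * 1 := by gcongr
      _ ≤ 2 * 2 ^ q * wt d (v - m) + 2 ^ (d + 5) * kg (-1) m := by
          have := wt_nonneg (v - m)
          have h7 : 0 ≤ 2 ^ q * wt d (v - m) := by positivity
          linarith
  · have h2 : (len m)⁻¹ ≤ 1 := inv_le_one_of_one_le₀ h
    calc (1 + (len m)⁻¹) * Wp q (v - m) ≤ (1 + 1) * Wp q (v - m) := by gcongr
      _ ≤ (1 + 1) * (2 ^ q * wt d (v - m)) := by gcongr
      _ ≤ 2 * 2 ^ q * wt d (v - m) + 2 ^ (d + 5) * kg (-1) m := by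
          have h7 : 0 ≤ 2 ^ (d + 5) * kg (-1) m := by positivity
          linarith

private lemma Pre_maj {q : ℕ} (hq : d + 1 ≤ 2 * q) (v m : Vec d) :
    og m * ((1 + nsq m) * Wp (q + 2) (v - m)) ≤
      (8 * (1 + nsq v) ^ 2) * (2 * 2 ^ q * wt d (v - m) + 2 ^ (d + 5) * kg (-1) m) := by
  have hm := sq_nonneg' m
  have hv := sq_nonneg' v
  have hz := sq_nonneg' (v - m)
  have hW := (Wp_pos (q + 2) (v - m)).le
  have hW' := (Wp_pos q (v - m)).le
  have h1 := Pre_nsq v m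
  have h2 : (1 + nsq m) ^ 2 ≤ 4 * (1 + nsq v) ^ 2 * (1 + nsq (v - m)) ^ 2 := by
    calc (1 + nsq m) ^ 2 ≤ (2 * ((1 + nsq v) * (1 + nsq (v - m)))) ^ 2 :=
          pow_le_pow_left₀ (by positivity) h1 2
      _ = _ := by ring
  have h3 := Pre_W q (v - m)
  have hi := inv_nonneg.2 (len_nonneg m)
  have hog : og m * (1 + nsq m) ≤ 2 * ((1 + (len m)⁻¹) * (1 + nsq m) ^ 2) := by
    unfold og
    have e1 : (len m)⁻¹ * (1 + nsq m) ≤ (len m)⁻¹ * (1 + nsq m) ^ 2 := by
      refine mul_le_mul_of_nonneg_left ?_ hi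
      nlinarith
    have e2 : 0 ≤ (len m)⁻¹ * (1 + nsq m) ^ 2 := by positivity
    have e3 : 0 ≤ (1 + nsq m) ^ 2 := by positivity
    calc ((len m)⁻¹ + (1 + nsq m)) * (1 + nsq m) =
          (len m)⁻¹ * (1 + nsq m) + (1 + nsq m) ^ 2 := by ring
      _ ≤ 2 * ((len m)⁻¹ * (1 + nsq m) ^ 2 + (1 + nsq m) ^ 2) := by linarith
      _ = _ := by ring
  have key : (1 + (len m)⁻¹) * Wp q (v - m) ≤
      2 * 2 ^ q * wt d (v - m) + 2 ^ (d + 5) * kg (-1) m := by
    rcases eq_or_ne m 0 with rfl | hne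
    · have e1 := Pre_wt (d := d) hq (v - 0)
      have e2 := kg_nonneg (-1) (0 : Vec d)
      have e3 : 0 ≤ 2 ^ (d + 5) * kg (-1) (0 : Vec d) := by positivity
      have e4 := wt_nonneg (v - 0)
      rw [len_zero, inv_zero, add_zero, one_mul]
      have e5 : 0 ≤ 2 ^ q * wt d (v - 0) := by positivity
      linarith
    · exact Pre_kg hq hne v
  calc og m * ((1 + nsq m) * Wp (q + 2) (v - m)) = (og m * (1 + nsq m)) * Wp (q + 2) (v - m) := by
        ring
    _ ≤ (2 * ((1 + (len m)⁻¹) * (1 + nsq m) ^ 2)) * Wp (q + 2) (v - m) :=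
        mul_le_mul_of_nonneg_right hog hW
    _ ≤ (2 * ((1 + (len m)⁻¹) * (4 * (1 + nsq v) ^ 2 * (1 + nsq (v - m)) ^ 2))) *
          Wp (q + 2) (v - m) := by gcongr
    _ = (8 * (1 + nsq v) ^ 2) * ((1 + (len m)⁻¹) *
          (Wp (q + 2) (v - m) * (1 + nsq (v - m)) ^ 2)) := by ring
    _ = (8 * (1 + nsq v) ^ 2) * ((1 + (len m)⁻¹) * Wp q (v - m)) := by rw [h3]
    _ ≤ _ := mul_le_mul_of_nonneg_left key (by positivity)

private lemma Pre_ogm : Measurable (og : Vec d → ℝ) := by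
  unfold og
  have h1 : Measurable fun m : Vec d => len m := continuous_len.measurable
  have h2 : Measurable fun m : Vec d => nsq m := continuous_sq.measurable
  exact h1.inv.add (measurable_const.add h2)

/-- integrals against `og` -/
theorem og_int (hd : 2 ≤ d) {q : ℕ} (hq : d + 10 ≤ q) : ∃ K : ℝ, 0 ≤ K ∧ ∀ v : Vec d,
    Integrable (fun m : Vec d => og m * ((1 + nsq m) * Wp q (v - m))) ∧
    ∫ m : Vec d, og m * ((1 + nsq m) * Wp q (v - m)) ≤ K * (1 + nsq v) ^ 2 := by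
  obtain ⟨r, rfl⟩ : ∃ r, q = r + 2 := ⟨q - 2, by omega⟩
  have hI : 0 ≤ ∫ z : Vec d, wt d z := integral_nonneg wt_nonneg
  have hI2 : 0 ≤ ∫ z : Vec d, kg (-1) z := integral_nonneg (kg_nonneg (-1))
  have hki : Integrable (kg (d := d) (-1)) := kg_integrable hd (by norm_num) (by norm_num)
  refine ⟨8 * (2 * 2 ^ r * (∫ z : Vec d, wt d z) + 2 ^ (d + 5) * ∫ z : Vec d, kg (-1) z),
    by positivity, fun v => ?_⟩
  have hwi : Integrable fun m : Vec d => wt d (v - m) := integrable_wt.comp_sub_left v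
  have hJ : Integrable fun m : Vec d =>
      (8 * (1 + nsq v) ^ 2) * (2 * 2 ^ r * wt d (v - m) + 2 ^ (d + 5) * kg (-1) m) :=
    ((hwi.const_mul _).add (hki.const_mul _)).const_mul _
  have hmeas : Measurable fun m : Vec d => og m * ((1 + nsq m) * Wp (r + 2) (v - m)) := by
    have h1 : Continuous fun m : Vec d => (1 + nsq m) * Wp (r + 2) (v - m) :=
      (continuous_const.add continuous_sq).mul
        ((Wp_cont (r + 2)).comp (continuous_const.sub continuous_id))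
    exact Pre_ogm.mul h1.measurable
  have hK : Integrable (fun m : Vec d => og m * ((1 + nsq m) * Wp (r + 2) (v - m))) := by
    refine hJ.mono' hmeas.aestronglyMeasurable (Eventually.of_forall fun m => ?_)
    have h1 := og_pos m
    have h2 := sq_nonneg' m
    have h3 := (Wp_pos (r + 2) (v - m)).le
    rw [Real.norm_of_nonneg (by positivity)]
    exact Pre_maj (by omega) v m
  refine ⟨hK, ?_⟩
  calc ∫ m : Vec d, og m * ((1 + nsq m) * Wp (r + 2) (v - m)) ≤
        ∫ m : Vec d, (8 * (1 + nsq v) ^ 2) *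
          (2 * 2 ^ r * wt d (v - m) + 2 ^ (d + 5) * kg (-1) m) :=
        integral_mono hK hJ fun m => Pre_maj (by omega) v m
    _ = (8 * (1 + nsq v) ^ 2) * (2 * 2 ^ r * (∫ z : Vec d, wt d z) +
          2 ^ (d + 5) * ∫ z : Vec d, kg (-1) z) := by
        rw [integral_const_mul, integral_add (hwi.const_mul _) (hki.const_mul _),
          integral_const_mul, integral_const_mul,
          integral_sub_left_eq_self (fun z : Vec d => wt d z) volume v]
    _ = _ := by ring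

/-- the outer integral for `-1 ≤ γ ≤ 2` -/
theorem outerM (hd : 2 ≤ d) (h1 : -1 ≤ γ) (h2 : γ ≤ 2) {q : ℕ} (hq : d + 10 ≤ q) :
    ∃ K : ℝ, 0 ≤ K ∧ ∀ (v : Vec d) (Φ : Vec d → ℝ) (A : ℝ), Measurable Φ → 0 ≤ A →
      (∀ m, |Φ m| ≤ A * ((1 + nsq m) * Wp q (v - m))) →
      Integrable (fun m => len m ^ γ * Φ m) ∧ |∫ m, len m ^ γ * Φ m| ≤ K * A * (1 + nsq v) ^ 2 := by
  obtain ⟨K, hK, h⟩ := og_int (d := d) hd hq
  refine ⟨K, hK, fun v Φ A hΦ hA hb => ?_⟩
  obtain ⟨h3, h4⟩ := h v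
  have hm : Measurable fun m : Vec d => len m ^ γ * Φ m :=
    (continuous_len.measurable.pow_const γ).mul hΦ
  have hp : ∀ m : Vec d, ‖len m ^ γ * Φ m‖ ≤ A * (og m * ((1 + nsq m) * Wp q (v - m))) := by
    intro m
    have e1 := len_og h1 h2 m
    have e2 : 0 ≤ len m ^ γ := Real.rpow_nonneg (len_nonneg m) _
    have e3 := og_pos m
    rw [Real.norm_eq_abs, abs_mul, abs_of_nonneg e2]
    calc len m ^ γ * |Φ m| ≤ og m * (A * ((1 + nsq m) * Wp q (v - m))) :=
          mul_le_mul e1 (hb m) (abs_nonneg _) (by linarith)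
      _ = _ := by ring
  have hJ := h3.const_mul A
  refine ⟨hJ.mono' hm.aestronglyMeasurable (Eventually.of_forall hp), ?_⟩
  calc |∫ m, len m ^ γ * Φ m| ≤ ∫ m : Vec d, A * (og m * ((1 + nsq m) * Wp q (v - m))) := by
        rw [← Real.norm_eq_abs]
        exact norm_integral_le_of_norm_le hJ (Eventually.of_forall hp)
    _ = A * ∫ m : Vec d, og m * ((1 + nsq m) * Wp q (v - m)) := integral_const_mul _ _
    _ ≤ A * (K * (1 + nsq v) ^ 2) := mul_le_mul_of_nonneg_left h4 hA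
    _ = _ := by ring

theorem qf_01M (hd : 2 ≤ d) (h1 : -1 ≤ γ) (m h : Vec d) :
    0 ≤ qf d γ m h ∧ qf d γ m h ≤ 1 := by
  have e1 := sq_nonneg' m
  have e2 := sq_nonneg' h
  have hd' : (2 : ℝ) ≤ d := by exact_mod_cast hd
  have h3 : 0 ≤ nsq m / (nsq m + nsq h) := by positivity
  unfold qf
  refine ⟨Real.rpow_nonneg h3 _, Real.rpow_le_one h3 ?_ (by linarith)⟩
  exact div_le_one_of_le₀ (by linarith) (by positivity)

end Pool.Agent.H15.HF.M
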