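import Pool.Agent.H48.PS.Prp
import Pool.Agent.H82.HM.Pre

/-!
# Block M (MP_c15324_an), soft potentials, module PrpM: propagation of all decay constants, `-1 ≤ γ`, `0 ≤ γ + 2s ≤ 2`

For `γ ≥ 0` this is `prp` of H48. For `γ < 0` the gain of `op_bound` is `≤ K f(v) ∫ f(z) |v-z|^γ dz ≤ K C f(v)` with a constant `C`, since
`|m|^γ ≤ 1 + 1/|m|` and `∫ (1 + 1/|m|) W_p(v-m) dm` is bounded uniformly in `v`.
-/

set_option autoImplicit false

open MeasureTheory Set Filter Topology Pool.Agent.H25.Kin Pool.Agent.H48.PL Pool.Agent.H48.PD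
open Pool.Agent.H82.BK Pool.Agent.H48.PR

namespace Pool.Agent.H82.HM

variable {d : ℕ} {γ s : ℝ} {b : ℝ → ℝ}

private lemma PrpM_wt {q : ℕ} (hq : d + 1 ≤ 2 * q) (z : Vec d) : Wp q z ≤ 2 ^ q * wt d z := by
  have h := sq_nonneg' z
  have h1 := one_le_w z
  have h2 : (1 + ‖z‖) ^ (d + 1) ≤ 2 ^ q * (1 + nsq z) ^ q := by
    calc (1 + ‖z‖) ^ (d + 1) ≤ (1 + ‖z‖) ^ (2 * q) := pow_le_pow_right₀ h1 hq
      _ = ((1 + ‖z‖) ^ 2) ^ q := pow_mul _ _ _
      _ ≤ (2 * (1 + nsq z)) ^ q := pow_le_pow_left₀ (by positivity) (norm_le_nsq z) q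
      _ = 2 ^ q * (1 + nsq z) ^ q := mul_pow _ _ _
  unfold Wp wt
  have h3 : 0 < (1 + nsq z) ^ q := by positivity
  have h4 : 0 < (1 + ‖z‖) ^ (d + 1) := by positivity
  rw [← div_eq_mul_inv, inv_eq_one_div, div_le_div_iff₀ h3 h4, one_mul]
  exact h2

/-- `(1 + 1/|m|) W_q(v-m)` has a majorant with bounded integral -/
private lemma PrpM_kg {q : ℕ} (hq : d + 1 ≤ 2 * q) {m : Vec d} (hm : m ≠ 0) (v : Vec d) :
    (1 + (len m)⁻¹) * Wp q (v - m) ≤
      2 * 2 ^ q * wt d (v - m) + 2 ^ (d + 5) * kg (-1) m := by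
  have ha : 0 < len m := len_pos hm
  have hi := inv_pos.2 ha
  have h1 := PrpM_wt (d := d) hq (v - m)
  have hW := (Wp_pos q (v - m)).le
  have hW1 := Wp_le_one q (v - m)
  have hkg := kg_nonneg (-1) m
  rcases le_total (len m) 1 with h | h
  · have h2 : (len m)⁻¹ ≤ 2 ^ (d + 5) * kg (-1) m := by
      unfold kg
      rw [Real.rpow_neg_one]
      have h3 : (1 + ‖m‖) ^ (d + 5) ≤ 2 ^ (d + 5) :=
        pow_le_pow_left₀ (by positivity) (by linarith [norm_le_len m]) _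
      have h4 : 0 < (1 + ‖m‖) ^ (d + 5) := by positivity
      have h5 : 1 ≤ 2 ^ (d + 5) * ((1 + ‖m‖) ^ (d + 5))⁻¹ := by
        rw [← div_eq_mul_inv, one_le_div h4]
        exact h3
      have h6 : 1 ≤ 1 + nsq m := by linarith [sq_nonneg' m]
      calc (len m)⁻¹ = (len m)⁻¹ * 1 * 1 := by ring
        _ ≤ (len m)⁻¹ * (1 + nsq m) * (2 ^ (d + 5) * ((1 + ‖m‖) ^ (d + 5))⁻¹) := by
            gcongr
        _ = _ := by ring
    calc (1 + (len m)⁻¹) * Wp q (v - m) = Wp q (v - m) + (len m)⁻¹ * Wp q (v - m) := by ring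
      _ ≤ Wp q (v - m) + (len m)⁻¹ * 1 := by gcongr
      _ ≤ 2 * 2 ^ q * wt d (v - m) + 2 ^ (d + 5) * kg (-1) m := by
          have := wt_nonneg (v - m)
          have h7 : 0 ≤ 2 ^ q * wt d (v - m) := by positivity
          linarith
  · have h2 : (len m)⁻¹ ≤ 1 := inv_le_one_of_one_le₀ h
    calc (1 + (len m)⁻¹) * Wp q (v - m) ≤ (1 + 1) * Wp q (v - m) := by gcongr
      _ ≤ (1 + 1) * (2 ^ q * wt d (v - m)) := by gcongr
      _ ≤ 2 * 2 ^ q * wt d (v - m) + 2 ^ (d + 5) * kg (-1) m := by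
          have h7 : 0 ≤ 2 ^ (d + 5) * kg (-1) m := by positivity
          linarith

private lemma PrpM_key {q : ℕ} (hq : d + 1 ≤ 2 * q) (v m : Vec d) :
    (1 + (len m)⁻¹) * Wp q (v - m) ≤
      2 * 2 ^ q * wt d (v - m) + 2 ^ (d + 5) * kg (-1) m := by
  rcases eq_or_ne m 0 with rfl | hne
  · have e1 := PrpM_wt (d := d) hq (v - 0)
    have e2 := kg_nonneg (-1) (0 : Vec d)
    have e3 : 0 ≤ 2 ^ (d + 5) * kg (-1) (0 : Vec d) := by positivity
    have e4 := wt_nonneg (v - 0)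
    rw [len_zero, inv_zero, add_zero, one_mul]
    have e5 : 0 ≤ 2 ^ q * wt d (v - 0) := by positivity
    linarith
  · exact PrpM_kg hq hne v

/-- the integral of `(1 + 1/|v-z|) W_p(z)` is bounded uniformly in `v` -/
theorem og_int0 (hd : 2 ≤ d) {q : ℕ} (hq : d + 10 ≤ q) : ∃ K : ℝ, 0 ≤ K ∧ ∀ v : Vec d,
    Integrable (fun z : Vec d => (1 + (len (v - z))⁻¹) * Wp q z) ∧
    ∫ z : Vec d, (1 + (len (v - z))⁻¹) * Wp q z ≤ K := by
  have hI : 0 ≤ ∫ z : Vec d, wt d z := integral_nonneg wt_nonneg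
  have hI2 : 0 ≤ ∫ z : Vec d, kg (-1) z := integral_nonneg (kg_nonneg (-1))
  have hki : Integrable (kg (d := d) (-1)) := kg_integrable hd (by norm_num) (by norm_num)
  refine ⟨2 * 2 ^ q * (∫ z : Vec d, wt d z) + 2 ^ (d + 5) * ∫ z : Vec d, kg (-1) z,
    by positivity, fun v => ?_⟩
  have hJ : Integrable fun z : Vec d => 2 * 2 ^ q * wt d z + 2 ^ (d + 5) * kg (-1) (v - z) :=
    (integrable_wt.const_mul _).add ((hki.comp_sub_left v).const_mul _)
  have hle : ∀ z : Vec d, (1 + (len (v - z))⁻¹) * Wp q z ≤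
      2 * 2 ^ q * wt d z + 2 ^ (d + 5) * kg (-1) (v - z) := by
    intro z
    have h := PrpM_key (q := q) (by omega) v (v - z)
    rw [sub_sub_cancel] at h
    exact h
  have hmeas : Measurable fun z : Vec d => (1 + (len (v - z))⁻¹) * Wp q z := by
    have h1 : Measurable fun z : Vec d => len (v - z) :=
      (continuous_len.comp (continuous_const.sub continuous_id)).measurable
    exact (measurable_const.add h1.inv).mul (Wp_cont q).measurable
  have hK : Integrable (fun z : Vec d => (1 + (len (v - z))⁻¹) * Wp q z) := by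
    refine hJ.mono' hmeas.aestronglyMeasurable (Eventually.of_forall fun z => ?_)
    have h1 := inv_nonneg.2 (len_nonneg (v - z))
    have h3 := (Wp_pos q z).le
    rw [Real.norm_of_nonneg (by positivity)]
    exact hle z
  refine ⟨hK, ?_⟩
  calc ∫ z : Vec d, (1 + (len (v - z))⁻¹) * Wp q z ≤
        ∫ z : Vec d, (2 * 2 ^ q * wt d z + 2 ^ (d + 5) * kg (-1) (v - z)) :=
        integral_mono hK hJ hle
    _ = 2 * 2 ^ q * (∫ z : Vec d, wt d z) + 2 ^ (d + 5) * ∫ z : Vec d, kg (-1) z := by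
        rw [integral_add (integrable_wt.const_mul _) ((hki.comp_sub_left v).const_mul _),
          integral_const_mul, integral_const_mul,
          integral_sub_left_eq_self (fun z : Vec d => kg (-1) z) volume v]

private lemma PrpM_len {γ : ℝ} (h0 : -1 ≤ γ) (h2 : γ ≤ 0) (m : Vec d) :
    len m ^ γ ≤ 1 + (len m)⁻¹ := by
  have hi := inv_nonneg.2 (len_nonneg m)
  rcases eq_or_ne m 0 with rfl | hm
  · rw [len_zero, inv_zero, add_zero]
    rcases eq_or_ne γ 0 with h | h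
    · rw [h, Real.rpow_zero]
    · rw [Real.zero_rpow h]
      exact zero_le_one
  · have hl := len_pos hm
    rcases le_total (len m) 1 with h | h
    · have h3 : len m ^ γ ≤ len m ^ (-1 : ℝ) := Real.rpow_le_rpow_of_exponent_ge hl h h0
      rw [Real.rpow_neg_one] at h3
      linarith
    · have h3 : len m ^ γ ≤ len m ^ (0 : ℝ) := Real.rpow_le_rpow_of_exponent_le h h2
      rw [Real.rpow_zero] at h3
      linarith

private lemma PrpM_norm (v : Vec d) : (1 + ‖v‖) ^ 2 ≤ 2 * (1 + nsq v) := by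
  have h1 := norm_sq_le_sq v
  have h2 := norm_nonneg v
  nlinarith [sq_nonneg (‖v‖ - 1)]

private lemma PrpM_norm1 (v : Vec d) : 1 + ‖v‖ ≤ 2 * (1 + nsq v) := by
  have h1 := PrpM_norm v
  have h2 := norm_nonneg v
  nlinarith

private lemma PrpM_main (hd : 2 ≤ d) (hs0 : s ∈ Ioo (0 : ℝ) 1) (h1 : -1 ≤ γ) (hg : γ ≤ 0)
    (h0 : 0 ≤ γ + 2 * s) (h2 : γ + 2 * s ≤ 2)
    (hb : IsKernel d s b) {p : ℕ} (hp : d + 10 ≤ p) (T₀ A₁ : ℝ) (B : ℕ → ℝ) (N : ℕ) :
    ∃ U : ℝ, ∀ T ≤ T₀, ∀ f : ℝ → Vec d → Vec d → ℝ, IsBoltzmannSol γ b T f →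
      (∀ N x v, (1 + ‖v‖) ^ N * f 0 x v ≤ B N) → (∀ t ∈ Ico 0 T, ∀ x v, f t x v ≤ A₁ * Wp p v) →
      ∀ t ∈ Ico 0 T, ∀ x v, (1 + ‖v‖) ^ N * f t x v ≤ U := by
  have hγ2 : γ ≤ 2 := by linarith [hs0.1]
  set q : ℕ := N + d + 10 with hq
  have hq2 : (d : ℝ) + γ + 4 ≤ 2 * q := by
    have : (q : ℝ) = N + d + 10 := by rw [hq]; push_cast; ring
    have hN : (0 : ℝ) ≤ N := Nat.cast_nonneg N
    have hdd : (0 : ℝ) ≤ d := Nat.cast_nonneg d
    rw [this]
    linarith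
  obtain ⟨K, κ, δ, a₀, L, hK, hκ, hδ, hδ1, ha₀, hL, hop⟩ :=
    Pool.Agent.H82.CM.op_bound hd hs0 h0 h2 hb hq2
  obtain ⟨I₀, hI0, hI⟩ := og_int0 (d := d) hd hp
  set C' : ℝ := |A₁| * I₀ with hC'
  have hC0 : 0 ≤ C' := by rw [hC']; positivity
  set A₀ : ℝ := ((d : ℝ) + 1) ^ q * |B (2 * q)| with hA₀
  have hA00 : 0 ≤ A₀ := by rw [hA₀]; positivity
  refine ⟨2 ^ N * (A₀ * Real.exp (K * C' * T₀)), fun T hT f hf hf0 hfA t ht x v => ?_⟩
  have hTpos : 0 < T := lt_of_le_of_lt ht.1 ht.2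
  have hmax := max_principle hf q (m := fun _ => (1 : ℝ)) (K := K * C') (mul_nonneg hK hC0)
    (by
      have h1 : IntegrableOn (fun _ : ℝ => (1 : ℝ)) (Ioo 0 T) :=
        integrableOn_const (by rw [Real.volume_Ioo]; exact ENNReal.ofReal_ne_top)
      exact h1) (fun _ _ => zero_le_one)
    (by
      intro t ht x v hdom
      have hn := IsClassicalSol.nice hf ht x
      have hfn := fun u => hf.nonneg t ⟨ht.1.le, ht.2⟩ x u
      have hh := hop (f t x) hn hfn v hdom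
      have hslow : 0 ≤ κ * f t x v * ∫ z in {z | Pool.Agent.H82.CM.SlowR δ a₀ v z}, f t x z * len (v - z) ^ γ :=
        mul_nonneg (mul_nonneg hκ.le (hfn v)) (integral_nonneg fun z =>
          mul_nonneg (hfn z) (Real.rpow_nonneg (len_nonneg _) _))
      have hS := Pool.Agent.H82.CM.measurableSet_MedR δ a₀ L v
      have i0 : Integrable fun z : Vec d => |A₁| * ((1 + (len (v - z))⁻¹) * Wp p z) :=
        (hI v).1.const_mul _
      have hnn0 : ∀ z : Vec d, 0 ≤ |A₁| * ((1 + (len (v - z))⁻¹) * Wp p z) := fun z => by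
        have e1 := inv_nonneg.2 (len_nonneg (v - z))
        have e2 := Wp_pos p z
        positivity
      have h3 : ∫ z in {z | Pool.Agent.H82.CM.MedR δ a₀ L v z}, f t x z * len (v - z) ^ γ ≤
          ∫ z in {z | Pool.Agent.H82.CM.MedR δ a₀ L v z},
            |A₁| * ((1 + (len (v - z))⁻¹) * Wp p z) := by
        refine integral_mono_of_nonneg (Eventually.of_forall fun z =>
          mul_nonneg (hfn z) (Real.rpow_nonneg (len_nonneg _) _)) i0.integrableOn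
          ((ae_restrict_iff' hS).2 (Eventually.of_forall fun z hz => ?_))
        have e1 := hfA t ⟨ht.1.le, ht.2⟩ x z
        have hW := Wp_pos p z
        have e2 : f t x z ≤ |A₁| * Wp p z :=
          e1.trans (mul_le_mul_of_nonneg_right (le_abs_self _) hW.le)
        have e3 := PrpM_len h1 hg (v - z)
        have e6 := Real.rpow_nonneg (len_nonneg (v - z)) γ
        calc f t x z * len (v - z) ^ γ ≤ (|A₁| * Wp p z) * (1 + (len (v - z))⁻¹) :=
              mul_le_mul e2 e3 e6 (mul_nonneg (abs_nonneg _) hW.le)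
          _ = |A₁| * ((1 + (len (v - z))⁻¹) * Wp p z) := by ring
      have h4 : ∫ z in {z | Pool.Agent.H82.CM.MedR δ a₀ L v z},
          |A₁| * ((1 + (len (v - z))⁻¹) * Wp p z) ≤ C' := by
        have h5 := setIntegral_le_integral (s := {z | Pool.Agent.H82.CM.MedR δ a₀ L v z}) i0
          (Eventually.of_forall hnn0)
        refine h5.trans ?_
        rw [integral_const_mul, hC']
        exact mul_le_mul_of_nonneg_left (hI v).2 (abs_nonneg _)
      have h6 : K * f t x v * ∫ z in {z | Pool.Agent.H82.CM.MedR δ a₀ L v z}, f t x z * len (v - z) ^ γ ≤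
          K * f t x v * C' := mul_le_mul_of_nonneg_left (h3.trans h4) (mul_nonneg hK (hfn v))
      have h7 : K * C' * f t x v * 1 = K * f t x v * C' := by ring
      rw [h7]
      linarith)
    (A₀ := A₀) (by
      intro x v
      have hn : 0 ≤ f 0 x v := hf.nonneg 0 ⟨le_rfl, hTpos⟩ x v
      have h1 := one_add_sq_le v
      have h2' : (1 + nsq v) ^ q ≤ ((d + 1) * (1 + ‖v‖) ^ 2) ^ q :=
        pow_le_pow_left₀ (by linarith [sq_nonneg' v]) h1 q
      rw [mul_pow, ← pow_mul] at h2'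
      have h3 := hf0 (2 * q) x v
      calc f 0 x v * (1 + nsq v) ^ q ≤ f 0 x v * ((d + 1) ^ q * (1 + ‖v‖) ^ (2 * q)) :=
            mul_le_mul_of_nonneg_left h2' hn
        _ = (d + 1) ^ q * ((1 + ‖v‖) ^ (2 * q) * f 0 x v) := by ring
        _ ≤ (d + 1) ^ q * |B (2 * q)| :=
            mul_le_mul_of_nonneg_left (h3.trans (le_abs_self _)) (by positivity)) t ht x v
  have hf1 : 0 ≤ f t x v := hf.nonneg t ht x v
  have hint : ∫ _ in Ioc 0 t, (1 : ℝ) = t := by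
    rw [← intervalIntegral.integral_of_le ht.1]
    simp
  rw [hint] at hmax
  have hexp : Real.exp (K * C' * t) ≤ Real.exp (K * C' * T₀) :=
    Real.exp_le_exp.2 (mul_le_mul_of_nonneg_left (ht.2.le.trans hT) (mul_nonneg hK hC0))
  have h8 : f t x v * (1 + nsq v) ^ q ≤ A₀ * Real.exp (K * C' * T₀) :=
    hmax.trans (mul_le_mul_of_nonneg_left hexp hA00)
  have h9 : (1 + ‖v‖) ^ N ≤ 2 ^ N * (1 + nsq v) ^ q := by
    have e1 : (1 + ‖v‖) ^ N ≤ (2 * (1 + nsq v)) ^ N := pow_le_pow_left₀ (w_pos v).le (PrpM_norm1 v) N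
    rw [mul_pow] at e1
    have e2 : (1 + nsq v) ^ N ≤ (1 + nsq v) ^ q :=
      pow_le_pow_right₀ (by linarith [sq_nonneg' v]) (by omega)
    exact e1.trans (mul_le_mul_of_nonneg_left e2 (by positivity))
  calc (1 + ‖v‖) ^ N * f t x v ≤ (2 ^ N * (1 + nsq v) ^ q) * f t x v :=
        mul_le_mul_of_nonneg_right h9 hf1
    _ = 2 ^ N * (f t x v * (1 + nsq v) ^ q) := by ring
    _ ≤ 2 ^ N * (A₀ * Real.exp (K * C' * T₀)) := mul_le_mul_of_nonneg_left h8 (by positivity)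

theorem prpM (hd : 2 ≤ d) (hs0 : s ∈ Ioo (0 : ℝ) 1) (h1 : -1 ≤ γ) (h0 : 0 ≤ γ + 2 * s)
    (h2 : γ + 2 * s ≤ 2)
    (hb : IsKernel d s b) {p : ℕ} (hp : d + 10 ≤ p) (T₀ A₁ : ℝ) (B : ℕ → ℝ) :
    ∃ U : ℕ → ℝ, ∀ T ≤ T₀, ∀ f : ℝ → Vec d → Vec d → ℝ, IsBoltzmannSol γ b T f →
      (∀ N x v, (1 + ‖v‖) ^ N * f 0 x v ≤ B N) → (∀ t ∈ Ico 0 T, ∀ x v, f t x v ≤ A₁ * Wp p v) →
      ∀ t ∈ Ico 0 T, ∀ N x v, (1 + ‖v‖) ^ N * f t x v ≤ U N := by
  rcases le_total 0 γ with hg | hg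
  · exact Pool.Agent.H48.PS.prp hd hs0 hg h2 hb hp T₀ A₁ B
  · choose U hU using PrpM_main hd hs0 h1 hg h0 h2 hb hp T₀ A₁ B
    exact ⟨U, fun T hT f hf hf0 hfA t ht N x v => hU N T hT f hf hf0 hfA t ht x v⟩

end Pool.Agent.H82.HM
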