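import Pool.Agent.H82.HM.LayCM

/-!
# Block M (MP_c15324_an), soft potentials: the layer lemma with the argument convention of the other blocks
-/

set_option autoImplicit false

open MeasureTheory Set Filter Topology Pool.Agent.H25.Kin Pool.Agent.H48.PL Pool.Agent.H48.PD
open Pool.Agent.H82.BK Pool.Agent.H82.CM Pool.Agent.H48.PR
open Pool.Agent.H82.HF (HR Fam)

namespace Pool.Agent.H82.HM

variable {d : ℕ} {γ s C Ca cb : ℝ} {b : ℝ → ℝ}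

/-- THE LAYER LEMMA, `0 ≤ γ + 2s ≤ 2`, `2s < 1` -/
theorem layer (HL : HypL d γ s b C Ca cb) (hb : IsKernel d s b) (_h0 : 0 ≤ γ + 2 * s)
    (hs : 2 * s < 1)
    {α : ℝ} (h1 : 2 * s < α) (h2 : α ≤ 1) {F : Vec d → ℝ} {MF : ℝ} (hF : HR α (2 * d + 22) MF F)
    (hF0 : ∀ v, 0 ≤ F v) (hFm : 0 < ∫ v, F v) :
    ∃ Kst : ℝ, 0 ≤ Kst ∧ ∀ (n : ℕ) (M : ℝ) (a : Fin n → ℝ) (cc : Fin n → Vec d → ℝ)
      (k : Fin n → Vec d) (φ : Fin n → ℝ), Fam α (2 * d + 24) M a cc k →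
    ∀ (B : ℕ → ℝ) (ι : ℝ), 0 < ι →
      2 * Real.exp (Kst * ∑ j, a j * len (k j) ^ (2 * s)) * ι ≤ 1 →
    ∃ θ : ℝ, 0 < θ ∧ ∃ U : ℕ → ℝ, ∀ δ : ℝ, 0 < δ → δ ≤ 1 → ∀ T : ℝ, δ * T ≤ θ →
    ∀ f : ℝ → Vec d → Vec d → ℝ, IsBoltzmannSol γ (fun x => δ * b x) T f →
      (∀ N x v, (1 + ‖v‖) ^ N * f 0 x v ≤ B N) →
      (∀ x v, |f 0 x v - (F v + ∑ j, cc j v * Real.cos (2 * Real.pi * dot (k j) x + φ j))| ≤
        ι * Wp (d + 10) v) →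
    ∀ t ∈ Ico 0 T, ∀ x v,
      |f t x v - F v| ≤ (2 * Real.exp (Kst * ∑ j, a j * len (k j) ^ (2 * s)) * ι +
        Kst * (∑ j, a j) / (1 + δ * t ^ (1 + 2 * s))) * Wp (d + 10) v ∧
      ∀ N, (1 + ‖v‖) ^ N * f t x v ≤ U N :=
  layerC HL hb hs h1 h2 hF hF0 hFm

end Pool.Agent.H82.HM
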