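import Pool.Agent.H82.HF.Scl
import Pool.Agent.H85.DG.ScaD
import Pool.Agent.H82.HM.PrpM

/-!
# Block M (MP_c15324_an), soft potentials, module PrpDM: decay constants for the kernel `δ b`, uniformly in `δ`, on times `≤ 1/δ`
-/

set_option autoImplicit false

open MeasureTheory Set Filter Topology Pool.Agent.H25.Kin Pool.Agent.H48.PL Pool.Agent.H48.PD
open Pool.Agent.H82.BK Pool.Agent.H48.PR

namespace Pool.Agent.H82.HM

variable {d : ℕ} {γ s : ℝ} {b : ℝ → ℝ}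

theorem prpDM (hd : 2 ≤ d) (hs0 : s ∈ Ioo (0 : ℝ) 1) (hg : -1 ≤ γ) (h0 : 0 ≤ γ + 2 * s)
    (h2 : γ + 2 * s ≤ 2)
    (hb : IsKernel d s b) {p : ℕ} (hp : d + 10 ≤ p) (A₁ : ℝ) (B : ℕ → ℝ) :
    ∃ U : ℕ → ℝ, ∀ δ : ℝ, 0 < δ → δ ≤ 1 → ∀ T : ℝ, δ * T ≤ 1 → ∀ f : ℝ → Vec d → Vec d → ℝ,
      IsBoltzmannSol γ (fun x => δ * b x) T f → (∀ N x v, (1 + ‖v‖) ^ N * f 0 x v ≤ B N) →
      (∀ t ∈ Ico 0 T, ∀ x v, f t x v ≤ A₁ * Wp p v) →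
      ∀ t ∈ Ico 0 T, ∀ N x v, (1 + ‖v‖) ^ N * f t x v ≤ U N := by
  obtain ⟨U₀, hU₀⟩ := prpM hd hs0 hg h0 h2 hb hp 2 |A₁| (fun N => |B N|)
  refine ⟨fun N => 2 * |U₀ N|, ?_⟩
  intro δ hδ hδ1 T hT f hf hf0 hfA t ht N x v
  have h02 : 0 ≤ γ + 2 * s := h0
  obtain ⟨n, hn⟩ : ∃ n : ℕ, n = ⌊1 / δ⌋₊ := ⟨_, rfl⟩
  have h1δ : 1 ≤ 1 / δ := by rw [le_div_iff₀ hδ, one_mul]; exact hδ1
  have hn1 : 1 ≤ n := by
    rw [hn]
    exact Nat.le_floor (by simpa using h1δ)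
  have hnR : (1 : ℝ) ≤ n := by exact_mod_cast hn1
  have hn0 : (0 : ℝ) < n := by linarith
  have hle : (n : ℝ) ≤ 1 / δ := by
    rw [hn]
    exact Nat.floor_le (by positivity)
  have hlt : 1 / δ < n + 1 := by
    rw [hn]
    exact Nat.lt_floor_add_one _
  obtain ⟨θ, hθ⟩ : ∃ θ : ℝ, θ = n * δ := ⟨_, rfl⟩
  have hθ1 : θ ≤ 1 := by
    rw [hθ]
    rwa [le_div_iff₀ hδ] at hle
  have hθ2 : 1 / 2 ≤ θ := by
    rw [hθ]
    rw [div_lt_iff₀ hδ] at hlt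
    nlinarith
  have hθ0 : 0 < θ := by linarith
  have hTn : T ≤ 2 * n := by
    have h1 : T ≤ 1 / δ := by
      rw [le_div_iff₀ hδ, mul_comm]
      exact hT
    linarith
  have hTn' : T / n ≤ 2 := by
    rw [div_le_iff₀ hn0]
    exact hTn
  -- the scaled solution
  have hk1 : IsKernel d s (fun x => δ * b x) := Pool.Agent.H25.PN.kernel_scale hb hδ
  have hk2 : IsKernel d s (fun x => (n : ℝ) * (δ * b x)) := Pool.Agent.H25.PN.kernel_scale hk1 hn0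
  have s1 := Pool.Agent.H82.HF.scl_sol hd hs0 h02 h2 hk1 hf hn1
  have s2 := Pool.Agent.H85.DG.amp_sol hd hs0.1 hs0.2 h02 h2 hk2 (inv_pos.2 hθ0) s1
  have hker : (fun x => θ⁻¹ * ((n : ℝ) * (δ * b x))) = b := by
    funext x
    rw [hθ]
    field_simp
  have s3 : IsBoltzmannSol γ b (T / n)
      (fun t x v => θ⁻¹⁻¹ * f ((n : ℝ) * t) ((n : ℝ) • x) v) := by
    rw [hker] at s2
    exact s2
  rw [inv_inv] at s3
  have hA : ∀ N x v, (1 + ‖v‖) ^ N * (θ * f ((n : ℝ) * 0) ((n : ℝ) • x) v) ≤ |B N| := by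
    intro N x v
    rw [mul_zero]
    have h1 := hf0 N ((n : ℝ) • x) v
    calc (1 + ‖v‖) ^ N * (θ * f 0 ((n : ℝ) • x) v)
        = θ * ((1 + ‖v‖) ^ N * f 0 ((n : ℝ) • x) v) := by ring
      _ ≤ θ * B N := mul_le_mul_of_nonneg_left h1 hθ0.le
      _ ≤ θ * |B N| := mul_le_mul_of_nonneg_left (le_abs_self _) hθ0.le
      _ ≤ 1 * |B N| := mul_le_mul_of_nonneg_right hθ1 (abs_nonneg _)
      _ = |B N| := one_mul _
  have hB : ∀ t ∈ Ico 0 (T / n), ∀ x v,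
      θ * f ((n : ℝ) * t) ((n : ℝ) • x) v ≤ |A₁| * Wp p v := by
    intro t ht x v
    have h1 : (n : ℝ) * t ∈ Ico 0 T := by
      refine ⟨mul_nonneg hn0.le ht.1, ?_⟩
      have := ht.2
      rw [lt_div_iff₀ hn0] at this
      rwa [mul_comm]
    have h3 := hfA _ h1 ((n : ℝ) • x) v
    have h4 : 0 ≤ Wp p v := (Wp_pos p v).le
    calc θ * f ((n : ℝ) * t) ((n : ℝ) • x) v ≤ θ * (A₁ * Wp p v) :=
          mul_le_mul_of_nonneg_left h3 hθ0.le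
      _ ≤ θ * (|A₁| * Wp p v) :=
          mul_le_mul_of_nonneg_left (mul_le_mul_of_nonneg_right (le_abs_self _) h4) hθ0.le
      _ ≤ 1 * (|A₁| * Wp p v) :=
          mul_le_mul_of_nonneg_right hθ1 (mul_nonneg (abs_nonneg _) h4)
      _ = |A₁| * Wp p v := one_mul _
  have key := hU₀ (T / n) hTn' _ s3 hA hB (t / n)
    ⟨div_nonneg ht.1 hn0.le, div_lt_div_of_pos_right ht.2 hn0⟩ N ((n : ℝ)⁻¹ • x) v
  have e1 : (n : ℝ) * (t / n) = t := by field_simp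
  have e2 : (n : ℝ) • ((n : ℝ)⁻¹ • x) = x := by
    rw [smul_smul, mul_inv_cancel₀ hn0.ne', one_smul]
  rw [e1, e2] at key
  have h5 : (1 + ‖v‖) ^ N * f t x v = θ⁻¹ * ((1 + ‖v‖) ^ N * (θ * f t x v)) := by
    field_simp
  have h6 : θ⁻¹ ≤ 2 := by
    rw [inv_le_comm₀ hθ0 two_pos]
    linarith
  rw [h5]
  calc θ⁻¹ * ((1 + ‖v‖) ^ N * (θ * f t x v)) ≤ θ⁻¹ * U₀ N :=
        mul_le_mul_of_nonneg_left key (inv_nonneg.2 hθ0.le)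
    _ ≤ θ⁻¹ * |U₀ N| := mul_le_mul_of_nonneg_left (le_abs_self _) (inv_nonneg.2 hθ0.le)
    _ ≤ 2 * |U₀ N| := mul_le_mul_of_nonneg_right h6 (abs_nonneg _)

end Pool.Agent.H82.HM
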