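import Pool.Agent.H82.HM.Pre
import Pool.Agent.H15.HF.Sg

/-!
# Block M (MP_c15324_an): the damping rate, `0 ≤ γ + 2s ≤ 2` (copy of H15/HF/Sg)
-/

set_option autoImplicit false

open MeasureTheory Set Filter Topology Pool.Agent.H25.Kin Pool.Agent.H48.PL Pool.Agent.H48.PD
open Pool.Agent.H82.BK Pool.Agent.H82.CM Pool.Agent.H48.PR Pool.Agent.H82.HF
open scoped ENNReal

namespace Pool.Agent.H15.HF.M

variable {d : ℕ} {γ s C Ca cb : ℝ} {b : ℝ → ℝ}

private lemma SgM_lenpow (h0 : 0 ≤ γ + 2 * s) (hs0 : 0 < s) (h2 : γ + 2 * s ≤ 2) (m : Vec d) :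
    len m ^ γ * len m ^ (2 * s) ≤ 1 + nsq m := by
  have hn := sq_nonneg' m
  rcases (len_nonneg m).eq_or_lt with hl | hl
  · rw [← hl, Real.zero_rpow (by linarith : 2 * s ≠ 0), mul_zero]
    linarith
  rw [← Real.rpow_add hl]
  rcases le_total (len m) 1 with h | h
  · have h1 : len m ^ (γ + 2 * s) ≤ 1 := Real.rpow_le_one hl.le h h0
    linarith
  · have h1 : len m ^ (γ + 2 * s) ≤ len m ^ (2 : ℝ) := Real.rpow_le_rpow_of_exponent_le h h2
    rw [Real.rpow_two, len_sq] at h1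
    linarith

private lemma SgM_core {q : ℕ} {K : ℝ} {v : Vec d}
    (hK : Integrable (fun m : Vec d => (1 + nsq m) * Wp q (v - m)) ∧
      ∫ m : Vec d, (1 + nsq m) * Wp q (v - m) ≤ K * (1 + nsq v)) {Φ : Vec d → ℝ} {B : ℝ}
    (hB : 0 ≤ B) (hΦ : Measurable Φ) (h : ∀ m, |Φ m| ≤ B * ((1 + nsq m) * Wp q (v - m))) :
    Integrable Φ ∧ |∫ m, Φ m| ≤ B * (K * (1 + nsq v)) := by
  have h1 := hK.1.const_mul B
  have h2 : Integrable Φ := h1.mono' hΦ.aestronglyMeasurable (Eventually.of_forall fun m => by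
    rw [Real.norm_eq_abs]; exact h m)
  refine ⟨h2, ?_⟩
  calc |∫ m, Φ m| ≤ ∫ m, |Φ m| := abs_integral_le_integral_abs
    _ ≤ ∫ m, B * ((1 + nsq m) * Wp q (v - m)) := integral_mono h2.abs h1 h
    _ = B * ∫ m, ((1 + nsq m) * Wp q (v - m)) := integral_const_mul _ _
    _ ≤ _ := mul_le_mul_of_nonneg_left hK.2 hB

private lemma SgM_pt (h0 : 0 ≤ γ + 2 * s) (hs0 : 0 < s) (h2 : γ + 2 * s ≤ 2) {A A0 l f j w : ℝ}
    (hl : 0 ≤ l) (hA0 : 0 ≤ A0) (hAw : 0 ≤ A * w) (m : Vec d) (hf : |f| ≤ A * w)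
    (hj : |j| ≤ A0 * (l * len m) ^ (2 * s)) :
    |len m ^ γ * (f * j)| ≤ (A0 * l ^ (2 * s)) * ((1 + nsq m) * (A * w)) := by
  have hm := len_nonneg m
  rw [abs_mul, abs_mul, abs_of_nonneg (Real.rpow_nonneg hm γ)]
  rw [Real.mul_rpow hl hm] at hj
  have h3 := SgM_lenpow h0 hs0 h2 m
  have h4 : 0 ≤ l ^ (2 * s) := Real.rpow_nonneg hl _
  have h5 : 0 ≤ len m ^ γ := Real.rpow_nonneg hm _
  calc len m ^ γ * (|f| * |j|)
      ≤ len m ^ γ * ((A * w) * (A0 * (l ^ (2 * s) * len m ^ (2 * s)))) := by gcongr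
    _ = (A0 * l ^ (2 * s)) * ((len m ^ γ * len m ^ (2 * s)) * (A * w)) := by ring
    _ ≤ _ := by gcongr

private lemma SgM_meas (hb : Measurable b) (γ ε : ℝ) {F : Vec d → ℝ} (hF : Measurable F)
    (κ v : Vec d) : Measurable fun m => len m ^ γ * (F (v - m) * Jf γ b ε κ m) :=
  (continuous_len.measurable.pow_const γ).mul
    ((hF.comp (measurable_const.sub measurable_id)).mul (Jf_meas hb γ ε κ))

private lemma SgM_HR_meas {α A : ℝ} {q : ℕ} {F : Vec d → ℝ} (hα : 0 < α) (hF : HR α q A F) :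
    Measurable F := by
  refine Continuous.measurable ?_
  rw [continuous_iff_continuousAt]
  intro v
  have h1 : ∀ u, |F u - F v| ≤ 2 * A * len (u - v) ^ α := by
    intro u
    have h2 := hF.hol v (u - v)
    rw [add_sub_cancel] at h2
    refine h2.trans ?_
    have h3 : min 1 (len (u - v)) ^ α ≤ len (u - v) ^ α :=
      Real.rpow_le_rpow (le_min zero_le_one (len_nonneg _)) (min_le_right _ _) hα.le
    have h4 : Wp q v + Wp q u ≤ 2 := by
      have := Wp_le_one q v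
      have := Wp_le_one q u
      linarith
    have h5 : 0 ≤ Wp q v + Wp q u := add_nonneg (Wp_pos q v).le (Wp_pos q u).le
    have h6 := hF.nn
    have h7 : 0 ≤ len (u - v) ^ α := Real.rpow_nonneg (len_nonneg _) _
    calc A * min 1 (len (u - v)) ^ α * (Wp q v + Wp q u) ≤ A * len (u - v) ^ α * 2 := by gcongr
      _ = _ := by ring
  have h3 : Tendsto (fun u => 2 * A * len (u - v) ^ α) (𝓝 v) (𝓝 0) := by
    have hc : Continuous fun u : Vec d => 2 * A * len (u - v) ^ α :=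
      continuous_const.mul ((continuous_len.comp (continuous_id.sub continuous_const)).rpow_const
        (fun _ => Or.inr hα.le))
    have h4 := hc.tendsto v
    simpa [len_zero, Real.zero_rpow hα.ne'] using h4
  rw [ContinuousAt, tendsto_iff_norm_sub_tendsto_zero]
  exact squeeze_zero (fun u => norm_nonneg _) (fun u => by rw [Real.norm_eq_abs]; exact h1 u) h3

theorem sg_intM (H : Hyp d γ s b C Ca) (hs : 2 * s < 1) {q : ℕ} (hq : d + 10 ≤ q) :
    ∃ K : ℝ, 0 ≤ K ∧ ∀ ε : ℝ, 0 ≤ ε → ∀ (F : Vec d → ℝ) (A : ℝ), Measurable F → 0 ≤ A →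
      (∀ u, |F u| ≤ A * Wp q u) → ∀ κ v : Vec d,
      Integrable (fun m => len m ^ γ * (F (v - m) * Jf γ b ε κ m)) ∧
      |sgE γ b ε F κ v| ≤ K * A * len κ ^ (2 * s) * (1 + nsq v) := by
  obtain ⟨A0, hA0, hJ⟩ := Jf_le H hs
  obtain ⟨K, hK0, hK⟩ := W_int1 (d := d) hq
  refine ⟨A0 * K, by positivity, fun ε hε F A hF hA hFA κ v => ?_⟩
  have hl : 0 ≤ len κ ^ (2 * s) := Real.rpow_nonneg (len_nonneg κ) _
  have h := SgM_core (hK v) (Φ := fun m => len m ^ γ * (F (v - m) * Jf γ b ε κ m))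
    (B := A0 * len κ ^ (2 * s) * A) (by positivity) (SgM_meas H.bm γ ε hF κ v) (fun m => by
      have h1 := (hJ ε hε κ κ m).2.1
      have h2 : |Jf γ b ε κ m| ≤ A0 * (len κ * len m) ^ (2 * s) := by
        rw [abs_of_nonneg (Jf_nonneg γ b ε κ m)]; exact h1
      refine (SgM_pt H.h0 H.hs H.h2 (len_nonneg κ) hA0
        (mul_nonneg hA (Wp_pos q (v - m)).le) m (hFA (v - m)) h2).trans_eq ?_
      ring)
  refine ⟨h.1, ?_⟩
  unfold sgE
  exact h.2.trans_eq (by ring)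

theorem sg_holM (H : Hyp d γ s b C Ca) (hs : 2 * s < 1) {q : ℕ} (hq : d + 10 ≤ q) :
    ∃ K : ℝ, 0 ≤ K ∧ ∀ ε : ℝ, 0 ≤ ε → ∀ (α A : ℝ) (F : Vec d → ℝ), 0 < α → HR α q A F →
      ∀ κ v h : Vec d, |sgE γ b ε F κ (v + h) - sgE γ b ε F κ v| ≤
        K * A * min 1 (len h) ^ α * len κ ^ (2 * s) * (1 + nsq v + nsq (v + h)) := by
  obtain ⟨A0, hA0, hJ⟩ := Jf_le H hs
  obtain ⟨K, hK0, hK⟩ := W_int1 (d := d) hq
  obtain ⟨K2, hK20, hK2⟩ := sg_intM H hs hq
  refine ⟨A0 * K * 2, by positivity, fun ε hε α A F hα hF κ v h => ?_⟩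
  have hFm := SgM_HR_meas hα hF
  have hA := hF.nn
  have hi1 := (hK2 ε hε F A hFm hA hF.le κ (v + h)).1
  have hi2 := (hK2 ε hε F A hFm hA hF.le κ v).1
  have hl : 0 ≤ len κ ^ (2 * s) := Real.rpow_nonneg (len_nonneg κ) _
  have hmin : 0 ≤ min 1 (len h) ^ α := Real.rpow_nonneg (le_min zero_le_one (len_nonneg _)) _
  have hB : 0 ≤ A0 * len κ ^ (2 * s) * (A * min 1 (len h) ^ α) := by positivity
  set B : ℝ := A0 * len κ ^ (2 * s) * (A * min 1 (len h) ^ α) with hBdef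
  have hbd : ∀ m, |len m ^ γ * (F (v + h - m) * Jf γ b ε κ m) -
      len m ^ γ * (F (v - m) * Jf γ b ε κ m)| ≤
      B * ((1 + nsq m) * Wp q (v - m)) + B * ((1 + nsq m) * Wp q (v + h - m)) := by
    intro m
    have e1 : len m ^ γ * (F (v + h - m) * Jf γ b ε κ m) - len m ^ γ * (F (v - m) * Jf γ b ε κ m)
        = len m ^ γ * ((F (v + h - m) - F (v - m)) * Jf γ b ε κ m) := by ring
    have h1 := (hJ ε hε κ κ m).2.1
    have h2 : |Jf γ b ε κ m| ≤ A0 * (len κ * len m) ^ (2 * s) := by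
      rw [abs_of_nonneg (Jf_nonneg γ b ε κ m)]; exact h1
    have h3 := hF.hol (v - m) h
    have e2 : v - m + h = v + h - m := by abel
    rw [e2] at h3
    have h4 : 0 ≤ A * min 1 (len h) ^ α * (Wp q (v - m) + Wp q (v + h - m)) := by
      have := (Wp_pos q (v - m)).le
      have := (Wp_pos q (v + h - m)).le
      positivity
    rw [e1]
    refine (SgM_pt H.h0 H.hs H.h2 (len_nonneg κ) hA0 h4 m h3 h2).trans_eq ?_
    rw [hBdef]
    ring
  have hj1 := (hK v).1.const_mul B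
  have hj2 := (hK (v + h)).1.const_mul B
  unfold sgE
  rw [← integral_sub hi1 hi2]
  calc |∫ m, (len m ^ γ * (F (v + h - m) * Jf γ b ε κ m) - len m ^ γ * (F (v - m) * Jf γ b ε κ m))|
      ≤ ∫ m, |len m ^ γ * (F (v + h - m) * Jf γ b ε κ m) -
          len m ^ γ * (F (v - m) * Jf γ b ε κ m)| := abs_integral_le_integral_abs
    _ ≤ ∫ m, (B * ((1 + nsq m) * Wp q (v - m)) + B * ((1 + nsq m) * Wp q (v + h - m))) :=
        integral_mono (hi1.sub hi2).abs (hj1.add hj2) hbd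
    _ = B * (∫ m, (1 + nsq m) * Wp q (v - m)) + B * ∫ m, (1 + nsq m) * Wp q (v + h - m) := by
        rw [integral_add hj1 hj2, integral_const_mul, integral_const_mul]
    _ ≤ B * (K * (1 + nsq v)) + B * (K * (1 + nsq (v + h))) :=
        add_le_add (mul_le_mul_of_nonneg_left (hK v).2 hB)
          (mul_le_mul_of_nonneg_left (hK (v + h)).2 hB)
    _ = B * K * (2 + nsq v + nsq (v + h)) := by ring
    _ ≤ B * K * (2 * (1 + nsq v + nsq (v + h))) := by
        refine mul_le_mul_of_nonneg_left ?_ (mul_nonneg hB hK0)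
        have := sq_nonneg' v
        have := sq_nonneg' (v + h)
        linarith
    _ = _ := by rw [hBdef]; ring

theorem sg_kapM (H : Hyp d γ s b C Ca) (hs : 2 * s < 1) {q : ℕ} (hq : d + 10 ≤ q) :
    ∃ K : ℝ, 0 ≤ K ∧ ∀ ε : ℝ, 0 ≤ ε → ∀ (F : Vec d → ℝ) (A : ℝ), Measurable F → 0 ≤ A →
      (∀ u, |F u| ≤ A * Wp q u) → ∀ κ κ' v : Vec d,
      |sgE γ b ε F κ v - sgE γ b ε F κ' v| ≤ K * A * len (κ - κ') ^ (2 * s) * (1 + nsq v) := by
  obtain ⟨A0, hA0, hJ⟩ := Jf_le H hs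
  obtain ⟨K, hK0, hK⟩ := W_int1 (d := d) hq
  obtain ⟨K2, hK20, hK2⟩ := sg_intM H hs hq
  refine ⟨A0 * K, by positivity, fun ε hε F A hF hA hFA κ κ' v => ?_⟩
  have hl : 0 ≤ len (κ - κ') ^ (2 * s) := Real.rpow_nonneg (len_nonneg _) _
  have hi1 := (hK2 ε hε F A hF hA hFA κ v).1
  have hi2 := (hK2 ε hε F A hF hA hFA κ' v).1
  have h := SgM_core (hK v)
    (Φ := fun m => len m ^ γ * (F (v - m) * Jf γ b ε κ m) - len m ^ γ * (F (v - m) * Jf γ b ε κ' m))
    (B := A0 * len (κ - κ') ^ (2 * s) * A) (by positivity)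
    ((SgM_meas H.bm γ ε hF κ v).sub (SgM_meas H.bm γ ε hF κ' v)) (fun m => by
      have e1 : len m ^ γ * (F (v - m) * Jf γ b ε κ m) - len m ^ γ * (F (v - m) * Jf γ b ε κ' m)
          = len m ^ γ * (F (v - m) * (Jf γ b ε κ m - Jf γ b ε κ' m)) := by ring
      have h1 := (hJ ε hε κ κ' m).2.2
      rw [e1]
      refine (SgM_pt H.h0 H.hs H.h2 (len_nonneg (κ - κ')) hA0
        (mul_nonneg hA (Wp_pos q (v - m)).le) m (hFA (v - m)) h1).trans_eq ?_
      ring)
  unfold sgE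
  rw [← integral_sub hi1 hi2]
  exact h.2.trans_eq (by ring)

private lemma SgM_bt_eq (b : ℝ → ℝ) {ε x : ℝ} (h1 : ε ≤ 1 - x) (h2 : ε ≤ 1)
    (h3 : x ≤ 1) : bt b ε x = bt b 0 x := by
  have e1 : (if 0 < x then bcut b ε x else 0) = if 0 < x then bcut b 0 x else 0 := by
    unfold bcut
    rw [if_pos (show x ≤ 1 - ε by linarith), if_pos (show x ≤ 1 - 0 by linarith)]
  have e2 : (if 0 ≤ x then bcut b ε (-x) else 0) = if 0 ≤ x then bcut b 0 (-x) else 0 := by
    by_cases hx : 0 ≤ x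
    · rw [if_pos hx, if_pos hx]
      unfold bcut
      rw [if_pos (show -x ≤ 1 - ε by linarith), if_pos (show -x ≤ 1 - 0 by linarith)]
    · rw [if_neg hx, if_neg hx]
  unfold bt
  rw [e1, e2]

private lemma SgM_bcut_le {β ε x : ℝ} (hC : AngBound b C β) (hε : 0 ≤ ε) (h1 : -1 ≤ x)
    (h2 : x < 1) : bcut b ε x ≤ bcut b 0 x := by
  have h3 := (hC.2 x h1 h2).1
  unfold bcut
  rw [if_pos (show x ≤ 1 - 0 by linarith)]
  split_ifs
  · exact le_refl _
  · exact h3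

private lemma SgM_bt_le {β ε x : ℝ} (hC : AngBound b C β) (hε : 0 ≤ ε) (h1 : -1 < x)
    (h2 : x < 1) : bt b ε x ≤ bt b 0 x := by
  unfold bt
  refine add_le_add ?_ ?_
  · split_ifs
    · exact SgM_bcut_le hC hε h1.le h2
    · exact le_refl _
  · split_ifs
    · exact SgM_bcut_le hC hε (by linarith) (by linarith)
    · exact le_refl _

private lemma SgM_kn_meas (hb : Measurable b) (γ ε : ℝ) (m : Vec d) :
    Measurable fun σ : Vec d => Kn d γ (bt b ε) (co m σ) := by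
  have hco : Measurable fun σ : Vec d => co m σ :=
    measurable_co.comp (measurable_const.prodMk measurable_id)
  unfold Kn
  exact (measurable_const.mul (hco.pow_const _)).mul ((measurable_bt hb ε).comp
    ((measurable_const.mul (hco.pow_const 2)).sub measurable_const))

private lemma SgM_int0 (hb : Measurable b) (γ ε : ℝ) (m : Vec d) {φ : Vec d → ℝ}
    (hφ : Measurable φ) (hi : Integrable φ (Nm γ b ε m)) :
    Integrable (fun σ => max (Kn d γ (bt b ε) (co m σ)) 0 * φ (hh σ m))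
      ((surf d).restrict {σ : Vec d | 0 < dot m σ}) := by
  unfold Nm at hi
  rw [integrable_map_measure hφ.aestronglyMeasurable (meas_hm m).aemeasurable] at hi
  have hk : Measurable fun σ : Vec d => ENNReal.ofReal (Kn d γ (bt b ε) (co m σ)) :=
    (SgM_kn_meas hb γ ε m).ennreal_ofReal
  rw [integrable_withDensity_iff_integrable_smul' hk
    (ae_of_all _ fun σ => ENNReal.ofReal_lt_top)] at hi
  refine hi.congr (ae_of_all _ fun σ => ?_)
  simp only [Function.comp, smul_eq_mul, ENNReal.toReal_ofReal']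

private lemma SgM_cos_meas (κ : Vec d) : Measurable fun h : Vec d => 1 - Real.cos (dot κ h) := by
  have h1 : Continuous fun h : Vec d => dot κ h := by unfold dot; fun_prop
  exact (continuous_const.sub (Real.continuous_cos.comp h1)).measurable

private lemma SgM_hh_zero {m σ : Vec d} (hσ : nsq σ = 1) (h : 0 < dot m σ) (hc : co m σ = 1) :
    hh σ m = 0 := by
  have h1 := nsq_hh hσ h
  rw [hc] at h1
  norm_num at h1
  by_contra h2
  have h3 := sq_pos_of_ne h2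
  linarith

private lemma SgM_Jtend (H : Hyp d γ s b C Ca) (hs : 2 * s < 1) (κ m : Vec d) :
    Tendsto (fun ε => Jf γ b ε κ m) (𝓝[>] 0) (𝓝 (Jf γ b 0 κ m)) := by
  have hφ := SgM_cos_meas κ
  have he : ∀ ε, Jf γ b ε κ m = ∫ σ in {σ : Vec d | 0 < dot m σ},
      max (Kn d γ (bt b ε) (co m σ)) 0 * (1 - Real.cos (dot κ (hh σ m))) ∂(surf d) :=
    fun ε => int_Nm H.bm γ ε m hφ
  rw [he 0]
  refine Tendsto.congr (fun ε => (he ε).symm) ?_
  obtain ⟨A0, hA0, hJ⟩ := Jf_le H hs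
  have hi0 := SgM_int0 H.bm γ 0 m hφ (hJ 0 le_rfl κ κ m).1
  have hmS := measurableSet_half m
  have hae : ∀ᵐ σ ∂((surf d).restrict {σ : Vec d | 0 < dot m σ}), nsq σ = 1 ∧ 0 < dot m σ := by
    filter_upwards [ae_restrict_of_ae surf_ae, ae_restrict_mem hmS] with σ h1 h2
    exact ⟨h1, h2⟩
  have hcos : ∀ σ : Vec d, 0 ≤ 1 - Real.cos (dot κ (hh σ m)) := fun σ => by
    linarith [Real.cos_le_one (dot κ (hh σ m))]
  refine tendsto_integral_filter_of_dominated_convergence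
    (fun σ => max (Kn d γ (bt b 0) (co m σ)) 0 * (1 - Real.cos (dot κ (hh σ m)))) ?_ ?_ hi0 ?_
  · exact Eventually.of_forall fun ε =>
      (((SgM_kn_meas H.bm γ ε m).max measurable_const).mul
        (hφ.comp (meas_hm m))).aestronglyMeasurable
  · filter_upwards [self_mem_nhdsWithin] with ε hε
    have hε' : (0 : ℝ) < ε := hε
    filter_upwards [hae] with σ hσ
    rcases (co_le_one (m := m) hσ.1).lt_or_eq with hc | hc
    · have hc0 := co_pos hσ.2
      rw [Real.norm_eq_abs, abs_of_nonneg (mul_nonneg (le_max_right _ _) (hcos σ))]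
      refine mul_le_mul_of_nonneg_right (max_le_max ?_ le_rfl) (hcos σ)
      unfold Kn
      refine mul_le_mul_of_nonneg_left (SgM_bt_le H.bd hε'.le ?_ ?_)
        (mul_nonneg (by positivity) (Real.rpow_nonneg hc0.le _))
      · nlinarith
      · nlinarith
    · rw [SgM_hh_zero hσ.1 hσ.2 hc]
      have : dot κ (0 : Vec d) = 0 := by unfold dot; simp
      rw [this]
      simp
  · filter_upwards [hae] with σ hσ
    rcases (co_le_one (m := m) hσ.1).lt_or_eq with hc | hc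
    · have hc0 := co_pos hσ.2
      refine Tendsto.congr' ?_ tendsto_const_nhds
      have hx : 0 < 1 - (2 * co m σ ^ 2 - 1) := by nlinarith
      have h1 : ∀ᶠ ε in 𝓝[>] (0 : ℝ), ε < min (1 - (2 * co m σ ^ 2 - 1)) 1 :=
        (eventually_lt_nhds (lt_min hx one_pos)).filter_mono nhdsWithin_le_nhds
      filter_upwards [h1] with ε hε
      have h2 : bt b ε (2 * co m σ ^ 2 - 1) = bt b 0 (2 * co m σ ^ 2 - 1) :=
        SgM_bt_eq b (hε.le.trans (min_le_left _ _)) (hε.le.trans (min_le_right _ _)) (by linarith)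
      unfold Kn
      rw [h2]
    · rw [SgM_hh_zero hσ.1 hσ.2 hc]
      have : dot κ (0 : Vec d) = 0 := by unfold dot; simp
      rw [this]
      simp

theorem sg_tendM (H : Hyp d γ s b C Ca) (hs : 2 * s < 1) {q : ℕ} (hq : d + 10 ≤ q)
    {F : Vec d → ℝ} {A : ℝ} (hF : Measurable F) (hA : ∀ u, |F u| ≤ A * Wp q u) (κ v : Vec d) :
    Tendsto (fun ε => sgE γ b ε F κ v) (𝓝[>] 0) (𝓝 (sgE γ b 0 F κ v)) := by
  obtain ⟨A0, hA0, hJ⟩ := Jf_le H hs
  obtain ⟨K, hK0, hK⟩ := W_int1 (d := d) hq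
  have hA1 : 0 ≤ A := by
    have h1 := (abs_nonneg _).trans (hA 0)
    exact nonneg_of_mul_nonneg_left h1 (Wp_pos q 0)
  unfold sgE
  refine tendsto_integral_filter_of_dominated_convergence
    (fun m => (A0 * len κ ^ (2 * s) * A) * ((1 + nsq m) * Wp q (v - m))) ?_ ?_ ?_ ?_
  · exact Eventually.of_forall fun ε => (SgM_meas H.bm γ ε hF κ v).aestronglyMeasurable
  · filter_upwards [self_mem_nhdsWithin] with ε hε
    have hε' : (0 : ℝ) < ε := hε
    refine Eventually.of_forall fun m => ?_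
    have h1 := (hJ ε hε'.le κ κ m).2.1
    have h2 : |Jf γ b ε κ m| ≤ A0 * (len κ * len m) ^ (2 * s) := by
      rw [abs_of_nonneg (Jf_nonneg γ b ε κ m)]; exact h1
    rw [Real.norm_eq_abs]
    refine (SgM_pt H.h0 H.hs H.h2 (len_nonneg κ) hA0
      (mul_nonneg hA1 (Wp_pos q (v - m)).le) m (hA (v - m)) h2).trans_eq ?_
    ring
  · exact (hK v).1.const_mul _
  · exact Eventually.of_forall fun m =>
      ((SgM_Jtend H hs κ m).const_mul (F (v - m))).const_mul (len m ^ γ)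

lemma sg_nonneg (γ : ℝ) (b : ℝ → ℝ) (ε : ℝ) {F : Vec d → ℝ} (hF : ∀ u, 0 ≤ F u) (κ v : Vec d) :
    0 ≤ sgE γ b ε F κ v := by
  unfold sgE
  exact integral_nonneg fun m => mul_nonneg (Real.rpow_nonneg (len_nonneg m) γ)
    (mul_nonneg (hF _) (Jf_nonneg γ b ε κ m))

lemma sg_zero (γ : ℝ) (b : ℝ → ℝ) (ε : ℝ) (F : Vec d → ℝ) (v : Vec d) : sgE γ b ε F 0 v = 0 := by
  have h1 : ∀ m : Vec d, Jf γ b ε 0 m = 0 := fun m => by
    unfold Jf
    have h2 : ∀ h : Vec d, dot (0 : Vec d) h = 0 := fun h => by unfold dot; simp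
    simp [h2]
  unfold sgE
  simp [h1]

end Pool.Agent.H15.HF.M
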