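import Pool.Agent.H82.HF.Cont
import Pool.Agent.H15.HF.SgF
import Pool.Agent.H82.HM.SgM
import Pool.Agent.H82.HM.LowM

/-!
# Block M (MP_c15324_an), soft potentials: the properties `SgK` of the damping rate

As `SgH`, with the lower bound `c (1+|v|²)⁻¹ |κ|^(2s) ≤ S κ v`. `sg_K`: the damping rate has these properties; `dam0`, `dam3`, `dam4`, `fa_cont`,
`fa_char` for `SgK`.
-/

set_option autoImplicit false

open MeasureTheory Set Filter Topology Pool.Agent.H25.Kin Pool.Agent.H48.PL Pool.Agent.H48.PD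
open Pool.Agent.H82.BK Pool.Agent.H82.CM Pool.Agent.H48.PR
open Pool.Agent.H82.HF (Dm Am fa GG HR Fam hr_cont hr_mono)
open Pool.Agent.H15.HF (sgE Jf)
open Pool.Agent.H15.HF.M (sg_intM sg_holM sg_kapM sg_lowM gam_ge)

namespace Pool.Agent.H82.HM

/-- the properties of the damping rate `S(κ,v)`, soft potentials -/
structure SgK {d : ℕ} (s α K c κ₀ : ℝ) (S : Vec d → Vec d → ℝ) : Prop where
  K0 : 0 ≤ K
  c0 : 0 < c
  k0 : 0 ≤ κ₀
  nn : ∀ κ v, 0 ≤ S κ v
  up : ∀ κ v, S κ v ≤ K * (1 + nsq v) * len κ ^ (2 * s)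
  low : ∀ κ v, κ₀ ≤ len κ → c * (1 + nsq v)⁻¹ * len κ ^ (2 * s) ≤ S κ v
  hol : ∀ κ v h, |S κ (v + h) - S κ v| ≤
    K * min 1 (len h) ^ α * (1 + nsq v + nsq (v + h)) * len κ ^ (2 * s)
  kap : ∀ κ κ' v, |S κ v - S κ' v| ≤ K * (1 + nsq v) * len (κ - κ') ^ (2 * s)

section

variable {d : ℕ} {s α K c κ₀ : ℝ} {S : Vec d → Vec d → ℝ}

theorem dam0 (hS : SgK s α K c κ₀ S) {δ t : ℝ} (hδ : 0 ≤ δ) (ht : 0 ≤ t) (k v : Vec d) :
    0 ≤ Dm S δ k t v :=
  mul_nonneg hδ (intervalIntegral.integral_nonneg ht fun _ _ => hS.nn _ _)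

private lemma SgK_cont1 (hs : 0 < s) (hS : SgK s α K c κ₀ S) (k v : Vec d) :
    Continuous fun r : ℝ => S ((2 * Real.pi * r) • k) v := by
  rw [continuous_iff_continuousAt]
  intro r
  have hs2 : 0 < 2 * s := by linarith
  have h1 : Continuous fun r' : ℝ => K * (1 + nsq v) *
      len ((2 * Real.pi * r') • k - (2 * Real.pi * r) • k) ^ (2 * s) := by
    refine continuous_const.mul ?_
    exact Continuous.rpow_const (continuous_len.comp (by fun_prop)) fun _ => Or.inr hs2.le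
  have h2 : Tendsto (fun r' : ℝ => K * (1 + nsq v) *
      len ((2 * Real.pi * r') • k - (2 * Real.pi * r) • k) ^ (2 * s)) (𝓝 r) (𝓝 0) := by
    have h3 := h1.tendsto r
    rw [sub_self, len_zero, Real.zero_rpow hs2.ne', mul_zero] at h3
    exact h3
  unfold ContinuousAt
  rw [tendsto_iff_dist_tendsto_zero]
  refine squeeze_zero (fun _ => dist_nonneg) (fun r' => ?_) h2
  rw [Real.dist_eq]
  exact hS.kap _ _ _

private lemma SgK_cont2 (hs : 0 < s) (hα : 0 < α) (hS : SgK s α K c κ₀ S) (k : Vec d) :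
    Continuous fun p : Vec d × ℝ => S ((2 * Real.pi * p.2) • k) p.1 := by
  rw [continuous_iff_continuousAt]
  rintro ⟨v, r⟩
  have hs2 : 0 < 2 * s := by linarith
  have h1 : Continuous fun p : Vec d × ℝ => K * min 1 (len (p.1 - v)) ^ α *
      (1 + nsq v + nsq p.1) * len ((2 * Real.pi * p.2) • k) ^ (2 * s) +
      K * (1 + nsq v) * len ((2 * Real.pi * p.2) • k - (2 * Real.pi * r) • k) ^ (2 * s) := by
    have a1 : Continuous fun p : Vec d × ℝ => min 1 (len (p.1 - v)) ^ α :=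
      Continuous.rpow_const (continuous_const.min (continuous_len.comp (by fun_prop)))
        fun _ => Or.inr hα.le
    have a2 : Continuous fun p : Vec d × ℝ => nsq p.1 := continuous_sq.comp continuous_fst
    have a3 : Continuous fun p : Vec d × ℝ => len ((2 * Real.pi * p.2) • k) ^ (2 * s) :=
      Continuous.rpow_const (continuous_len.comp (by fun_prop)) fun _ => Or.inr hs2.le
    have a4 : Continuous fun p : Vec d × ℝ =>
        len ((2 * Real.pi * p.2) • k - (2 * Real.pi * r) • k) ^ (2 * s) :=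
      Continuous.rpow_const (continuous_len.comp (by fun_prop)) fun _ => Or.inr hs2.le
    exact (((continuous_const.mul a1).mul (continuous_const.add a2)).mul a3).add
      (continuous_const.mul a4)
  have h2 : Tendsto (fun p : Vec d × ℝ => K * min 1 (len (p.1 - v)) ^ α *
      (1 + nsq v + nsq p.1) * len ((2 * Real.pi * p.2) • k) ^ (2 * s) +
      K * (1 + nsq v) * len ((2 * Real.pi * p.2) • k - (2 * Real.pi * r) • k) ^ (2 * s))
      (𝓝 (v, r)) (𝓝 0) := by
    have h3 := h1.tendsto (v, r)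
    simp only [sub_self, len_zero] at h3
    rw [min_eq_right zero_le_one, Real.zero_rpow hα.ne', Real.zero_rpow hs2.ne', mul_zero,
      zero_mul, zero_mul, mul_zero, add_zero] at h3
    exact h3
  unfold ContinuousAt
  rw [tendsto_iff_dist_tendsto_zero]
  refine squeeze_zero (fun _ => dist_nonneg) (fun p => ?_) h2
  rw [Real.dist_eq]
  have a1 := hS.hol ((2 * Real.pi * p.2) • k) v (p.1 - v)
  rw [add_sub_cancel] at a1
  have a2 := hS.kap ((2 * Real.pi * p.2) • k) ((2 * Real.pi * r) • k) v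
  exact (abs_sub_le _ (S ((2 * Real.pi * p.2) • k) v) _).trans (add_le_add a1 a2)

theorem dam3 (hs : 0 < s) (hα : 0 < α) (hS : SgK s α K c κ₀ S) (δ : ℝ) (k : Vec d) :
    Continuous fun p : ℝ × Vec d => Dm S δ k p.1 p.2 := by
  have h1 := SgK_cont2 hs hα hS k
  have h2 : Continuous fun p : Vec d × ℝ =>
      ∫ r in (0 : ℝ)..p.2, S ((2 * Real.pi * r) • k) p.1 :=
    intervalIntegral.continuous_parametric_primitive_of_continuous
      (f := fun (v : Vec d) (r : ℝ) => S ((2 * Real.pi * r) • k) v) h1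
  have h3 : Continuous fun p : ℝ × Vec d => ((p.2, p.1) : Vec d × ℝ) := by fun_prop
  exact continuous_const.mul (h2.comp h3)

theorem dam4 (hs : 0 < s) (hS : SgK s α K c κ₀ S) (δ : ℝ) (k v : Vec d) (t : ℝ) :
    HasDerivAt (fun r => Dm S δ k r v) (δ * S ((2 * Real.pi * t) • k) v) t := by
  have hg := SgK_cont1 hs hS k v
  exact (intervalIntegral.integral_hasDerivAt_right (hg.intervalIntegrable _ _)
    (hg.stronglyMeasurableAtFilter _ _) hg.continuousAt).const_mul δ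

private lemma SgK_dot (k : Vec d) : Continuous fun x : Vec d => dot k x := by
  unfold dot
  fun_prop

private lemma SgK_dot_smul (r : ℝ) (k v : Vec d) : dot (r • k) v = r * dot k v := by
  unfold dot
  rw [Finset.mul_sum]
  refine Finset.sum_congr rfl fun i _ => ?_
  simp only [Pi.smul_apply, smul_eq_mul]
  ring

private lemma SgK_dot_add (k x y : Vec d) : dot k (x + y) = dot k x + dot k y := by
  unfold dot
  rw [← Finset.sum_add_distrib]
  refine Finset.sum_congr rfl fun i _ => ?_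
  simp only [Pi.add_apply]
  ring

private lemma SgK_dot_smul' (r : ℝ) (k v : Vec d) : dot k (r • v) = r * dot k v := by
  unfold dot
  rw [Finset.mul_sum]
  refine Finset.sum_congr rfl fun i _ => ?_
  simp only [Pi.smul_apply, smul_eq_mul]
  ring

private lemma SgK_dot_single (k : Vec d) (i : Fin d) : dot k (Pi.single i 1) = k i := by
  unfold dot
  rw [Finset.sum_eq_single i]
  · simp
  · intro j _ hj
    rw [Pi.single_eq_of_ne hj]
    simp
  · intro h
    exact absurd (Finset.mem_univ i) h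

theorem fa_cont (hs : 0 < s) (hα : 0 < α) (hS : SgK s α K c κ₀ S) {q q' n : ℕ} {M MF : ℝ}
    {F : Vec d → ℝ} {a : Fin n → ℝ} {cc : Fin n → Vec d → ℝ} {k : Fin n → Vec d}
    (hF : HR α q MF F) (hc : Fam α q' M a cc k) (φ : Fin n → ℝ) (δ : ℝ) :
    Continuous fun p : ℝ × Vec d × Vec d => fa S δ F cc k φ p.1 p.2.1 p.2.2 := by
  have hFc : Continuous F := hr_cont hα hF
  have hcc : ∀ j, Continuous (cc j) := fun j => hr_cont hα (hc.hc j)
  unfold fa GG Am
  refine Continuous.add (hFc.comp continuous_snd.snd) ?_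
  refine continuous_finsetSum _ fun j _ => ?_
  refine Continuous.mul (Continuous.mul ((hcc j).comp continuous_snd.snd) ?_) ?_
  · refine Real.continuous_exp.comp (Continuous.neg ?_)
    exact (dam3 hs hα hS δ (k j)).comp (continuous_fst.prodMk continuous_snd.snd)
  · refine Real.continuous_cos.comp (Continuous.sub ?_ ?_)
    · exact ((continuous_const.mul ((SgK_dot (k j)).comp continuous_snd.fst)).add
        continuous_const)
    · simp only [SgK_dot_smul]
      exact (continuous_const.mul continuous_fst).mul ((SgK_dot (k j)).comp continuous_snd.snd)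

theorem fa_char (hs : 0 < s) (hS : SgK s α K c κ₀ S) (δ : ℝ) {n : ℕ} (F : Vec d → ℝ)
    (cc : Fin n → Vec d → ℝ) (k : Fin n → Vec d) (φ : Fin n → ℝ) (t₀ : ℝ) (x₀ v₀ : Vec d) :
    HasDerivAt (fun τ : ℝ => fa S δ F cc k φ (t₀ + τ) (x₀ + τ • v₀) v₀)
      (-(δ * ∑ j, S ((2 * Real.pi * t₀) • k j) v₀ * (Am S δ (cc j) (k j) t₀ v₀ *
        Real.cos (2 * Real.pi * dot (k j) x₀ + φ j - dot ((2 * Real.pi * t₀) • k j) v₀)))) 0 := by
  have e1 : (fun τ : ℝ => fa S δ F cc k φ (t₀ + τ) (x₀ + τ • v₀) v₀) =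
      fun τ : ℝ => F v₀ + ∑ j, cc j v₀ * Real.exp (-Dm S δ (k j) (t₀ + τ) v₀) *
        Real.cos (2 * Real.pi * dot (k j) x₀ + φ j - dot ((2 * Real.pi * t₀) • k j) v₀) := by
    funext τ
    unfold fa GG Am
    congr 1
    refine Finset.sum_congr rfl fun j _ => ?_
    congr 2
    simp only [SgK_dot_add, SgK_dot_smul', SgK_dot_smul]
    ring
  rw [e1]
  have e2 : ∀ j, HasDerivAt (fun τ : ℝ => cc j v₀ * Real.exp (-Dm S δ (k j) (t₀ + τ) v₀) *
      Real.cos (2 * Real.pi * dot (k j) x₀ + φ j - dot ((2 * Real.pi * t₀) • k j) v₀))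
      (cc j v₀ * (Real.exp (-Dm S δ (k j) t₀ v₀) *
        (-(δ * S ((2 * Real.pi * t₀) • k j) v₀))) *
      Real.cos (2 * Real.pi * dot (k j) x₀ + φ j - dot ((2 * Real.pi * t₀) • k j) v₀)) 0 := by
    intro j
    have h0 : HasDerivAt (fun τ : ℝ => Dm S δ (k j) (t₀ + τ) v₀)
        (δ * S ((2 * Real.pi * t₀) • k j) v₀) 0 := by
      have h00 : HasDerivAt (fun r => Dm S δ (k j) r v₀)
          (δ * S ((2 * Real.pi * t₀) • k j) v₀) (t₀ + 0) := by
        rw [add_zero]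
        exact dam4 hs hS δ (k j) v₀ t₀
      exact HasDerivAt.comp_const_add t₀ 0 h00
    have h1 := (h0.neg.exp.const_mul (cc j v₀)).mul_const
      (Real.cos (2 * Real.pi * dot (k j) x₀ + φ j - dot ((2 * Real.pi * t₀) • k j) v₀))
    simpa only [add_zero, Pi.neg_apply] using h1
  have h3 := (HasDerivAt.fun_sum fun j (_ : j ∈ Finset.univ) => e2 j).const_add (F v₀)
  refine h3.congr_deriv ?_
  rw [Finset.mul_sum, ← Finset.sum_neg_distrib]
  refine Finset.sum_congr rfl fun j _ => ?_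
  unfold Am
  ring

end

variable {d : ℕ} {γ s C Ca cb : ℝ} {b : ℝ → ℝ}

theorem sg_K (HL : HypL d γ s b C Ca cb) (hs : 2 * s < 1) {α : ℝ} (h1 : 0 < α)
    {q : ℕ} (hq : d + 10 ≤ q) (M : ℝ) {r₀ m₀ : ℝ} (hr : 0 < r₀) (hm : 0 < m₀) :
    ∃ K c κ₀ : ℝ, ∀ (F : Vec d → ℝ) (v₀ : Vec d), HR α q M F → (∀ u, 0 ≤ F u) →
      (∀ u, len (u - v₀) ≤ r₀ → m₀ ≤ F u) →
      SgK s α K c κ₀ (fun κ v => sgE γ b 0 F κ v) := by
  obtain ⟨K₁, hK₁, H₁⟩ := sg_intM HL.H hs hq
  obtain ⟨K₂, hK₂, H₂⟩ := sg_holM HL.H hs hq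
  obtain ⟨K₃, hK₃, H₃⟩ := sg_kapM HL.H hs hq
  obtain ⟨c, hc, N, H₄⟩ := sg_lowM HL hs hq hr hm (le_max_right M 0)
  refine ⟨(K₁ + K₂ + K₃) * max M 0, c, max N 0, fun F v₀ hF hF0 hb => ?_⟩
  have hM : 0 ≤ M := hF.nn
  rw [max_eq_left hM]
  have hFc : Continuous F := hr_cont h1 hF
  have hFm : Measurable F := hFc.measurable
  have hrp : ∀ κ : Vec d, 0 ≤ len κ ^ (2 * s) := fun κ => Real.rpow_nonneg (len_nonneg κ) _
  have hn : ∀ v : Vec d, 0 ≤ nsq v := sq_nonneg'
  have hKM₁ : 0 ≤ K₁ * M := mul_nonneg hK₁ hM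
  have hKM₂ : 0 ≤ K₂ * M := mul_nonneg hK₂ hM
  have hKM₃ : 0 ≤ K₃ * M := mul_nonneg hK₃ hM
  have hle₁ : K₁ * M ≤ (K₁ + K₂ + K₃) * M := by nlinarith
  have hle₂ : K₂ * M ≤ (K₁ + K₂ + K₃) * M := by nlinarith
  have hle₃ : K₃ * M ≤ (K₁ + K₂ + K₃) * M := by nlinarith
  refine ⟨by nlinarith, hc, le_max_right _ _, fun κ v => Pool.Agent.H15.HF.M.sg_nonneg γ b 0 hF0 κ v,
    fun κ v => ?_, fun κ v hκ => ?_, fun κ v h => ?_, fun κ κ' v => ?_⟩
  · calc sgE γ b 0 F κ v ≤ |sgE γ b 0 F κ v| := le_abs_self _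
      _ ≤ K₁ * M * len κ ^ (2 * s) * (1 + nsq v) := (H₁ 0 le_rfl F M hFm hM hF.le κ v).2
      _ = K₁ * M * ((1 + nsq v) * len κ ^ (2 * s)) := by ring
      _ ≤ (K₁ + K₂ + K₃) * M * ((1 + nsq v) * len κ ^ (2 * s)) :=
          mul_le_mul_of_nonneg_right hle₁ (mul_nonneg (by linarith [hn v]) (hrp κ))
      _ = _ := by ring
  · exact H₄ F v₀ hFc hF0 (fun u => (le_abs_self _).trans ((hF.le u).trans
      (mul_le_mul_of_nonneg_right (le_max_left M 0) (Wp_pos q u).le))) hb κ v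
      ((le_max_left _ _).trans hκ)
  · calc |sgE γ b 0 F κ (v + h) - sgE γ b 0 F κ v|
        ≤ K₂ * M * min 1 (len h) ^ α * len κ ^ (2 * s) * (1 + nsq v + nsq (v + h)) :=
          H₂ 0 le_rfl α M F h1 hF κ v h
      _ = K₂ * M * (min 1 (len h) ^ α * (1 + nsq v + nsq (v + h)) * len κ ^ (2 * s)) := by ring
      _ ≤ (K₁ + K₂ + K₃) * M *
            (min 1 (len h) ^ α * (1 + nsq v + nsq (v + h)) * len κ ^ (2 * s)) :=
          mul_le_mul_of_nonneg_right hle₂ (mul_nonneg (mul_nonneg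
            (Real.rpow_nonneg (le_min zero_le_one (len_nonneg h)) α)
            (by linarith [hn v, hn (v + h)])) (hrp κ))
      _ = _ := by ring
  · calc |sgE γ b 0 F κ v - sgE γ b 0 F κ' v|
        ≤ K₃ * M * len (κ - κ') ^ (2 * s) * (1 + nsq v) :=
          H₃ 0 le_rfl F M hFm hM hF.le κ κ' v
      _ = K₃ * M * ((1 + nsq v) * len (κ - κ') ^ (2 * s)) := by ring
      _ ≤ (K₁ + K₂ + K₃) * M * ((1 + nsq v) * len (κ - κ') ^ (2 * s)) :=
          mul_le_mul_of_nonneg_right hle₃ (mul_nonneg (by linarith [hn v]) (hrp _))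
      _ = _ := by ring

end Pool.Agent.H82.HM
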