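import Pool.Agent.H82.HW.ContW
import Pool.Agent.H82.HM.SgK

/-!
# Block M (MP_c15324_an), soft potentials, module FootM: the damping rate at the foot and the approximate solution

As HW/Foot, HW/FootS, HW/ContW with `SgK`, for `0 ≤ γ + 2s ≤ 2`.
-/

set_option autoImplicit false

open MeasureTheory Set Filter Topology Pool.Agent.H25.Kin Pool.Agent.H48.PL Pool.Agent.H48.PD
open Pool.Agent.H82.BK Pool.Agent.H82.CM Pool.Agent.H48.PR
open Pool.Agent.H82.HF (HR hr_cont hr_mono Fam fa GG Am Dm CG fa_zero)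
open Pool.Agent.H15.HF (sgE Jf)
open Pool.Agent.H15.HF.M (sg_intM)
open Pool.Agent.H82.HW (HRy FamY ft sgF foot_min foot_lip foot_len ft_hr hry_cont low_ball fw)

namespace Pool.Agent.H82.HM

variable {d : ℕ} {γ s C Ca cb : ℝ} {b : ℝ → ℝ}

/-- the damping rate is linear -/
private lemma FootM_lin (H : Hyp d γ s b C Ca) (hs : 2 * s < 1) {q : ℕ}
    (hq : d + 10 ≤ q) {F G : Vec d → ℝ} (hF : Measurable F) (hG : Measurable G) {A B : ℝ}
    (hA : 0 ≤ A) (hB : 0 ≤ B) (h1 : ∀ u, |F u| ≤ A * Wp q u) (h2 : ∀ u, |G u| ≤ B * Wp q u)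
    (κ v : Vec d) : sgE γ b 0 F κ v - sgE γ b 0 G κ v = sgE γ b 0 (fun u => F u - G u) κ v := by
  obtain ⟨K, hK, hi⟩ := sg_intM H hs hq
  have i1 := (hi 0 le_rfl F A hF hA h1 κ v).1
  have i2 := (hi 0 le_rfl G B hG hB h2 κ v).1
  unfold sgE
  rw [← integral_sub i1 i2]
  refine integral_congr_ae (Eventually.of_forall fun m => ?_)
  show len m ^ γ * (F (v - m) * Jf γ b 0 κ m) - len m ^ γ * (G (v - m) * Jf γ b 0 κ m) =
    len m ^ γ * ((F (v - m) - G (v - m)) * Jf γ b 0 κ m)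
  ring

/-- change of the damping rate with the slow variable -/
theorem sgE_lipM (H : Hyp d γ s b C Ca) (hs : 2 * s < 1) {q : ℕ} (hq : d + 10 ≤ q) :
    ∃ K : ℝ, 0 ≤ K ∧ ∀ (α C : ℝ) (F : Vec d → Vec d → ℝ), 0 < α → HRy α q C F →
      ∀ y y' κ v : Vec d, |sgE γ b 0 (F y) κ v - sgE γ b 0 (F y') κ v| ≤
        K * (C * min 2 (len (y - y'))) * len κ ^ (2 * s) * (1 + nsq v) := by
  obtain ⟨K, hK, hi⟩ := sg_intM H hs hq
  refine ⟨K, hK, fun α C F hα hF y y' κ v => ?_⟩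
  have m1 := (hr_cont hα (hF.hr y)).measurable
  have m2 := (hr_cont hα (hF.hr y')).measurable
  have hC := (hF.hr y).nn
  rw [FootM_lin H hs hq m1 m2 hC hC (hF.hr y).le (hF.hr y').le κ v]
  exact (hi 0 le_rfl (fun u => F y u - F y' u) (C * min 2 (len (y - y'))) (m1.sub m2)
    (mul_nonneg hC (le_min (by norm_num) (len_nonneg _))) (fun u => foot_lip hF y y' u) κ v).2

/-- the difference between the rate of the slice function and the rate frozen at the foot -/
theorem sg_diffM (H : Hyp d γ s b C Ca) (hs : 2 * s < 1) {q : ℕ} (hq : d + 11 ≤ q) :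
    ∃ K : ℝ, 0 ≤ K ∧ ∀ (α C : ℝ) (F : Vec d → Vec d → ℝ), 0 < α → α ≤ 1 → HRy α q C F →
      ∀ (t : ℝ) (x κ v : Vec d), 0 ≤ t → t ≤ 1 →
        |sgE γ b 0 (ft t x F) κ v - sgF γ b t x F κ v| ≤
          K * C * t * (1 + nsq v) ^ 2 * len κ ^ (2 * s) := by
  obtain ⟨K, hK, hi⟩ := sg_intM H hs (q := q - 1) (by omega)
  refine ⟨2 * K, by positivity, fun α C F hα hα1 hF t x κ v ht ht1 => ?_⟩
  have hC := (hF.hr x).nn
  have hr := ft_hr hα hα1 hF ht ht1 x
  have m1 := (hr_cont hα hr).measurable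
  have m2 := (hr_cont hα (hF.hr (x - t • v))).measurable
  have hq' : d + 10 ≤ q := by omega
  unfold sgF
  rw [FootM_lin H hs hq' m1 m2 hr.nn hC hr.le (hF.hr (x - t • v)).le κ v]
  have hb : ∀ u, |ft t x F u - F (x - t • v) u| ≤ (2 * C * t * (1 + nsq v)) * Wp (q - 1) u := by
    intro u
    have h3 : |ft t x F u - F (x - t • v) u| ≤ C * len ((x - t • u) - (x - t • v)) * Wp q u :=
      hF.lip (x - t • u) (x - t • v) u
    have h4 : len ((x - t • u) - (x - t • v)) = t * len (v - u) := by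
      have e : (x - t • u) - (x - t • v) = t • (v - u) := by
        rw [smul_sub]
        abel
      rw [e, len_smul ht]
    have h5 : len (v - u) ≤ 2 * (1 + nsq v) * (1 + nsq u) := by
      have h6 : nsq (v - u) ≤ 2 * nsq v + 2 * nsq u := by
        have h7 := nsq_par v u
        have h8 := sq_nonneg' (v + u)
        linarith
      have n1 := sq_nonneg' v
      have n2 := sq_nonneg' u
      have h9 : len (v - u) ≤ (1 + len (v - u) ^ 2) / 2 := by nlinarith [sq_nonneg (len (v - u) - 1)]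
      rw [len_sq] at h9
      nlinarith [mul_nonneg n1 n2]
    rw [h4] at h3
    have hW : Wp q u * (1 + nsq u) = Wp (q - 1) u := by
      have h6 := sq_nonneg' u
      have h7 : 1 + nsq u ≠ 0 := by positivity
      obtain ⟨q', rfl⟩ : ∃ q', q = q' + 1 := ⟨q - 1, by omega⟩
      unfold Wp
      rw [Nat.add_sub_cancel, pow_succ, mul_inv, inv_mul_cancel_right₀ h7]
    have hWq := Wp_pos q u
    calc |ft t x F u - F (x - t • v) u| ≤ C * (t * len (v - u)) * Wp q u := h3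
      _ ≤ C * (t * (2 * (1 + nsq v) * (1 + nsq u))) * Wp q u := by gcongr
      _ = (2 * C * t * (1 + nsq v)) * (Wp q u * (1 + nsq u)) := by ring
      _ = _ := by rw [hW]
  have n1 := sq_nonneg' v
  have h6 := (hi 0 le_rfl (fun u => ft t x F u - F (x - t • v) u) (2 * C * t * (1 + nsq v))
    (m1.sub m2) (by positivity) hb κ v).2
  refine h6.trans (le_of_eq ?_)
  ring

theorem sgF_K (HL : HypL d γ s b C Ca cb) (hs : 2 * s < 1) {α : ℝ} (hα : 0 < α)
    (hα1 : α ≤ 1) {q : ℕ} (hq : d + 10 ≤ q) {M : ℝ} {F : Vec d → Vec d → ℝ} (hF : HRy α q M F)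
    (hF0 : ∀ y v, 0 ≤ F y v) (hFm : ∀ y, 0 < ∫ v, F y v) :
    ∃ K c κ₀ : ℝ, (∀ y, SgK s α K c κ₀ (fun κ v => sgE γ b 0 (F y) κ v)) ∧
      ∀ t, 0 ≤ t → t ≤ 1 → ∀ x, SgK s α K c κ₀ (sgF γ b t x F) := by
  obtain ⟨r₀, hr, m₀, hm, hball⟩ := low_ball hα hF hF0 hFm
  obtain ⟨K, c, κ₀, hK⟩ := sg_K HL hs hα hq M hr hm
  obtain ⟨Ki, hKi, hlip⟩ := sgE_lipM HL.H hs hq
  have hy : ∀ y, SgK s α K c κ₀ (fun κ v => sgE γ b 0 (F y) κ v) := fun y => by
    obtain ⟨v₁, hv⟩ := hball y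
    exact hK (F y) v₁ (hF.hr y) (hF0 y) hv
  have hM := (hF.hr 0).nn
  have hK0 := (hy 0).K0
  have hx0 : 0 ≤ 2 * Ki * M := by positivity
  have hl : ∀ κ : Vec d, 0 ≤ len κ ^ (2 * s) := fun κ => Real.rpow_nonneg (len_nonneg κ) _
  have hy' : ∀ y, SgK s α (K + 2 * Ki * M) c κ₀ (fun κ v => sgE γ b 0 (F y) κ v) := fun y => by
    have h := hy y
    refine ⟨by linarith, h.c0, h.k0, h.nn, fun κ v => (h.up κ v).trans ?_, h.low,
      fun κ v z => (h.hol κ v z).trans ?_, fun κ κ' v => (h.kap κ κ' v).trans ?_⟩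
    · have n1 := sq_nonneg' v
      have := hl κ
      gcongr
      linarith
    · have n1 := sq_nonneg' v
      have n2 := sq_nonneg' (v + z)
      have := hl κ
      have hm0 : 0 ≤ min 1 (len z) ^ α := Real.rpow_nonneg (le_min zero_le_one (len_nonneg z)) α
      gcongr
      linarith
    · have n1 := sq_nonneg' v
      have := hl (κ - κ')
      gcongr
      linarith
  refine ⟨K + 2 * Ki * M, c, κ₀, hy', fun t ht ht1 x => ?_⟩
  refine ⟨(hy' 0).K0, (hy' 0).c0, (hy' 0).k0, fun κ v => (hy' (x - t • v)).nn κ v,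
    fun κ v => (hy' (x - t • v)).up κ v, fun κ v h => (hy' (x - t • v)).low κ v h,
    fun κ v h => ?_, fun κ κ' v => (hy' (x - t • v)).kap κ κ' v⟩
  have h1 := (hy (x - t • (v + h))).hol κ v h
  have h2 := hlip α M F hα hF (x - t • (v + h)) (x - t • v) κ v
  rw [foot_len ht] at h2
  have h3 := foot_min hα hα1 ht1 (len_nonneg h)
  have n1 := sq_nonneg' v
  have n2 := sq_nonneg' (v + h)
  have hm0 : 0 ≤ min 1 (len h) ^ α := Real.rpow_nonneg (le_min zero_le_one (len_nonneg h)) α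
  have hl' := hl κ
  have e : sgF γ b t x F κ (v + h) - sgF γ b t x F κ v =
      (sgE γ b 0 (F (x - t • (v + h))) κ (v + h) - sgE γ b 0 (F (x - t • (v + h))) κ v) +
      (sgE γ b 0 (F (x - t • (v + h))) κ v - sgE γ b 0 (F (x - t • v)) κ v) := by
    unfold sgF
    ring
  rw [e]
  refine (abs_add_le _ _).trans ((add_le_add h1 h2).trans ?_)
  have h4 : Ki * (M * min 2 (t * len h)) * len κ ^ (2 * s) * (1 + nsq v) ≤
      Ki * (M * (2 * min 1 (len h) ^ α)) * len κ ^ (2 * s) * (1 + nsq v) := by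
    have : 0 ≤ Ki * M := by positivity
    gcongr
  refine (add_le_add_right h4 _).trans ?_
  have h5 : 0 ≤ 2 * Ki * M * (min 1 (len h) ^ α * nsq (v + h) * len κ ^ (2 * s)) := by positivity
  calc K * min 1 (len h) ^ α * (1 + nsq v + nsq (v + h)) * len κ ^ (2 * s) +
        Ki * (M * (2 * min 1 (len h) ^ α)) * len κ ^ (2 * s) * (1 + nsq v) ≤
      K * min 1 (len h) ^ α * (1 + nsq v + nsq (v + h)) * len κ ^ (2 * s) +
        Ki * (M * (2 * min 1 (len h) ^ α)) * len κ ^ (2 * s) * (1 + nsq v) +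
        2 * Ki * M * (min 1 (len h) ^ α * nsq (v + h) * len κ ^ (2 * s)) := by linarith
    _ = _ := by ring

private lemma FootM_dot (k : Vec d) : Continuous fun x : Vec d => dot k x := by
  unfold dot
  fun_prop

private lemma FootM_dot_smul (r : ℝ) (k v : Vec d) : dot (r • k) v = r * dot k v := by
  unfold dot
  rw [Finset.mul_sum]
  refine Finset.sum_congr rfl fun i _ => ?_
  simp only [Pi.smul_apply, smul_eq_mul]
  ring

/-- joint continuity of the damping rate -/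
private lemma FootM_S (H : Hyp d γ s b C Ca) (hs : 2 * s < 1) {α : ℝ} (hα : 0 < α)
    {q : ℕ} (hq : d + 10 ≤ q) {M : ℝ} {F : Vec d → Vec d → ℝ} (hF : HRy α q M F) {K c κ₀ : ℝ}
    (hS : ∀ y, SgK s α K c κ₀ (fun κ v => sgE γ b 0 (F y) κ v)) (k : Vec d) :
    Continuous fun p : (Vec d × Vec d) × ℝ =>
      sgE γ b 0 (F p.1.1) ((2 * Real.pi * p.2) • k) p.1.2 := by
  have hs0 : 0 < s := H.hs
  have hs2 : 0 < 2 * s := by linarith
  obtain ⟨Ki, hKi, hlip⟩ := sgE_lipM H hs hq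
  have hM := (hF.hr 0).nn
  rw [continuous_iff_continuousAt]
  rintro ⟨⟨y, v⟩, r⟩
  have h1 : Continuous fun p : (Vec d × Vec d) × ℝ => K * (1 + nsq p.1.2) *
      len ((2 * Real.pi * p.2) • k - (2 * Real.pi * r) • k) ^ (2 * s) +
      K * min 1 (len (p.1.2 - v)) ^ α *
      (1 + nsq v + nsq p.1.2) * len ((2 * Real.pi * r) • k) ^ (2 * s) +
      Ki * (M * min 2 (len (p.1.1 - y))) * len ((2 * Real.pi * r) • k) ^ (2 * s) *
        (1 + nsq v) := by
    have a1 : Continuous fun p : (Vec d × Vec d) × ℝ => min 1 (len (p.1.2 - v)) ^ α :=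
      Continuous.rpow_const (continuous_const.min (continuous_len.comp (by fun_prop)))
        fun _ => Or.inr hα.le
    have a2 : Continuous fun p : (Vec d × Vec d) × ℝ => nsq p.1.2 :=
      continuous_sq.comp (by fun_prop)
    have a4 : Continuous fun p : (Vec d × Vec d) × ℝ =>
        len ((2 * Real.pi * p.2) • k - (2 * Real.pi * r) • k) ^ (2 * s) :=
      Continuous.rpow_const (continuous_len.comp (by fun_prop)) fun _ => Or.inr hs2.le
    have a5 : Continuous fun p : (Vec d × Vec d) × ℝ => min 2 (len (p.1.1 - y)) :=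
      continuous_const.min (continuous_len.comp (by fun_prop))
    exact (((continuous_const.mul (continuous_const.add a2)).mul a4).add
      (((continuous_const.mul a1).mul (continuous_const.add a2)).mul continuous_const)).add
      (((continuous_const.mul (continuous_const.mul a5)).mul continuous_const).mul
        continuous_const)
  have h2 := h1.tendsto ((y, v), r)
  simp only [sub_self, len_zero, Real.zero_rpow hs2.ne', Real.zero_rpow hα.ne', mul_zero,
    add_zero, zero_mul, min_eq_right (zero_le_one (α := ℝ)),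
    min_eq_right (show (0 : ℝ) ≤ 2 by norm_num)] at h2
  unfold ContinuousAt
  rw [tendsto_iff_norm_sub_tendsto_zero]
  refine squeeze_zero (fun _ => norm_nonneg _) (fun p => ?_) h2
  rw [Real.norm_eq_abs]
  obtain ⟨⟨y', v'⟩, r'⟩ := p
  have b1 := (hS y').kap ((2 * Real.pi * r') • k) ((2 * Real.pi * r) • k) v'
  have b2 := (hS y').hol ((2 * Real.pi * r) • k) v (v' - v)
  rw [add_sub_cancel] at b2
  have b3 := hlip α M F hα hF y' y ((2 * Real.pi * r) • k) v
  have e : sgE γ b 0 (F y') ((2 * Real.pi * r') • k) v' - sgE γ b 0 (F y) ((2 * Real.pi * r) • k) v =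
      (sgE γ b 0 (F y') ((2 * Real.pi * r') • k) v' - sgE γ b 0 (F y') ((2 * Real.pi * r) • k) v') +
      (sgE γ b 0 (F y') ((2 * Real.pi * r) • k) v' - sgE γ b 0 (F y') ((2 * Real.pi * r) • k) v) +
      (sgE γ b 0 (F y') ((2 * Real.pi * r) • k) v - sgE γ b 0 (F y) ((2 * Real.pi * r) • k) v) := by
    ring
  show |sgE γ b 0 (F y') ((2 * Real.pi * r') • k) v' -
    sgE γ b 0 (F y) ((2 * Real.pi * r) • k) v| ≤ _
  rw [e]
  exact (abs_add_three _ _ _).trans (add_le_add (add_le_add b1 b2) b3)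

theorem fw_contM (H : Hyp d γ s b C Ca) (hs : 2 * s < 1) {α : ℝ} (hα : 0 < α)
    {q : ℕ} (hq : d + 10 ≤ q) {M MF : ℝ} {F : Vec d → Vec d → ℝ} (hF : HRy α q MF F) {K c κ₀ : ℝ}
    (hS : ∀ y, SgK s α K c κ₀ (fun κ v => sgE γ b 0 (F y) κ v)) {n : ℕ} {a : Fin n → ℝ}
    {cc : Fin n → Vec d → Vec d → ℝ} {k : Fin n → Vec d} (hc : FamY α q M a cc k)
    (φ : Fin n → ℝ) (N : ℝ) :
    Continuous fun p : ℝ × Vec d × Vec d => fw γ b N F cc k φ p.1 p.2.1 p.2.2 := by
  have hft : Continuous fun p : ℝ × Vec d × Vec d => ((p.2.1 - p.1 • p.2.2, p.2.2) : Vec d × Vec d) := by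
    fun_prop
  unfold fw fa GG Am Dm ft sgF
  refine Continuous.add ((hry_cont hα hF).comp hft) ?_
  refine continuous_finsetSum _ fun j _ => ?_
  refine Continuous.mul (Continuous.mul ((hry_cont hα (hc.hc j)).comp hft) ?_) ?_
  · refine Real.continuous_exp.comp (Continuous.neg (continuous_const.mul ?_))
    have h1 := FootM_S H hs hα hq hF hS (k j)
    have h2 : Continuous fun p : (Vec d × Vec d) × ℝ =>
        ∫ r in (0 : ℝ)..p.2, sgE γ b 0 (F p.1.1) ((2 * Real.pi * r) • k j) p.1.2 :=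
      intervalIntegral.continuous_parametric_primitive_of_continuous
        (f := fun (p : Vec d × Vec d) (r : ℝ) =>
          sgE γ b 0 (F p.1) ((2 * Real.pi * r) • k j) p.2) h1
    have h3 : Continuous fun p : ℝ × Vec d × Vec d =>
        (((p.2.1 - p.1 • p.2.2, p.2.2), N * p.1) : (Vec d × Vec d) × ℝ) := by fun_prop
    exact h2.comp h3
  · refine Real.continuous_cos.comp (Continuous.sub ?_ ?_)
    · exact ((continuous_const.mul ((FootM_dot (k j)).comp (by fun_prop))).add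
        continuous_const)
    · simp only [FootM_dot_smul]
      exact (continuous_const.mul (continuous_const.mul continuous_fst)).mul
        ((FootM_dot (k j)).comp continuous_snd.snd)

theorem fw_charM (hs : 0 < s) {α : ℝ} {F : Vec d → Vec d → ℝ} {K c κ₀ : ℝ}
    (hS : ∀ y, SgK s α K c κ₀ (fun κ v => sgE γ b 0 (F y) κ v)) {N : ℝ} (hN : 0 < N) {n : ℕ}
    (cc : Fin n → Vec d → Vec d → ℝ) (k : Fin n → Vec d) (φ : Fin n → ℝ) (t₀ : ℝ)
    (x₀ v₀ : Vec d) :
    HasDerivAt (fun τ : ℝ => fw γ b N F cc k φ (t₀ + τ) (x₀ + τ • v₀) v₀)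
      (-(∑ j, sgF γ b t₀ x₀ F ((2 * Real.pi * (N * t₀)) • k j) v₀ *
        (Am (sgF γ b t₀ x₀ F) N⁻¹ (ft t₀ x₀ (cc j)) (k j) (N * t₀) v₀ *
        Real.cos (2 * Real.pi * dot (k j) (N • x₀) + φ j -
          dot ((2 * Real.pi * (N * t₀)) • k j) v₀)))) 0 := by
  have h1 := Pool.Agent.H82.HM.fa_char (α := α) (K := K) (c := c) (κ₀ := κ₀) hs (hS (x₀ - t₀ • v₀)) N⁻¹
    (F (x₀ - t₀ • v₀)) (fun j => cc j (x₀ - t₀ • v₀)) k φ (N * t₀) (N • x₀) v₀
  have e1 : (fun τ : ℝ => fw γ b N F cc k φ (t₀ + τ) (x₀ + τ • v₀) v₀) =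
      fun τ : ℝ => fa (fun κ v => sgE γ b 0 (F (x₀ - t₀ • v₀)) κ v) N⁻¹ (F (x₀ - t₀ • v₀))
        (fun j => cc j (x₀ - t₀ • v₀)) k φ (N * t₀ + N * τ) (N • x₀ + (N * τ) • v₀) v₀ := by
    funext τ
    have hf : x₀ + τ • v₀ - (t₀ + τ) • v₀ = x₀ - t₀ • v₀ := by
      rw [add_smul]
      abel
    unfold fw fa GG Am Dm ft sgF
    beta_reduce
    rw [hf, mul_add, smul_add, smul_smul]
  rw [e1]
  have h2 : HasDerivAt (fun τ : ℝ => N * τ) N 0 := by
    have := (hasDerivAt_id (0 : ℝ)).const_mul N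
    rwa [mul_one] at this
  have h3 : HasDerivAt (fun τ : ℝ => fa (fun κ v => sgE γ b 0 (F (x₀ - t₀ • v₀)) κ v) N⁻¹
      (F (x₀ - t₀ • v₀)) (fun j => cc j (x₀ - t₀ • v₀)) k φ (N * t₀ + τ) (N • x₀ + τ • v₀) v₀)
      (-(N⁻¹ * ∑ j, sgE γ b 0 (F (x₀ - t₀ • v₀)) ((2 * Real.pi * (N * t₀)) • k j) v₀ *
        (Am (fun κ v => sgE γ b 0 (F (x₀ - t₀ • v₀)) κ v) N⁻¹ (cc j (x₀ - t₀ • v₀)) (k j)
          (N * t₀) v₀ * Real.cos (2 * Real.pi * dot (k j) (N • x₀) + φ j -
            dot ((2 * Real.pi * (N * t₀)) • k j) v₀)))) (N * 0) := by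
    rw [mul_zero]
    exact h1
  have h4 := HasDerivAt.comp (0 : ℝ) h3 h2
  refine h4.congr_deriv ?_
  have hN' : N⁻¹ * N = 1 := inv_mul_cancel₀ hN.ne'
  unfold sgF ft Am Dm
  rw [neg_mul, mul_right_comm, hN', one_mul]

end Pool.Agent.H82.HM
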