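import Pool.Agent.H82.HM.Pre

/-!
# Block M (MP_c15324_an): the bound of `∫ (1 - qf) dNm` for `-1 ≤ γ` (copy of `upp_q`, H15/HF/Upp)
-/

set_option autoImplicit false

open MeasureTheory Set Filter Topology Pool.Agent.H25.Kin Pool.Agent.H48.PL Pool.Agent.H48.PD
open Pool.Agent.H82.BK Pool.Agent.H82.CM Pool.Agent.H48.PR Pool.Agent.H82.HF
open scoped ENNReal

namespace Pool.Agent.H15.HF.M

variable {d : ℕ} {γ s C Ca cb : ℝ} {b : ℝ → ℝ}

private lemma UppM_kn (H : Hyp d γ s b C Ca) (ε : ℝ) {c : ℝ} (hc : 0 < c) (hc1 : c < 1) :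
    Kn d γ (bt b ε) c ≤
      2 ^ (d - 1) * 4 * (2 * C) * (1 - c) ^ (-(((d : ℝ) - 1) / 2 + s)) := by
  have hC0 : 0 ≤ C := H.bd.1
  have hβ := H.β0
  have hp : 0 ≤ (1 - c) ^ (-(((d : ℝ) - 1) / 2 + s)) := Real.rpow_nonneg (by linarith) _
  unfold Kn
  rcases lt_or_ge (2 * c ^ 2 - 1) 0 with hx | hx
  · rw [bt_neg hx, mul_zero]
    positivity
  · have h1 := bt_le (ε := ε) H.bd hβ hx (by nlinarith)
    have h2 : (1 - (2 * c ^ 2 - 1)) ^ (-(((d : ℝ) - 1) / 2 + s)) ≤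
        (1 - c) ^ (-(((d : ℝ) - 1) / 2 + s)) :=
      Real.rpow_le_rpow_of_nonpos (by linarith) (by nlinarith) (by linarith)
    have h3 : c ^ (-2 - γ) ≤ 4 := by
      have hg := H.g2
      have e1 : c ^ (-2 - γ) ≤ c ^ (-4 : ℝ) :=
        Real.rpow_le_rpow_of_exponent_ge hc hc1.le (by linarith)
      have e2 : c ^ (-4 : ℝ) = (c ^ 4)⁻¹ := by
        rw [Real.rpow_neg hc.le, show (4 : ℝ) = ((4 : ℕ) : ℝ) by norm_num, Real.rpow_natCast]
      rw [e2] at e1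
      refine e1.trans ?_
      have hc2 : 1 / 2 ≤ c ^ 2 := by linarith
      have hc4 : 1 / 4 ≤ c ^ 4 := by nlinarith
      calc (c ^ 4)⁻¹ ≤ (1 / 4 : ℝ)⁻¹ := inv_anti₀ (by norm_num) hc4
        _ = 4 := by norm_num
    have h4 : 0 ≤ c ^ (-2 - γ) := Real.rpow_nonneg hc.le _
    have h5 : bt b ε (2 * c ^ 2 - 1) ≤ 2 * C * (1 - c) ^ (-(((d : ℝ) - 1) / 2 + s)) :=
      h1.trans (mul_le_mul_of_nonneg_left h2 (by positivity))
    calc 2 ^ (d - 1) * c ^ (-2 - γ) * bt b ε (2 * c ^ 2 - 1)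
        ≤ 2 ^ (d - 1) * c ^ (-2 - γ) * (2 * C * (1 - c) ^ (-(((d : ℝ) - 1) / 2 + s))) :=
          mul_le_mul_of_nonneg_left h5 (by positivity)
      _ ≤ 2 ^ (d - 1) * 4 * (2 * C * (1 - c) ^ (-(((d : ℝ) - 1) / 2 + s))) :=
          mul_le_mul_of_nonneg_right (mul_le_mul_of_nonneg_left h3 (by positivity))
            (by positivity)
      _ = _ := by ring

private lemma UppM_kn_zero {ε c : ℝ} (h : 2 * c ^ 2 - 1 < 0) : Kn d γ (bt b ε) c = 0 := by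
  unfold Kn
  rw [bt_neg h, mul_zero]

/-- the majorant -/
private noncomputable def UppM_G (s τ ρ : ℝ) (m : Vec d) (σ : Vec d) : ℝ :=
  (1 - dot (dir m) σ) ^ (-(((d : ℝ) - 1) / 2 + s)) *
    min (ρ ^ 2 * (1 - dot (dir m) σ)) 1 ^ τ

private lemma UppM_G_meas (s τ ρ : ℝ) (m : Vec d) :
    Measurable fun σ : Vec d => ENNReal.ofReal (UppM_G s τ ρ m σ) := by
  have h0 : Measurable fun σ : Vec d => 1 - dot (dir m) σ :=
    (continuous_const.sub (dot_cont _)).measurable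
  exact ((h0.pow_const _).mul
    (((measurable_const.mul h0).min measurable_const).pow_const _)).ennreal_ofReal

private lemma UppM_lint (H : Hyp d γ s b C Ca) {ε : ℝ} {m : Vec d} {F : Vec d → ℝ}
    (hF : Measurable F) (hF0 : ∀ h, 0 ≤ F h) {M A ρ τ : ℝ} (hM : 0 ≤ M)
    (hA : ∫⁻ σ, ENNReal.ofReal (UppM_G s τ ρ m σ) ∂(surf d) ≤ ENNReal.ofReal (A * ρ ^ (2 * s)))
    (hpt : ∀ σ, nsq σ = 1 → 0 < dot m σ →
      Kn d γ (bt b ε) (co m σ) * F (hh σ m) ≤ M * UppM_G s τ ρ m σ) :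
    ∫⁻ h, ENNReal.ofReal (F h) ∂(Nm γ b ε m) ≤ ENNReal.ofReal (M * (A * ρ ^ (2 * s))) := by
  rw [lint_Nm H.bm γ ε m hF.ennreal_ofReal]
  calc ∫⁻ σ in {σ : Vec d | 0 < dot m σ},
        ENNReal.ofReal (Kn d γ (bt b ε) (co m σ)) * ENNReal.ofReal (F (hh σ m)) ∂(surf d)
      ≤ ∫⁻ σ in {σ : Vec d | 0 < dot m σ}, ENNReal.ofReal M *
          ENNReal.ofReal (UppM_G s τ ρ m σ) ∂(surf d) := by
        refine lintegral_mono_ae ?_
        filter_upwards [ae_restrict_of_ae surf_ae, ae_restrict_mem (measurableSet_half m)]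
          with σ hσ hd
        rw [← ENNReal.ofReal_mul hM, ← ENNReal.ofReal_mul' (hF0 _)]
        exact ENNReal.ofReal_le_ofReal (hpt σ hσ hd)
    _ ≤ ∫⁻ σ, ENNReal.ofReal M * ENNReal.ofReal (UppM_G s τ ρ m σ) ∂(surf d) :=
        setLIntegral_le_lintegral _ _
    _ ≤ ENNReal.ofReal M * ENNReal.ofReal (A * ρ ^ (2 * s)) := by
        rw [lintegral_const_mul _ (UppM_G_meas s τ ρ m)]
        exact mul_le_mul_right hA _
    _ = _ := by rw [← ENNReal.ofReal_mul hM]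

private lemma UppM_fin {μ : Measure (Vec d)} {φ F : Vec d → ℝ} (hφ : Measurable φ)
    (hF : Measurable F) (hF0 : ∀ h, 0 ≤ F h) (hle : ∀ h, |φ h| ≤ F h) {B : ℝ} (hB : 0 ≤ B)
    (hl : ∫⁻ h, ENNReal.ofReal (F h) ∂μ ≤ ENNReal.ofReal B) :
    Integrable φ μ ∧ |∫ h, φ h ∂μ| ≤ B := by
  have hFi : Integrable F μ := by
    refine ⟨hF.aestronglyMeasurable, ?_⟩
    rw [hasFiniteIntegral_iff_ofReal (Filter.Eventually.of_forall hF0)]
    exact lt_of_le_of_lt hl ENNReal.ofReal_lt_top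
  have hφi : Integrable φ μ := hFi.mono' hφ.aestronglyMeasurable (ae_of_all _ fun h => by
    rw [Real.norm_eq_abs]
    exact hle h)
  refine ⟨hφi, ?_⟩
  calc |∫ h, φ h ∂μ| ≤ ∫ h, |φ h| ∂μ := abs_integral_le_integral_abs
    _ ≤ ∫ h, F h ∂μ := integral_mono hφi.abs hFi hle
    _ = (∫⁻ h, ENNReal.ofReal (F h) ∂μ).toReal :=
      integral_eq_lintegral_of_nonneg_ae (ae_of_all _ hF0) hF.aestronglyMeasurable
    _ ≤ B := ENNReal.toReal_le_of_le_ofReal hB hl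

private lemma UppM_zero (γ : ℝ) (b : ℝ → ℝ) (ε : ℝ) : Nm γ b ε (0 : Vec d) = 0 := by
  have h1 : {σ : Vec d | 0 < dot (0 : Vec d) σ} = ∅ := by
    ext σ
    simp [dot]
  unfold Nm
  rw [h1, Measure.restrict_empty, withDensity_zero_left, Measure.map_zero]

private lemma UppM_pt1 (H : Hyp d γ s b C Ca) (h0 : -1 ≤ γ) (ε : ℝ) {m σ : Vec d}
    (hσ : nsq σ = 1) (hd : 0 < dot m σ) :
    Kn d γ (bt b ε) (co m σ) * |1 - qf d γ m (hh σ m)| ≤
      2 ^ (d - 1) * 4 * (2 * C) * ((d : ℝ) + γ) * UppM_G s 1 1 m σ := by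
  unfold UppM_G
  rw [qf_eq hσ hd]
  have hC0 : 0 ≤ C := H.bd.1
  have hc := co_pos hd
  have hc1 := co_le_one (m := m) hσ
  have hdd : (2 : ℝ) ≤ d := by exact_mod_cast H.hd
  rw [← co_eq]
  set c := co m σ with hcdef
  have hy : 0 ≤ 1 - c := by linarith
  have e1 : min (1 ^ 2 * (1 - c)) 1 ^ (1 : ℝ) = 1 - c := by
    rw [Real.rpow_one, one_pow, one_mul, min_eq_left (by linarith)]
  rw [e1]
  have hβ0 : 0 ≤ (1 - c) ^ (-(((d : ℝ) - 1) / 2 + s)) := Real.rpow_nonneg hy _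
  rcases hc1.eq_or_lt with h1 | h1
  · rw [h1, Real.one_rpow, sub_self, abs_zero, mul_zero, mul_zero, mul_zero]
  have hk := UppM_kn H ε hc h1
  have h2 : |1 - c ^ ((d : ℝ) + γ)| ≤ ((d : ℝ) + γ) * (1 - c) := by
    have h3 := one_add_mul_self_le_rpow_one_add (s := c - 1) (by linarith)
      (p := (d : ℝ) + γ) (by linarith)
    have h4 : 1 + (c - 1) = c := by ring
    rw [h4] at h3
    have h5 : c ^ ((d : ℝ) + γ) ≤ 1 := Real.rpow_le_one hc.le hc1 (by linarith)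
    rw [abs_of_nonneg (by linarith)]
    linarith
  have h10 : 0 ≤ 2 ^ (d - 1) * 4 * (2 * C) * (1 - c) ^ (-(((d : ℝ) - 1) / 2 + s)) := by
    positivity
  calc Kn d γ (bt b ε) c * |1 - c ^ ((d : ℝ) + γ)|
      ≤ (2 ^ (d - 1) * 4 * (2 * C) * (1 - c) ^ (-(((d : ℝ) - 1) / 2 + s))) *
        (((d : ℝ) + γ) * (1 - c)) :=
        (mul_le_mul_of_nonneg_right hk (abs_nonneg _)).trans (mul_le_mul_of_nonneg_left h2 h10)
    _ = _ := by ring

theorem upp_qM (H : Hyp d γ s b C Ca) (h0 : -1 ≤ γ) : ∃ A : ℝ, 0 ≤ A ∧ ∀ ε : ℝ, 0 ≤ ε →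
    ∀ m : Vec d, Integrable (fun h => 1 - qf d γ m h) (Nm γ b ε m) ∧
      |∫ h, (1 - qf d γ m h) ∂(Nm γ b ε m)| ≤ A := by
  have hC0 : 0 ≤ C := H.bd.1
  obtain ⟨A, hA, h⟩ := ang_scale H (τ := 1) H.hs1 le_rfl
  have hdd : (2 : ℝ) ≤ d := by exact_mod_cast H.hd
  have hdg : 0 ≤ (d : ℝ) + γ := by linarith
  refine ⟨2 ^ (d - 1) * 4 * (2 * C) * ((d : ℝ) + γ) * A, by positivity, fun ε hε m => ?_⟩
  have hB : 0 ≤ 2 ^ (d - 1) * 4 * (2 * C) * ((d : ℝ) + γ) * A := by positivity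
  by_cases hm : m = 0
  · rw [hm, UppM_zero]
    refine ⟨integrable_zero_measure, ?_⟩
    rw [integral_zero_measure, abs_zero]
    exact hB
  have hφ : Measurable fun x : Vec d => 1 - qf d γ m x := by
    have h3 : Measurable fun x : Vec d => ((m, x) : Vec d × Vec d) :=
      measurable_const.prodMk measurable_id
    have h4 := (meas_qf (d := d) γ).comp h3
    exact measurable_const.sub h4
  refine UppM_fin hφ (measurable_norm.comp hφ) (fun x => abs_nonneg _) (fun x => le_rfl) hB ?_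
  have h5 := UppM_lint (γ := γ) (ε := ε) H (M := 2 ^ (d - 1) * 4 * (2 * C) * ((d : ℝ) + γ))
    (F := fun x => |1 - qf d γ m x|) (measurable_norm.comp hφ) (fun x => abs_nonneg _)
    (by positivity) (h (dir m) (nsq_dir hm) 1 one_pos)
    (fun σ hσ hd => UppM_pt1 H h0 ε hσ hd)
  rw [Real.one_rpow, mul_one] at h5
  exact h5

end Pool.Agent.H15.HF.M
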