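import Pool.Agent.H82.HM.OscM
import Pool.Agent.H82.HM.MeaM
import Pool.Agent.H82.HM.SgM
import Pool.Agent.H82.HM.UppM
import Pool.Agent.H82.HF.Amp

/-!
# Block M (MP_c15324_an): the residual for `0 ≤ γ + 2s` (copy of H15/HF/Res)
-/

set_option autoImplicit false

open MeasureTheory Set Filter Topology Pool.Agent.H25.Kin Pool.Agent.H48.PL Pool.Agent.H48.PD
open Pool.Agent.H82.BK Pool.Agent.H82.CM Pool.Agent.H48.PR Pool.Agent.H82.HF
open scoped ENNReal

namespace Pool.Agent.H15.HF.M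

variable {d : ℕ} {γ s C Ca cb : ℝ} {b : ℝ → ℝ}

private lemma ResM_Gb {α : ℝ} {q : ℕ} {Cq : ℝ} {n : ℕ} {F : Vec d → ℝ} {A : Fin n → Vec d → ℝ}
    (hF : HR α q Cq F) (hA : ∀ j, HR α q Cq (A j)) (κ : Fin n → Vec d) (θ : Fin n → ℝ)
    (u : Vec d) : |GG F A κ θ u| ≤ (((n : ℝ) + 1) * Cq) * Wp q u := by
  unfold GG
  refine (abs_add_le _ _).trans ?_
  have h1 : |∑ j, A j u * Real.cos (θ j - dot (κ j) u)| ≤ ∑ _j : Fin n, Cq * Wp q u := by
    refine (Finset.abs_sum_le_sum_abs _ _).trans (Finset.sum_le_sum fun j _ => ?_)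
    rw [abs_mul]
    exact (mul_le_of_le_one_right (abs_nonneg _) (Real.abs_cos_le_one _)).trans ((hA j).le u)
  rw [Finset.sum_const, Finset.card_univ, Fintype.card_fin, nsmul_eq_mul] at h1
  have := hF.le u
  calc |F u| + |∑ j, A j u * Real.cos (θ j - dot (κ j) u)| ≤ Cq * Wp q u + n * (Cq * Wp q u) :=
        add_le_add this h1
    _ = _ := by ring

private lemma ResM_cosc (κ : Vec d) (θ : ℝ) :
    Continuous fun u : Vec d => Real.cos (θ - dot κ u) :=
  Real.continuous_cos.comp (continuous_const.sub (dot_cont κ))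

private lemma ResM_Gc {α : ℝ} (hα : 0 < α) {q : ℕ} {Cq : ℝ} {n : ℕ} {F : Vec d → ℝ}
    {A : Fin n → Vec d → ℝ} (hF : HR α q Cq F) (hA : ∀ j, HR α q Cq (A j)) (κ : Fin n → Vec d)
    (θ : Fin n → ℝ) : Continuous (GG F A κ θ) := by
  unfold GG
  exact (hr_cont hα hF).add (continuous_finsetSum _ fun j _ =>
    (hr_cont hα (hA j)).mul (ResM_cosc (κ j) (θ j)))

/-- the increment part -/
private noncomputable def ResM_P {n : ℕ} (F : Vec d → ℝ) (A : Fin n → Vec d → ℝ)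
    (κ : Fin n → Vec d) (θ : Fin n → ℝ) (v h : Vec d) : ℝ :=
  (F (v + h) - F v) + ∑ l, (A l (v + h) - A l v) * Real.cos (θ l - dot (κ l) (v + h))

private lemma ResM_Pm {α : ℝ} (hα : 0 < α) {q : ℕ} {Cq : ℝ} {n : ℕ} {F : Vec d → ℝ}
    {A : Fin n → Vec d → ℝ} (hF : HR α q Cq F) (hA : ∀ j, HR α q Cq (A j)) (κ : Fin n → Vec d)
    (θ : Fin n → ℝ) (v : Vec d) : Measurable (ResM_P F A κ θ v) := by
  have e : Continuous fun h : Vec d => v + h := continuous_const.add continuous_id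
  have h : Continuous (ResM_P F A κ θ v) := by
    unfold ResM_P
    exact (((hr_cont hα hF).comp e).sub continuous_const).add (continuous_finsetSum _ fun j _ =>
      (((hr_cont hα (hA j)).comp e).sub continuous_const).mul ((ResM_cosc (κ j) (θ j)).comp e))
  exact h.measurable

private lemma ResM_inc {α : ℝ} {q : ℕ} {M : ℝ} {a : Vec d → ℝ} (h : HR α q M a) (v z : Vec d) :
    |a (v + z) - a v| ≤ 2 * M * min 1 (len z) ^ α := by
  refine (h.hol v z).trans ?_
  have h1 : 0 ≤ min 1 (len z) ^ α := Real.rpow_nonneg (le_min zero_le_one (len_nonneg z)) α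
  have h0 := h.nn
  have h2 := Wp_le_one q v
  have h3 := Wp_le_one q (v + z)
  calc M * min 1 (len z) ^ α * (Wp q v + Wp q (v + z)) ≤ M * min 1 (len z) ^ α * 2 :=
        mul_le_mul_of_nonneg_left (by linarith) (by positivity)
    _ = _ := by ring

private lemma ResM_Pb {α : ℝ} {q : ℕ} {Cq : ℝ} {n : ℕ} {F : Vec d → ℝ}
    {A : Fin n → Vec d → ℝ} (hF : HR α q Cq F) (hA : ∀ j, HR α q Cq (A j)) (κ : Fin n → Vec d)
    (θ : Fin n → ℝ) (v h : Vec d) :
    |ResM_P F A κ θ v h| ≤ (2 * ((n : ℝ) + 1) * Cq + 1) * min 1 (len h) ^ α := by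
  have hm : 0 ≤ min 1 (len h) ^ α := Real.rpow_nonneg (le_min zero_le_one (len_nonneg h)) α
  unfold ResM_P
  refine (abs_add_le _ _).trans ?_
  have h1 : |∑ l, (A l (v + h) - A l v) * Real.cos (θ l - dot (κ l) (v + h))| ≤
      ∑ _j : Fin n, 2 * Cq * min 1 (len h) ^ α := by
    refine (Finset.abs_sum_le_sum_abs _ _).trans (Finset.sum_le_sum fun j _ => ?_)
    rw [abs_mul]
    exact (mul_le_of_le_one_right (abs_nonneg _) (Real.abs_cos_le_one _)).trans
      (ResM_inc (hA j) v h)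
  rw [Finset.sum_const, Finset.card_univ, Fintype.card_fin, nsmul_eq_mul] at h1
  have h2 := ResM_inc hF v h
  nlinarith

private lemma ResM_fin (H : Hyp d γ s b C Ca) {ε : ℝ} (hε : 0 < ε) (m : Vec d) :
    IsFiniteMeasure (Nm γ b ε m) := by
  obtain ⟨M, _, hM⟩ := Nm_le H hε
  exact ⟨(hM m).trans_lt ENNReal.ofReal_lt_top⟩

private lemma ResM_inner (H : Hyp d γ s b C Ca) (hs : 2 * s < 1) {α : ℝ}
    (h1 : 2 * s < α) {q : ℕ} {Cq : ℝ} {n : ℕ} {F : Vec d → ℝ}
    {A : Fin n → Vec d → ℝ} (hF : HR α q Cq F) (hA : ∀ j, HR α q Cq (A j)) (κ : Fin n → Vec d)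
    (θ : Fin n → ℝ) {ε : ℝ} (hε : 0 < ε) (v m : Vec d) :
    ∫ h, (GG F A κ θ (v - m) * GG F A κ θ (v + h) -
      qf d γ m h * (GG F A κ θ (v - m) * GG F A κ θ v)) ∂(Nm γ b ε m) =
    GG F A κ θ (v - m) * ((GG F A κ θ v * (∫ h, (1 - qf d γ m h) ∂(Nm γ b ε m)) +
      ∫ h, ResM_P F A κ θ v h ∂(Nm γ b ε m)) -
      ∑ l, A l v * Real.cos (θ l - dot (κ l) v) * Jf γ b ε (κ l) m) := by
  have hd : 1 ≤ d := by
    have := H.hd
    omega
  have hα : 0 < α := by have := H.hs; linarith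
  have := ResM_fin H hε m
  obtain ⟨_, _, hq⟩ := upp_qM H (gam_ge H hs)
  obtain ⟨_, _, hJ⟩ := Jf_le H hs
  have i1 : Integrable (fun h => 1 - qf d γ m h) (Nm γ b ε m) := (hq ε hε.le m).1
  have i2 : Integrable (ResM_P F A κ θ v) (Nm γ b ε m) := by
    refine Integrable.of_bound (ResM_Pm hα hF hA κ θ v).aestronglyMeasurable
      (2 * ((n : ℝ) + 1) * Cq + 1) (Eventually.of_forall fun h => ?_)
    rw [Real.norm_eq_abs]
    have h3 : min 1 (len h) ^ α ≤ 1 :=
      Real.rpow_le_one (le_min zero_le_one (len_nonneg h)) (min_le_left _ _) hα.le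
    have h4 := hF.nn
    exact (ResM_Pb hF hA κ θ v h).trans (mul_le_of_le_one_right (by positivity) h3)
  have i3 : ∀ l : Fin n, Integrable (fun h => 1 - Real.cos (dot (κ l) h)) (Nm γ b ε m) :=
    fun l => (hJ ε hε.le (κ l) (κ l) m).1
  have ms : ∀ l : Fin n, Measurable fun h : Vec d => Real.sin (dot (κ l) h) := fun l =>
    (Real.continuous_sin.comp (dot_cont (κ l))).measurable
  have i4 : ∀ l : Fin n, Integrable (fun h => Real.sin (dot (κ l) h)) (Nm γ b ε m) := by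
    intro l
    refine Integrable.of_bound (ms l).aestronglyMeasurable 1 (Eventually.of_forall fun h => ?_)
    rw [Real.norm_eq_abs]
    exact Real.abs_sin_le_one _
  have z4 : ∀ l : Fin n, ∫ h, Real.sin (dot (κ l) h) ∂(Nm γ b ε m) = 0 := by
    intro l
    refine int_odd hd H.bm γ ε m (ms l) fun h => ?_
    rw [dot_neg, Real.sin_neg]
  have e : ∀ h : Vec d, GG F A κ θ (v - m) * GG F A κ θ (v + h) -
      qf d γ m h * (GG F A κ θ (v - m) * GG F A κ θ v) =
      GG F A κ θ (v - m) * (((GG F A κ θ v * (1 - qf d γ m h) + ResM_P F A κ θ v h) -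
        ∑ l, A l v * Real.cos (θ l - dot (κ l) v) * (1 - Real.cos (dot (κ l) h))) +
        ∑ l, A l v * Real.sin (θ l - dot (κ l) v) * Real.sin (dot (κ l) h)) := by
    intro h
    have e1 : GG F A κ θ (v + h) - GG F A κ θ v = ResM_P F A κ θ v h -
        (∑ l, A l v * Real.cos (θ l - dot (κ l) v) * (1 - Real.cos (dot (κ l) h))) +
        ∑ l, A l v * Real.sin (θ l - dot (κ l) v) * Real.sin (dot (κ l) h) := by
      have e2 : ∑ l, A l (v + h) * Real.cos (θ l - dot (κ l) (v + h)) -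
          ∑ l, A l v * Real.cos (θ l - dot (κ l) v) =
          ∑ l, (A l (v + h) - A l v) * Real.cos (θ l - dot (κ l) (v + h)) -
          (∑ l, A l v * Real.cos (θ l - dot (κ l) v) * (1 - Real.cos (dot (κ l) h))) +
          ∑ l, A l v * Real.sin (θ l - dot (κ l) v) * Real.sin (dot (κ l) h) := by
        rw [← Finset.sum_sub_distrib, ← Finset.sum_sub_distrib, ← Finset.sum_add_distrib]
        refine Finset.sum_congr rfl fun l _ => ?_
        have e3 : θ l - dot (κ l) (v + h) = (θ l - dot (κ l) v) - dot (κ l) h := by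
          rw [dot_add]
          ring
        rw [e3, Real.cos_sub]
        ring
      unfold GG ResM_P
      linarith
    have e4 : GG F A κ θ (v + h) = GG F A κ θ v + (ResM_P F A κ θ v h -
        (∑ l, A l v * Real.cos (θ l - dot (κ l) v) * (1 - Real.cos (dot (κ l) h))) +
        ∑ l, A l v * Real.sin (θ l - dot (κ l) v) * Real.sin (dot (κ l) h)) := by linarith
    rw [e4]
    ring
  rw [integral_congr_ae (Eventually.of_forall e), integral_const_mul]
  congr 1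
  have j1 : Integrable (fun h => GG F A κ θ v * (1 - qf d γ m h) + ResM_P F A κ θ v h)
      (Nm γ b ε m) := (i1.const_mul _).add i2
  have j3 : Integrable (fun h => ∑ l, A l v * Real.cos (θ l - dot (κ l) v) *
      (1 - Real.cos (dot (κ l) h))) (Nm γ b ε m) :=
    integrable_finsetSum _ fun l _ => (i3 l).const_mul _
  have j4 : Integrable (fun h => ∑ l, A l v * Real.sin (θ l - dot (κ l) v) *
      Real.sin (dot (κ l) h)) (Nm γ b ε m) :=
    integrable_finsetSum _ fun l _ => (i4 l).const_mul _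
  have j5 : Integrable (fun h => (GG F A κ θ v * (1 - qf d γ m h) + ResM_P F A κ θ v h) -
      ∑ l, A l v * Real.cos (θ l - dot (κ l) v) * (1 - Real.cos (dot (κ l) h)))
      (Nm γ b ε m) := j1.sub j3
  rw [integral_add j5 j4, integral_sub j1 j3, integral_add (i1.const_mul _) i2,
    integral_const_mul, integral_finsetSum _ (fun l _ => (i3 l).const_mul _),
    integral_finsetSum _ (fun l _ => (i4 l).const_mul _)]
  have k4 : ∑ l, ∫ h, A l v * Real.sin (θ l - dot (κ l) v) * Real.sin (dot (κ l) h)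
      ∂(Nm γ b ε m) = 0 := Finset.sum_eq_zero fun l _ => by
    rw [integral_const_mul, z4 l, mul_zero]
  have k3 : ∑ l, ∫ h, A l v * Real.cos (θ l - dot (κ l) v) * (1 - Real.cos (dot (κ l) h))
      ∂(Nm γ b ε m) = ∑ l, A l v * Real.cos (θ l - dot (κ l) v) * Jf γ b ε (κ l) m :=
    Finset.sum_congr rfl fun l _ => by
      rw [integral_const_mul]
      rfl
  rw [k4, k3, add_zero]

private lemma ResM_al (H : Hyp d γ s b C Ca) {α : ℝ} (h1 : 2 * s < α) (h2 : α ≤ 1) :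
    ∃ A : ℝ, 0 ≤ A ∧ ∀ ε : ℝ, 0 ≤ ε → ∀ m : Vec d, ∀ (φ : Vec d → ℝ) (B : ℝ), 0 < B →
      Measurable φ → (∀ h, |φ h| ≤ B * min 1 (len h) ^ α) →
      |∫ h, φ h ∂(Nm γ b ε m)| ≤ B * (A * (1 + nsq m)) := by
  obtain ⟨A, hA, hU⟩ := upp_al H h1 h2
  refine ⟨A, hA, fun ε hε m φ B hB hφ hb => ?_⟩
  have h3 := (hU ε hε m (fun h => B⁻¹ * φ h) (hφ.const_mul _) (fun h => by
    rw [abs_mul, abs_of_pos (inv_pos.2 hB), inv_mul_le_iff₀ hB]
    exact hb h)).2
  rw [integral_const_mul, abs_mul, abs_of_pos (inv_pos.2 hB), inv_mul_le_iff₀ hB] at h3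
  exact h3

theorem resM (H : Hyp d γ s b C Ca) (hs : 2 * s < 1) {α : ℝ} (h1 : 2 * s < α)
    (h2 : α ≤ 1) {q : ℕ} (hq : d + 10 ≤ q) (Cq : ℝ) {n : ℕ} (k : Fin n → Vec d)
    (hk : ∀ j, k j ≠ 0) :
    ∃ K : ℝ, 0 ≤ K ∧ ∀ (lam ε : ℝ) (θ : Fin n → ℝ) (F : Vec d → ℝ) (A : Fin n → Vec d → ℝ)
      (v : Vec d), 0 ≤ lam → 0 < ε → HR α q Cq F → (∀ j, HR α q Cq (A j)) →
      |boltzCut γ b ε (GG F A (fun j => lam • k j) θ) v + ∑ l, sgE γ b ε F (lam • k l) v *
        (A l v * Real.cos (θ l - dot (lam • k l) v))| ≤ K * (1 + nsq v) ^ 2 := by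
  have hs0 := H.hs
  have hγ2 := H.g2
  have hα : 0 < α := by linarith
  obtain ⟨A₁, hA₁, hU1⟩ := upp_qM H (gam_ge H hs)
  obtain ⟨A₂, hA₂, hU2⟩ := ResM_al H h1 h2
  obtain ⟨KO, hKO, hout⟩ := outerM (d := d) H.hd (gam_ge H hs) hγ2 hq
  obtain ⟨KS, hKS, hsg⟩ := sg_intM H hs hq
  choose KK hKK hosc using fun (j l : Fin n) => oscM H hs h1 h2 hq Cq (hk j) (k l)
  set c0 : ℝ := ((n : ℝ) + 1) * |Cq| with hc0
  set c1 : ℝ := c0 * (c0 * A₁ + (2 * ((n : ℝ) + 1) * |Cq| + 1) * A₂) with hc1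
  have hc00 : 0 ≤ c0 := by positivity
  have hc10 : 0 ≤ c1 := by positivity
  have hSS : 0 ≤ ∑ l, ∑ j, KK j l := Finset.sum_nonneg fun l _ => Finset.sum_nonneg fun j _ =>
    hKK j l
  refine ⟨KO * c1 + |Cq| * ∑ l, ∑ j, KK j l, by positivity, ?_⟩
  intro lam ε θ F A v hlam hε hF hA
  have hCq : |Cq| = Cq := abs_of_nonneg hF.nn
  set κ : Fin n → Vec d := fun j => lam • k j with hκ
  have hGb : ∀ u, |GG F A κ θ u| ≤ c0 * Wp q u := fun u => by
    rw [hc0, hCq]
    exact ResM_Gb hF hA κ θ u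
  have hGc := ResM_Gc hα hF hA κ θ
  have hGm := hGc.measurable
  have hG1 : ∀ u, |GG F A κ θ u| ≤ c0 := fun u =>
    (hGb u).trans (mul_le_of_le_one_right hc00 (Wp_le_one q u))
  -- the remainder
  set E : Vec d → ℝ := fun m => GG F A κ θ v * (∫ h, (1 - qf d γ m h) ∂(Nm γ b ε m)) +
      ∫ h, ResM_P F A κ θ v h ∂(Nm γ b ε m) with hE
  have hEm : Measurable E := by
    have m1 : Measurable fun m => ∫ h, (1 - qf d γ m h) ∂(Nm γ b ε m) :=
      meas_Nm H.bm γ ε (Ψ := fun z => 1 - qf d γ z.1 z.2) (measurable_const.sub (meas_qf γ))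
    have m2 : Measurable fun m => ∫ h, ResM_P F A κ θ v h ∂(Nm γ b ε m) :=
      meas_Nm H.bm γ ε (Ψ := fun z => ResM_P F A κ θ v z.2)
        ((ResM_Pm hα hF hA κ θ v).comp measurable_snd)
    exact (m1.const_mul _).add m2
  have hEb : ∀ m, |E m| ≤ (c0 * A₁ + (2 * ((n : ℝ) + 1) * |Cq| + 1) * A₂) * (1 + nsq m) := by
    intro m
    have hm := sq_nonneg' m
    have e1 := (hU1 ε hε.le m).2
    have e2 := hU2 ε hε.le m (ResM_P F A κ θ v) (2 * ((n : ℝ) + 1) * |Cq| + 1) (by positivity)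
      (ResM_Pm hα hF hA κ θ v) (fun h => by
        rw [hCq]
        exact ResM_Pb hF hA κ θ v h)
    simp only [hE]
    refine (abs_add_le _ _).trans ?_
    rw [abs_mul]
    have e3 : |GG F A κ θ v| * |∫ h, (1 - qf d γ m h) ∂(Nm γ b ε m)| ≤ c0 * A₁ :=
      mul_le_mul (hG1 v) e1 (abs_nonneg _) hc00
    have e4 : c0 * A₁ ≤ c0 * A₁ * (1 + nsq m) :=
      le_mul_of_one_le_right (by positivity) (by linarith)
    calc _ ≤ c0 * A₁ * (1 + nsq m) +
          (2 * ((n : ℝ) + 1) * |Cq| + 1) * (A₂ * (1 + nsq m)) := add_le_add (e3.trans e4) e2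
      _ = _ := by ring
  -- the outer integrals
  have o1 := hout v (fun m => GG F A κ θ (v - m) * E m) c1
    ((hGm.comp (measurable_const.sub measurable_id)).mul hEm) hc10 (fun m => by
      rw [abs_mul]
      have hm := sq_nonneg' m
      calc |GG F A κ θ (v - m)| * |E m| ≤ (c0 * Wp q (v - m)) *
            ((c0 * A₁ + (2 * ((n : ℝ) + 1) * |Cq| + 1) * A₂) * (1 + nsq m)) :=
            mul_le_mul (hGb _) (hEb m) (abs_nonneg _)
              (mul_nonneg hc00 (Wp_pos q _).le)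
        _ = _ := by rw [hc1]; ring)
  have o2 : ∀ l : Fin n, Integrable (fun m => len m ^ γ * (GG F A κ θ (v - m) *
      Jf γ b ε (κ l) m)) := fun l => (hsg ε hε.le (GG F A κ θ) c0 hGm hc00 hGb (κ l) v).1
  have o3 : ∀ l : Fin n, Integrable (fun m => len m ^ γ * (F (v - m) *
      Jf γ b ε (κ l) m)) := fun l =>
    (hsg ε hε.le F Cq (hr_cont hα hF).measurable hF.nn hF.le (κ l) v).1
  have o4 : ∀ j l : Fin n, Integrable (fun m => len m ^ γ * (A j (v - m) *
      Real.cos (θ j - dot (κ j) (v - m)) * Jf γ b ε (κ l) m)) := fun j l =>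
    (hsg ε hε.le (fun u => A j u * Real.cos (θ j - dot (κ j) u)) Cq
      (((hr_cont hα (hA j)).mul (ResM_cosc (κ j) (θ j))).measurable) hF.nn (fun u => by
        rw [abs_mul]
        exact (mul_le_of_le_one_right (abs_nonneg _) (Real.abs_cos_le_one _)).trans
          ((hA j).le u)) (κ l) v).1
  have o5 : ∀ l : Fin n, ∫ m, len m ^ γ * (GG F A κ θ (v - m) * Jf γ b ε (κ l) m) =
      sgE γ b ε F (κ l) v + ∑ j, ∫ m, len m ^ γ * (A j (v - m) *
        Real.cos (θ j - dot (κ j) (v - m)) * Jf γ b ε (κ l) m) := by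
    intro l
    unfold sgE
    rw [← integral_finsetSum _ (fun j _ => o4 j l), ← integral_add (o3 l)
      (integrable_finsetSum _ fun j _ => o4 j l)]
    refine integral_congr_ae (Eventually.of_forall fun m => ?_)
    simp only [GG]
    rw [← Finset.mul_sum, ← Finset.sum_mul]
    ring
  -- the operator
  have hb0 : boltzCut γ b ε (GG F A κ θ) v = (∫ m, len m ^ γ * (GG F A κ θ (v - m) * E m)) -
      ∑ l, A l v * Real.cos (θ l - dot (κ l) v) *
        ∫ m, len m ^ γ * (GG F A κ θ (v - m) * Jf γ b ε (κ l) m) := by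
    rw [cutMM H (gam_ge H hs) hq hε hGc hGb v]
    have e1 : ∀ m : Vec d, len m ^ γ * ∫ h, (GG F A κ θ (v - m) * GG F A κ θ (v + h) -
        qf d γ m h * (GG F A κ θ (v - m) * GG F A κ θ v)) ∂(Nm γ b ε m) =
        len m ^ γ * (GG F A κ θ (v - m) * E m) - ∑ l, A l v * Real.cos (θ l - dot (κ l) v) *
          (len m ^ γ * (GG F A κ θ (v - m) * Jf γ b ε (κ l) m)) := by
      intro m
      rw [ResM_inner H hs h1 hF hA κ θ hε v m]
      have e2 : ∑ l, A l v * Real.cos (θ l - dot (κ l) v) *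
          (len m ^ γ * (GG F A κ θ (v - m) * Jf γ b ε (κ l) m)) =
          len m ^ γ * GG F A κ θ (v - m) * ∑ l, A l v * Real.cos (θ l - dot (κ l) v) *
            Jf γ b ε (κ l) m := by
        rw [Finset.mul_sum]
        exact Finset.sum_congr rfl fun l _ => by ring
      rw [e2]
      simp only [hE]
      ring
    rw [integral_congr_ae (Eventually.of_forall e1), integral_sub o1.1
      (integrable_finsetSum _ fun l _ => (o2 l).const_mul _),
      integral_finsetSum _ (fun l _ => (o2 l).const_mul _)]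
    congr 1
    exact Finset.sum_congr rfl fun l _ => integral_const_mul _ _
  have hfin : boltzCut γ b ε (GG F A κ θ) v + ∑ l, sgE γ b ε F (κ l) v *
      (A l v * Real.cos (θ l - dot (κ l) v)) =
      (∫ m, len m ^ γ * (GG F A κ θ (v - m) * E m)) -
      ∑ l, A l v * Real.cos (θ l - dot (κ l) v) * ∑ j, ∫ m, len m ^ γ * (A j (v - m) *
        Real.cos (θ j - dot (κ j) (v - m)) * Jf γ b ε (κ l) m) := by
    rw [hb0]
    have e1 : ∑ l, A l v * Real.cos (θ l - dot (κ l) v) *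
        ∫ m, len m ^ γ * (GG F A κ θ (v - m) * Jf γ b ε (κ l) m) =
        ∑ l, sgE γ b ε F (κ l) v * (A l v * Real.cos (θ l - dot (κ l) v)) +
        ∑ l, A l v * Real.cos (θ l - dot (κ l) v) * ∑ j, ∫ m, len m ^ γ * (A j (v - m) *
          Real.cos (θ j - dot (κ j) (v - m)) * Jf γ b ε (κ l) m) := by
      rw [← Finset.sum_add_distrib]
      refine Finset.sum_congr rfl fun l _ => ?_
      rw [o5 l]
      ring
    rw [e1]
    ring
  rw [hfin]
  have hX : 0 ≤ (1 + nsq v) ^ 2 := by positivity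
  have f1 := o1.2
  have f2 : |∑ l, A l v * Real.cos (θ l - dot (κ l) v) * ∑ j, ∫ m, len m ^ γ * (A j (v - m) *
        Real.cos (θ j - dot (κ j) (v - m)) * Jf γ b ε (κ l) m)| ≤
      |Cq| * (∑ l, ∑ j, KK j l) * (1 + nsq v) ^ 2 := by
    refine (Finset.abs_sum_le_sum_abs _ _).trans ?_
    rw [Finset.mul_sum, Finset.sum_mul]
    refine Finset.sum_le_sum fun l _ => ?_
    rw [abs_mul, mul_assoc]
    have g1 : |A l v * Real.cos (θ l - dot (κ l) v)| ≤ |Cq| := by
      rw [abs_mul]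
      refine (mul_le_of_le_one_right (abs_nonneg _) (Real.abs_cos_le_one _)).trans
        (((hA l).le v).trans ?_)
      rw [hCq]
      exact mul_le_of_le_one_right hF.nn (Wp_le_one q v)
    refine mul_le_mul g1 ?_ (abs_nonneg _) (abs_nonneg _)
    refine (Finset.abs_sum_le_sum_abs _ _).trans ?_
    rw [Finset.sum_mul]
    exact Finset.sum_le_sum fun j _ => hosc j l lam ε (θ j) (A j) v hlam hε.le (hA j)
  refine (abs_sub _ _).trans ?_
  calc _ ≤ KO * c1 * (1 + nsq v) ^ 2 + |Cq| * (∑ l, ∑ j, KK j l) * (1 + nsq v) ^ 2 :=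
        add_le_add f1 f2
    _ = _ := by ring

/-- the same with the damping rate of the full kernel, for small cut-off -/
theorem resTM (H : Hyp d γ s b C Ca) (hs : 2 * s < 1) {α : ℝ} (h1 : 2 * s < α)
    (h2 : α ≤ 1) {q : ℕ} (hq : d + 10 ≤ q) (Cq : ℝ) {n : ℕ} (k : Fin n → Vec d)
    (hk : ∀ j, k j ≠ 0) :
    ∃ K : ℝ, 0 ≤ K ∧ ∀ (lam : ℝ) (θ : Fin n → ℝ) (F : Vec d → ℝ) (A : Fin n → Vec d → ℝ)
      (v : Vec d), 0 ≤ lam → HR α q Cq F → (∀ j, HR α q Cq (A j)) → ∀ᶠ ε in 𝓝[>] (0 : ℝ),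
      |boltzCut γ b ε (GG F A (fun j => lam • k j) θ) v + ∑ l, sgE γ b 0 F (lam • k l) v *
        (A l v * Real.cos (θ l - dot (lam • k l) v))| ≤ K * (1 + nsq v) ^ 2 := by
  obtain ⟨K, hK, h⟩ := resM H hs h1 h2 hq Cq k hk
  refine ⟨K + 1, by linarith, fun lam θ F A v hl hF hA => ?_⟩
  have hFm : Measurable F := (hr_cont (by linarith [H.hs]) hF).measurable
  have hT : Tendsto (fun ε => ∑ l, sgE γ b ε F (lam • k l) v *
      (A l v * Real.cos (θ l - dot (lam • k l) v))) (𝓝[>] 0)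
      (𝓝 (∑ l, sgE γ b 0 F (lam • k l) v *
        (A l v * Real.cos (θ l - dot (lam • k l) v)))) :=
    tendsto_finsetSum _ fun l _ => (sg_tendM H hs hq hFm hF.le _ _).mul_const _
  have h3 := (Metric.tendsto_nhds.1 hT) 1 one_pos
  filter_upwards [h3, self_mem_nhdsWithin] with ε h4 h5
  rw [Real.dist_eq] at h4
  have h6 := h lam ε θ F A v hl h5 hF hA
  have h7 : (1 : ℝ) ≤ (1 + nsq v) ^ 2 := by
    have := sq_nonneg' v
    nlinarith
  have h8 := abs_le.1 h6
  have h9 := abs_lt.1 h4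
  rw [abs_le]
  constructor <;> nlinarith

end Pool.Agent.H15.HF.M
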