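import Pool.Agent.H82.HM.MeaM
import Pool.Agent.H82.HM.UppM
import Pool.Agent.H82.HF.TchL

/-!
# Block M (MP_c15324_an): the operator inequality at a touching point, `0 ≤ γ + 2s ≤ 2` (copy of H82/HF/TchL)
-/

set_option autoImplicit false

open MeasureTheory Set Filter Topology Pool.Agent.H25.Kin Pool.Agent.H48.PL Pool.Agent.H48.PD
open Pool.Agent.H82.BK Pool.Agent.H82.CM Pool.Agent.H48.PR Pool.Agent.H82.HF

namespace Pool.Agent.H15.HF.M

variable {d : ℕ} {γ s C Ca : ℝ} {b : ℝ → ℝ}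

/-- the pointwise inequality -/
private lemma tLM_pt {fz fh fv Gz Gh Gv q e Λ wz wh wv M P m1 ma S : ℝ} (he : |e| = 1)
    (hfz : 0 ≤ fz) (hfz1 : fz ≤ M * wz) (hh : |fh - Gh| ≤ Λ * wh) (hv : e * (fv - Gv) = Λ * wv)
    (hq1 : q ≤ 1) (hP : 0 ≤ P) (hw : |wh - wv| ≤ P * m1) (hm : m1 ≤ ma)
    (hma : 0 ≤ ma)
    (hwv1 : wv ≤ 1) (hz : |fz - Gz| ≤ Λ * wz) (hG : |Gh - Gv| ≤ M * ma + S)
    (hGv : |Gv| ≤ M) (hΛ : 0 ≤ Λ) (hwz : 0 ≤ wz) :
    e * ((fz * fh - q * (fz * fv)) - (Gz * Gh - q * (Gz * Gv))) ≤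
      (Λ * wz) * (((P + 1) * M) * ma + (2 * M) * (1 - q) + S) := by
  have h1 : e * ((fz * fh - q * (fz * fv)) - (Gz * Gh - q * (Gz * Gv))) =
      fz * (e * (fh - Gh) - q * (e * (fv - Gv))) + e * (fz - Gz) * (Gh - q * Gv) := by ring
  rw [h1, hv]
  have h2 : e * (fh - Gh) ≤ Λ * wh := by
    calc e * (fh - Gh) ≤ |e * (fh - Gh)| := le_abs_self _
      _ = |fh - Gh| := by rw [abs_mul, he, one_mul]
      _ ≤ _ := hh
  have h3 : wh - q * wv ≤ P * ma + (1 - q) := by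
    have h4 := (abs_le.1 hw).2
    have h5 : P * m1 ≤ P * ma := mul_le_mul_of_nonneg_left hm hP
    nlinarith [mul_le_mul_of_nonneg_left hwv1 (sub_nonneg.2 hq1)]
  have h4 : e * (fh - Gh) - q * (Λ * wv) ≤ Λ * (P * ma + (1 - q)) := by
    calc e * (fh - Gh) - q * (Λ * wv) ≤ Λ * wh - q * (Λ * wv) := by linarith
      _ = Λ * (wh - q * wv) := by ring
      _ ≤ _ := mul_le_mul_of_nonneg_left h3 hΛ
  have h5 : fz * (e * (fh - Gh) - q * (Λ * wv)) ≤ (M * wz) * (Λ * (P * ma + (1 - q))) := by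
    have h6 : 0 ≤ Λ * (P * ma + (1 - q)) :=
      mul_nonneg hΛ (add_nonneg (mul_nonneg hP hma) (sub_nonneg.2 hq1))
    calc fz * (e * (fh - Gh) - q * (Λ * wv)) ≤ fz * (Λ * (P * ma + (1 - q))) :=
          mul_le_mul_of_nonneg_left h4 hfz
      _ ≤ _ := mul_le_mul_of_nonneg_right hfz1 h6
  have h7 : |Gh - q * Gv| ≤ M * ma + S + (1 - q) * M := by
    calc |Gh - q * Gv| = |(Gh - Gv) + (1 - q) * Gv| := by ring_nf
      _ ≤ |Gh - Gv| + |(1 - q) * Gv| := abs_add_le _ _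
      _ ≤ _ := by
          rw [abs_mul, abs_of_nonneg (sub_nonneg.2 hq1)]
          exact add_le_add hG (mul_le_mul_of_nonneg_left hGv (sub_nonneg.2 hq1))
  have h8 : e * (fz - Gz) * (Gh - q * Gv) ≤ (Λ * wz) * (M * ma + S + (1 - q) * M) := by
    calc e * (fz - Gz) * (Gh - q * Gv) ≤ |e * (fz - Gz) * (Gh - q * Gv)| := le_abs_self _
      _ = |fz - Gz| * |Gh - q * Gv| := by rw [abs_mul, abs_mul, he, one_mul]
      _ ≤ _ := mul_le_mul hz h7 (abs_nonneg _) (mul_nonneg hΛ hwz)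
  calc _ ≤ (M * wz) * (Λ * (P * ma + (1 - q))) + (Λ * wz) * (M * ma + S + (1 - q) * M) :=
        add_le_add h5 h8
    _ = _ := by ring

/-- the integrand -/
private noncomputable def tLM_I (γ : ℝ) (g : Vec d → ℝ) (v : Vec d) (z : Vec d × Vec d) : ℝ :=
  g (v - z.1) * g (v + z.2) - qf d γ z.1 z.2 * (g (v - z.1) * g v)

private lemma tLM_meas (γ : ℝ) {g : Vec d → ℝ} (hg : Continuous g) (v : Vec d) :
    Measurable (tLM_I γ g v) := by
  have h1 : Measurable fun z : Vec d × Vec d => g (v - z.1) :=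
    hg.measurable.comp (measurable_const.sub measurable_fst)
  have h2 : Measurable fun z : Vec d × Vec d => g (v + z.2) :=
    hg.measurable.comp (measurable_const.add measurable_snd)
  exact (h1.mul h2).sub ((meas_qf γ).mul (h1.mul measurable_const))

private lemma tLM_bd (hd : 2 ≤ d) (h0 : -1 ≤ γ) {g : Vec d → ℝ} {M : ℝ} (hM : 0 ≤ M) {p : ℕ}
    (hg : ∀ u, |g u| ≤ M * Wp p u) (v m h : Vec d) :
    |tLM_I γ g v (m, h)| ≤ (2 * M ^ 2) * Wp p (v - m) := by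
  have hb : ∀ u, |g u| ≤ M := fun u => (hg u).trans (by
    have := Wp_le_one p u
    nlinarith [Wp_pos p u])
  obtain ⟨hq, hq1⟩ := qf_01M (d := d) hd h0 m h
  have hw := (Wp_pos p (v - m)).le
  have h1 : |g (v - m) * g (v + h)| ≤ M ^ 2 * Wp p (v - m) := by
    rw [abs_mul]
    calc |g (v - m)| * |g (v + h)| ≤ (M * Wp p (v - m)) * M :=
          mul_le_mul (hg _) (hb _) (abs_nonneg _) (mul_nonneg hM hw)
      _ = _ := by ring
  have h2 : |qf d γ m h * (g (v - m) * g v)| ≤ M ^ 2 * Wp p (v - m) := by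
    rw [abs_mul, abs_of_nonneg hq, abs_mul]
    calc qf d γ m h * (|g (v - m)| * |g v|) ≤ 1 * ((M * Wp p (v - m)) * M) :=
          mul_le_mul hq1 (mul_le_mul (hg _) (hb _) (abs_nonneg _) (mul_nonneg hM hw))
            (by positivity) zero_le_one
      _ = _ := by ring
  unfold tLM_I
  calc |g (v - m) * g (v + h) - qf d γ m h * (g (v - m) * g v)|
      ≤ |g (v - m) * g (v + h)| + |qf d γ m h * (g (v - m) * g v)| := abs_sub _ _
    _ ≤ _ := by linarith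

private lemma tLM_min (α : ℝ) (h1 : 0 < α) (h2 : α ≤ 1) (h : Vec d) :
    min 1 (len h) ≤ min 1 (len h) ^ α := by
  have h3 : 0 ≤ min 1 (len h) := le_min zero_le_one (len_nonneg h)
  rcases h3.eq_or_lt with h4 | h4
  · rw [← h4, Real.zero_rpow h1.ne']
  · calc min 1 (len h) = min 1 (len h) ^ (1 : ℝ) := (Real.rpow_one _).symm
      _ ≤ _ := Real.rpow_le_rpow_of_exponent_ge h4 (min_le_left _ _) h2

private lemma tLM_len (h0 : 0 ≤ γ) (h2 : γ ≤ 2) (m : Vec d) : len m ^ γ ≤ 1 + nsq m := by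
  have hl := len_nonneg m
  have hn := sq_nonneg' m
  rcases le_total (len m) 1 with h | h
  · have := Real.rpow_le_one hl h h0
    linarith
  · have h3 : len m ^ γ ≤ len m ^ (2 : ℝ) := Real.rpow_le_rpow_of_exponent_le h h2
    rw [Real.rpow_two, len_sq] at h3
    linarith

private lemma tLM_int1 (hγ : -1 ≤ γ) (H : Hyp d γ s b C Ca) {g : Vec d → ℝ} (hg : Continuous g)
    {M : ℝ} (hM : 0 ≤ M) {p : ℕ} (hgM : ∀ u, |g u| ≤ M * Wp p u) (v m : Vec d) {ε : ℝ}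
    (hε : 0 < ε) : Integrable (fun h => tLM_I γ g v (m, h)) (Nm γ b ε m) := by
  obtain ⟨M', -, hM'⟩ := Nm_le H hε
  have : IsFiniteMeasure (Nm γ b ε m) := ⟨(hM' m).trans_lt ENNReal.ofReal_lt_top⟩
  have h1 : Measurable fun h : Vec d => tLM_I γ g v (m, h) :=
    (tLM_meas γ hg v).comp (measurable_const.prodMk measurable_id)
  refine Integrable.of_bound h1.aestronglyMeasurable ((2 * M ^ 2) * Wp p (v - m))
    (Eventually.of_forall fun h => ?_)
  rw [Real.norm_eq_abs]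
  exact tLM_bd H.hd hγ hM hgM v m h

private lemma tLM_inner (H : Hyp d γ s b C Ca) (h0 : -1 ≤ γ) {α : ℝ} (hα : 0 < α) (h2 : α ≤ 1)
    {p : ℕ} {A1 A2 A3 : ℝ}
    (hA1 : ∀ ε : ℝ, 0 ≤ ε → ∀ m : Vec d, ∀ φ : Vec d → ℝ, Measurable φ →
      (∀ h, |φ h| ≤ min 1 (len h) ^ α) →
      Integrable φ (Nm γ b ε m) ∧ |∫ h, φ h ∂(Nm γ b ε m)| ≤ A1 * (1 + nsq m))
    (hA2 : ∀ ε : ℝ, 0 ≤ ε → ∀ m : Vec d, Integrable (fun h => 1 - qf d γ m h) (Nm γ b ε m) ∧
      |∫ h, (1 - qf d γ m h) ∂(Nm γ b ε m)| ≤ A2)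
    (hA3 : ∀ ε : ℝ, 0 ≤ ε → ∀ (m : Vec d) (μ : ℝ), 0 ≤ μ → ∀ φ : Vec d → ℝ, Measurable φ →
      (∀ h, |φ h| ≤ min 1 (μ * len h)) →
      Integrable φ (Nm γ b ε m) ∧ |∫ h, φ h ∂(Nm γ b ε m)| ≤ A3 * (μ * len m) ^ (2 * s))
    {M : ℝ} (hM : 0 ≤ M) {f G : Vec d → ℝ} (hf : Continuous f) (hG : Continuous G)
    (hf0 : ∀ u, 0 ≤ f u) (hfM : ∀ u, f u ≤ M * Wp p u) (hGM : ∀ u, |G u| ≤ M * Wp p u)
    {Λ : ℝ} (hΛ : 0 ≤ Λ) (hr : ∀ u, |f u - G u| ≤ Λ * Wp p u) {v : Vec d} {n : ℕ}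
    {a N : Fin n → ℝ} (ha : ∀ j, 0 ≤ a j) (hN : ∀ j, 0 ≤ N j)
    (hosc : ∀ h, |G (v + h) - G v| ≤ M * min 1 (len h) ^ α + ∑ j, a j * min 1 (N j * len h))
    {e : ℝ} (he : |e| = 1) (hv : e * (f v - G v) = Λ * Wp p v) {ε : ℝ} (hε : 0 < ε) (m : Vec d) :
    e * (∫ h, tLM_I γ f v (m, h) ∂(Nm γ b ε m) - ∫ h, tLM_I γ G v (m, h) ∂(Nm γ b ε m)) ≤
      (Λ * Wp p (v - m)) * (((3 * p + 1) * M) * (A1 * (1 + nsq m)) + (2 * M) * A2 +
        ∑ j, a j * (A3 * (N j * len m) ^ (2 * s))) := by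
  have hml : Measurable fun h : Vec d => len h := continuous_len.measurable
  have hφ1 : Measurable fun h : Vec d => min 1 (len h) ^ α :=
    (measurable_const.min hml).pow_const α
  have hφ1n : ∀ h : Vec d, 0 ≤ min 1 (len h) ^ α := fun h =>
    Real.rpow_nonneg (le_min zero_le_one (len_nonneg h)) _
  obtain ⟨i1, j1⟩ := hA1 ε hε.le m (fun h => min 1 (len h) ^ α) hφ1
    (fun h => (abs_of_nonneg (hφ1n h)).le)
  obtain ⟨i2, j2⟩ := hA2 ε hε.le m
  have hφ3n : ∀ j (h : Vec d), 0 ≤ min 1 (N j * len h) := fun j h =>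
    le_min zero_le_one (mul_nonneg (hN j) (len_nonneg h))
  have hφ3 : ∀ j, Measurable fun h : Vec d => min 1 (N j * len h) := fun j =>
    measurable_const.min (measurable_const.mul hml)
  have k3 := fun j => hA3 ε hε.le m (N j) (hN j) (fun h => min 1 (N j * len h)) (hφ3 j)
    (fun h => (abs_of_nonneg (hφ3n j h)).le)
  have hGv : |G v| ≤ M := (hGM v).trans (by
    have := Wp_le_one p v
    nlinarith [Wp_pos p v])
  have hfM' : ∀ u, |f u| ≤ M * Wp p u := fun u => by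
    rw [abs_of_nonneg (hf0 u)]
    exact hfM u
  have hp0 : (0 : ℝ) ≤ 3 * p := by positivity
  have hwz := (Wp_pos p (v - m)).le
  -- the pointwise bound
  have hpt : ∀ h, e * (tLM_I γ f v (m, h) - tLM_I γ G v (m, h)) ≤ (Λ * Wp p (v - m)) *
      (((3 * p + 1) * M) * min 1 (len h) ^ α + (2 * M) * (1 - qf d γ m h) +
        ∑ j, a j * min 1 (N j * len h)) := by
    intro h
    obtain ⟨-, hq1⟩ := qf_01M (d := d) H.hd h0 m h
    exact tLM_pt he (hf0 _) (hfM _) (hr _) hv hq1 hp0 (Wp_lip p v h) (tLM_min α hα h2 h)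
      (hφ1n h) (Wp_le_one p v) (hr _) (hosc h) hGv hΛ hwz
  have hIf := tLM_int1 h0 H hf hM hfM' v m hε
  have hIG := tLM_int1 h0 H hG hM hGM v m hε
  have hS : Integrable (fun h => ∑ j, a j * min 1 (N j * len h)) (Nm γ b ε m) :=
    integrable_finsetSum _ fun j _ => (k3 j).1.const_mul (a j)
  have hR1 : Integrable (fun h => ((3 * p + 1) * M) * min 1 (len h) ^ α +
      (2 * M) * (1 - qf d γ m h)) (Nm γ b ε m) := (i1.const_mul _).add (i2.const_mul _)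
  have hR : Integrable (fun h => ((3 * p + 1) * M) * min 1 (len h) ^ α +
      (2 * M) * (1 - qf d γ m h) + ∑ j, a j * min 1 (N j * len h)) (Nm γ b ε m) := hR1.add hS
  have eR : ∫ h, (((3 * p + 1) * M) * min 1 (len h) ^ α + (2 * M) * (1 - qf d γ m h) +
        ∑ j, a j * min 1 (N j * len h)) ∂(Nm γ b ε m) =
      ((3 * p + 1) * M) * ∫ h, min 1 (len h) ^ α ∂(Nm γ b ε m) +
        (2 * M) * ∫ h, (1 - qf d γ m h) ∂(Nm γ b ε m) +
        ∑ j, a j * ∫ h, min 1 (N j * len h) ∂(Nm γ b ε m) := by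
    rw [integral_add hR1 hS, integral_add (i1.const_mul _) (i2.const_mul _), integral_const_mul,
      integral_const_mul, integral_finsetSum _ fun j _ => (k3 j).1.const_mul (a j)]
    congr 1
    exact Finset.sum_congr rfl fun j _ => integral_const_mul _ _
  calc e * (∫ h, tLM_I γ f v (m, h) ∂(Nm γ b ε m) - ∫ h, tLM_I γ G v (m, h) ∂(Nm γ b ε m))
      = ∫ h, e * (tLM_I γ f v (m, h) - tLM_I γ G v (m, h)) ∂(Nm γ b ε m) := by
        rw [integral_const_mul, integral_sub hIf hIG]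
    _ ≤ ∫ h, (Λ * Wp p (v - m)) * (((3 * p + 1) * M) * min 1 (len h) ^ α +
          (2 * M) * (1 - qf d γ m h) + ∑ j, a j * min 1 (N j * len h)) ∂(Nm γ b ε m) :=
        integral_mono ((hIf.sub hIG).const_mul e) (hR.const_mul _) hpt
    _ = (Λ * Wp p (v - m)) * (((3 * p + 1) * M) * ∫ h, min 1 (len h) ^ α ∂(Nm γ b ε m) +
        (2 * M) * ∫ h, (1 - qf d γ m h) ∂(Nm γ b ε m) +
        ∑ j, a j * ∫ h, min 1 (N j * len h) ∂(Nm γ b ε m)) := by
        rw [integral_const_mul, eR]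
    _ ≤ _ := by
        refine mul_le_mul_of_nonneg_left ?_ (mul_nonneg hΛ hwz)
        refine add_le_add (add_le_add ?_ ?_) (Finset.sum_le_sum fun j _ => ?_)
        · exact mul_le_mul_of_nonneg_left ((le_abs_self _).trans j1) (by positivity)
        · exact mul_le_mul_of_nonneg_left ((le_abs_self _).trans j2) (by positivity)
        · exact mul_le_mul_of_nonneg_left ((le_abs_self _).trans (k3 j).2) (ha j)

private lemma tLM_fac (H : Hyp d γ s b C Ca) (m : Vec d) {N : ℝ} (hN : 0 ≤ N) :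
    len m ^ γ * (N * len m) ^ (2 * s) ≤ (1 + nsq m) * N ^ (2 * s) := by
  have hs := H.hs
  have hn := sq_nonneg' m
  have hN0 : 0 ≤ N ^ (2 * s) := Real.rpow_nonneg hN _
  rcases (len_nonneg m).eq_or_lt with hl | hl
  · rw [← hl, mul_zero, Real.zero_rpow (by linarith : 2 * s ≠ 0), mul_zero]
    positivity
  have e1 : len m ^ γ * (N * len m) ^ (2 * s) = len m ^ (γ + 2 * s) * N ^ (2 * s) := by
    rw [Real.mul_rpow hN hl.le, Real.rpow_add hl]
    ring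
  rw [e1]
  exact mul_le_mul_of_nonneg_right (tLM_len H.h0 H.h2 m) hN0

theorem tchLM (H : Hyp d γ s b C Ca) (hs : 2 * s < 1) {α : ℝ} (h1 : 2 * s < α)
    (h2 : α ≤ 1) {p : ℕ} (hp : d + 10 ≤ p) : ∃ K₂ : ℝ, 0 ≤ K₂ ∧ ∀ M : ℝ, ∃ K₁ : ℝ, 0 ≤ K₁ ∧
    ∀ (f G : Vec d → ℝ), Continuous f → Continuous G → (∀ u, 0 ≤ f u) → (∀ u, f u ≤ M * Wp p u) →
    (∀ u, |G u| ≤ M * Wp p u) → ∀ (Λ : ℝ), 0 ≤ Λ → (∀ u, |f u - G u| ≤ Λ * Wp p u) →
    ∀ (v : Vec d) (n : ℕ) (a N : Fin n → ℝ), (∀ j, 0 ≤ a j) → (∀ j, 0 ≤ N j) →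
    (∀ h, |G (v + h) - G v| ≤ M * min 1 (len h) ^ α + ∑ j, a j * min 1 (N j * len h)) →
    ∀ e : ℝ, |e| = 1 → e * (f v - G v) = Λ * Wp p v → ∀ ε : ℝ, 0 < ε →
    e * (boltzCut γ b ε f v - boltzCut γ b ε G v) ≤
      Λ * (K₁ * (1 + nsq v) ^ 2 + K₂ * (1 + nsq v) * ∑ j, a j * N j ^ (2 * s)) := by
  have hs0 := H.hs
  have h0 : -1 ≤ γ := gam_ge H hs
  have hα : 0 < α := by linarith
  obtain ⟨A1, hA1n, hA1⟩ := upp_al H h1 h2
  obtain ⟨A2, hA2n, hA2⟩ := upp_qM H h0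
  obtain ⟨A3, hA3n, hA3⟩ := upp_mu H hs
  obtain ⟨KW, hKW, hW⟩ := og_int (d := d) H.hd hp
  obtain ⟨KV, hKV, hV⟩ := W_int1 (d := d) hp
  obtain ⟨KO, -, hO⟩ := outerM (d := d) H.hd h0 H.g2 hp
  refine ⟨A3 * KV, mul_nonneg hA3n hKV, fun M =>
    ⟨(((3 * p + 1) * |M|) * A1 + (2 * |M|) * A2) * KW, by positivity, ?_⟩⟩
  intro f G hf hG hf0 hfM hGM Λ hΛ hr v n a N ha hN hosc e he hv ε hε
  have hM : 0 ≤ M := by
    have := (hf0 0).trans (hfM 0)
    exact nonneg_of_mul_nonneg_left this (Wp_pos p 0)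
  rw [abs_of_nonneg hM]
  have hfM' : ∀ u, |f u| ≤ M * Wp p u := fun u => by
    rw [abs_of_nonneg (hf0 u)]
    exact hfM u
  have hb : Measurable b := H.bm
  obtain ⟨M', hM'0, hM'⟩ := Nm_le H hε
  -- the outer integrands
  have hout : ∀ g : Vec d → ℝ, Continuous g → (∀ u, |g u| ≤ M * Wp p u) →
      Integrable (fun m => len m ^ γ * ∫ h, tLM_I γ g v (m, h) ∂(Nm γ b ε m)) := by
    intro g hg hgM
    refine (hO v (fun m => ∫ h, tLM_I γ g v (m, h) ∂(Nm γ b ε m)) ((2 * M ^ 2) * M')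
      (meas_Nm hb γ ε (tLM_meas γ hg v)) (by positivity) fun m => ?_).1
    have : IsFiniteMeasure (Nm γ b ε m) := ⟨(hM' m).trans_lt ENNReal.ofReal_lt_top⟩
    have e1 : ‖∫ h, tLM_I γ g v (m, h) ∂(Nm γ b ε m)‖ ≤
        ((2 * M ^ 2) * Wp p (v - m)) * (Nm γ b ε m).real univ :=
      norm_integral_le_of_norm_le_const (Eventually.of_forall fun h => by
        rw [Real.norm_eq_abs]
        exact tLM_bd H.hd h0 hM hgM v m h)
    have e2 : (Nm γ b ε m).real univ ≤ M' := by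
      rw [measureReal_def]
      exact ENNReal.toReal_le_of_le_ofReal hM'0 (hM' m)
    have hw := (Wp_pos p (v - m)).le
    have e3 := sq_nonneg' m
    rw [Real.norm_eq_abs] at e1
    calc |∫ h, tLM_I γ g v (m, h) ∂(Nm γ b ε m)|
        ≤ ((2 * M ^ 2) * Wp p (v - m)) * (Nm γ b ε m).real univ := e1
      _ ≤ ((2 * M ^ 2) * Wp p (v - m)) * M' := mul_le_mul_of_nonneg_left e2 (by positivity)
      _ = ((2 * M ^ 2) * M') * (1 * Wp p (v - m)) := by ring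
      _ ≤ ((2 * M ^ 2) * M') * ((1 + nsq m) * Wp p (v - m)) :=
          mul_le_mul_of_nonneg_left (mul_le_mul_of_nonneg_right (by linarith) hw) (by positivity)
  have hcf : boltzCut γ b ε f v = ∫ m, len m ^ γ * ∫ h, tLM_I γ f v (m, h) ∂(Nm γ b ε m) :=
    cutMM H h0 hp hε hf hfM' v
  have hcG : boltzCut γ b ε G v = ∫ m, len m ^ γ * ∫ h, tLM_I γ G v (m, h) ∂(Nm γ b ε m) :=
    cutMM H h0 hp hε hG hGM v
  set c1 : ℝ := ((3 * p + 1) * M) * A1 + (2 * M) * A2 with hc1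
  have hc1n : 0 ≤ c1 := by positivity
  set c2 : ℝ := ∑ j, a j * N j ^ (2 * s) with hc2
  have hc2n : 0 ≤ c2 := Finset.sum_nonneg fun j _ => mul_nonneg (ha j) (Real.rpow_nonneg (hN j) _)
  have hpt : ∀ m : Vec d, e * (len m ^ γ * (∫ h, tLM_I γ f v (m, h) ∂(Nm γ b ε m)) -
      len m ^ γ * ∫ h, tLM_I γ G v (m, h) ∂(Nm γ b ε m)) ≤
      Λ * (c1 * (og m * ((1 + nsq m) * Wp p (v - m))) +
        (A3 * c2) * ((1 + nsq m) * Wp p (v - m))) := by
    intro m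
    have k := tLM_inner H h0 hα h2 hA1 hA2 hA3 hM hf hG hf0 hfM hGM hΛ hr ha hN hosc he hv hε m
    have hlg : 0 ≤ len m ^ γ := Real.rpow_nonneg (len_nonneg m) _
    have hlg1 := len_og h0 H.g2 m
    have hog := og_pos m
    have hn := sq_nonneg' m
    have hw := (Wp_pos p (v - m)).le
    have k1 : len m ^ γ * (((3 * p + 1) * M) * (A1 * (1 + nsq m)) + (2 * M) * A2) ≤
        c1 * (og m * (1 + nsq m)) := by
      have k2 : ((3 * p + 1) * M) * (A1 * (1 + nsq m)) + (2 * M) * A2 ≤ c1 * (1 + nsq m) := by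
        have : 0 ≤ (2 * M) * A2 * nsq m := by positivity
        rw [hc1]
        nlinarith
      calc _ ≤ len m ^ γ * (c1 * (1 + nsq m)) := mul_le_mul_of_nonneg_left k2 hlg
        _ ≤ og m * (c1 * (1 + nsq m)) :=
            mul_le_mul_of_nonneg_right hlg1 (by positivity)
        _ = _ := by ring
    have k3 : len m ^ γ * ∑ j, a j * (A3 * (N j * len m) ^ (2 * s)) ≤
        (A3 * c2) * (1 + nsq m) := by
      rw [hc2, Finset.mul_sum, Finset.mul_sum, Finset.sum_mul]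
      refine Finset.sum_le_sum fun j _ => ?_
      have k4 := tLM_fac H m (hN j)
      calc len m ^ γ * (a j * (A3 * (N j * len m) ^ (2 * s)))
          = (a j * A3) * (len m ^ γ * (N j * len m) ^ (2 * s)) := by ring
        _ ≤ (a j * A3) * ((1 + nsq m) * N j ^ (2 * s)) :=
            mul_le_mul_of_nonneg_left k4 (mul_nonneg (ha j) hA3n)
        _ = _ := by ring
    calc e * (len m ^ γ * (∫ h, tLM_I γ f v (m, h) ∂(Nm γ b ε m)) -
          len m ^ γ * ∫ h, tLM_I γ G v (m, h) ∂(Nm γ b ε m))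
        = len m ^ γ * (e * ((∫ h, tLM_I γ f v (m, h) ∂(Nm γ b ε m)) -
          ∫ h, tLM_I γ G v (m, h) ∂(Nm γ b ε m))) := by ring
      _ ≤ len m ^ γ * ((Λ * Wp p (v - m)) * (((3 * p + 1) * M) * (A1 * (1 + nsq m)) +
          (2 * M) * A2 + ∑ j, a j * (A3 * (N j * len m) ^ (2 * s)))) :=
          mul_le_mul_of_nonneg_left k hlg
      _ = (Λ * Wp p (v - m)) * (len m ^ γ * (((3 * p + 1) * M) * (A1 * (1 + nsq m)) +
          (2 * M) * A2) + len m ^ γ * ∑ j, a j * (A3 * (N j * len m) ^ (2 * s))) := by ring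
      _ ≤ (Λ * Wp p (v - m)) * (c1 * (og m * (1 + nsq m)) + (A3 * c2) * (1 + nsq m)) :=
          mul_le_mul_of_nonneg_left (add_le_add k1 k3) (mul_nonneg hΛ hw)
      _ = _ := by ring
  obtain ⟨w1, w2⟩ := hW v
  obtain ⟨w3, w4⟩ := hV v
  have hIf := hout f hf hfM'
  have hIG := hout G hG hGM
  have hRi : Integrable fun m : Vec d => Λ * (c1 * (og m * ((1 + nsq m) * Wp p (v - m))) +
      (A3 * c2) * ((1 + nsq m) * Wp p (v - m))) :=
    ((w1.const_mul c1).add (w3.const_mul (A3 * c2))).const_mul Λ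
  rw [hcf, hcG]
  calc e * ((∫ m, len m ^ γ * ∫ h, tLM_I γ f v (m, h) ∂(Nm γ b ε m)) -
        ∫ m, len m ^ γ * ∫ h, tLM_I γ G v (m, h) ∂(Nm γ b ε m))
      = ∫ m, e * (len m ^ γ * (∫ h, tLM_I γ f v (m, h) ∂(Nm γ b ε m)) -
        len m ^ γ * ∫ h, tLM_I γ G v (m, h) ∂(Nm γ b ε m)) := by
        rw [integral_const_mul, integral_sub hIf hIG]
    _ ≤ ∫ m : Vec d, Λ * (c1 * (og m * ((1 + nsq m) * Wp p (v - m))) +
        (A3 * c2) * ((1 + nsq m) * Wp p (v - m))) :=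
        integral_mono ((hIf.sub hIG).const_mul e) hRi hpt
    _ = Λ * (c1 * (∫ m : Vec d, og m * ((1 + nsq m) * Wp p (v - m))) +
        (A3 * c2) * ∫ m : Vec d, (1 + nsq m) * Wp p (v - m)) := by
        rw [integral_const_mul, integral_add (w1.const_mul c1) (w3.const_mul (A3 * c2)),
          integral_const_mul, integral_const_mul]
    _ ≤ Λ * (c1 * (KW * (1 + nsq v) ^ 2) + (A3 * c2) * (KV * (1 + nsq v))) := by
        refine mul_le_mul_of_nonneg_left (add_le_add ?_ ?_) hΛ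
        · exact mul_le_mul_of_nonneg_left w2 hc1n
        · exact mul_le_mul_of_nonneg_left w4 (mul_nonneg hA3n hc2n)
    _ = _ := by ring

end Pool.Agent.H15.HF.M
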