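import Pool.Agent.H82.HF.LayC
import Pool.Agent.H82.HM.OpUM
import Pool.Agent.H82.HM.PrpDM

/-!
# Block M (MP_c15324_an), soft potentials, module LayCM: THE LAYER LEMMA for the kernel `δ b`, `0 ≤ γ + 2s ≤ 2`, `2s < 1`

As HF/Lay for `0 ≤ γ + 2s ≤ 2` (so `γ > -1`), with coefficients of the class `2d+24`.
-/

set_option autoImplicit false

open MeasureTheory Set Filter Topology Pool.Agent.H25.Kin Pool.Agent.H48.PL Pool.Agent.H48.PD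
open Pool.Agent.H82.BK Pool.Agent.H82.CM Pool.Agent.H48.PR
open Pool.Agent.H82.HF (HR hr_cont hr_mono Fam fa GG Am Dm CG fa_zero Bq bar_cont
  bar_der bar_le tch3)
open Pool.Agent.H15.HF (sgE)
open Pool.Agent.H15.HF.M (gam_ge)

namespace Pool.Agent.H82.HM

variable {d : ℕ} {γ s C Ca cb : ℝ} {b : ℝ → ℝ}

/-- pointwise decay from a weighted bound -/
private lemma LayCM_le {q : ℕ} {v : Vec d} {a c : ℝ} (ha : 0 ≤ a) (h : (1 + ‖v‖) ^ (2 * q) * a ≤ c) :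
    a ≤ ((d : ℝ) + 1) ^ q * |c| * Wp q v := by
  have hn := norm_nonneg v
  have h2 : 1 + nsq v ≤ ((d : ℝ) + 1) * (1 + ‖v‖) ^ 2 := by
    have h3 := sq_le v
    have h4 : (0 : ℝ) ≤ d := Nat.cast_nonneg _
    nlinarith [mul_nonneg h4 hn]
  have h5 : (1 + nsq v) ^ q ≤ ((d : ℝ) + 1) ^ q * (1 + ‖v‖) ^ (2 * q) := by
    rw [pow_mul, ← mul_pow]
    exact pow_le_pow_left₀ (by have := sq_nonneg' v; linarith) h2 q
  have h6 : 0 < (1 + nsq v) ^ q := by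
    have := sq_nonneg' v
    positivity
  rw [Wp, ← div_eq_mul_inv, le_div_iff₀ h6]
  calc a * (1 + nsq v) ^ q ≤ a * (((d : ℝ) + 1) ^ q * (1 + ‖v‖) ^ (2 * q)) :=
        mul_le_mul_of_nonneg_left h5 ha
    _ = ((d : ℝ) + 1) ^ q * ((1 + ‖v‖) ^ (2 * q) * a) := by ring
    _ ≤ ((d : ℝ) + 1) ^ q * |c| := by
        gcongr
        exact h.trans (le_abs_self c)

/-- extension of bounds by continuity in time -/
private lemma LayCM_ext {T : ℝ} {Q f : ℝ → Vec d → Vec d → ℝ} (hf : IsClassicalSol T Q f) {t₀ : ℝ}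
    (ht : t₀ ∈ Ioo 0 T) {A c : ℝ} {x v : Vec d} (h : ∀ t ∈ Ico 0 t₀, A * f t x v ≤ c) :
    A * f t₀ x v ≤ c := by
  have hc : ContinuousOn (fun t : ℝ => A * f t x v) (Ico 0 T) := by
    have h3 : ContinuousOn (fun t : ℝ => unc f (t, x, v)) (Ico 0 T) :=
      ContinuousOn.comp (show ContinuousOn (unc f) (Ico 0 T ×ˢ univ) from hf.isCont)
        (Continuous.continuousOn (by fun_prop)) fun t ht => ⟨ht, mem_univ _⟩
    exact h3.const_mul A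
  have hne : (𝓝[Ico 0 t₀] t₀).NeBot := by
    rw [← mem_closure_iff_nhdsWithin_neBot, closure_Ico ht.1.ne]
    exact ⟨ht.1.le, le_rfl⟩
  have hs : Ico 0 t₀ ⊆ Ico 0 T := fun t ht' => ⟨ht'.1, ht'.2.trans ht.2⟩
  have l1 : Tendsto (fun t : ℝ => A * f t x v) (𝓝[Ico 0 t₀] t₀) (𝓝 (A * f t₀ x v)) :=
    (hc t₀ ⟨ht.1.le, ht.2⟩).mono hs
  refine le_of_tendsto l1 ?_
  filter_upwards [self_mem_nhdsWithin] with t ht'
  exact h t ht'

/-- the derivative at a touching point -/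
private lemma LayCM_der {g : ℝ → ℝ} {g' : ℝ} (hg : HasDerivAt g g' 0) (h0 : g 0 = 0)
    (h : ∀ᶠ τ in 𝓝[>] (0 : ℝ), 0 ≤ g (-τ)) : g' ≤ 0 := by
  have h1 : HasDerivAt (fun τ : ℝ => -g (-τ)) g' 0 := by
    have hn : HasDerivAt (fun τ : ℝ => -τ) (-1) 0 := hasDerivAt_neg' (0 : ℝ)
    have hd' : HasDerivAt g g' (-(0 : ℝ)) := by rwa [neg_zero]
    have h3 := (hd'.comp (0 : ℝ) hn).neg
    rw [mul_neg, mul_one, neg_neg] at h3
    exact h3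
  have h2 := h1.tendsto_slope_zero_right
  refine le_of_tendsto h2 ?_
  filter_upwards [h, self_mem_nhdsWithin] with τ h3 h4
  have h4' : 0 < τ := h4
  rw [zero_add, smul_eq_mul, neg_zero, h0, neg_zero, sub_zero]
  exact mul_nonpos_of_nonneg_of_nonpos (inv_nonneg.2 h4'.le) (by linarith)

/-- comparison of derivatives at a touching point -/
private lemma LayCM_cmp {φ E : ℝ → ℝ} {φ' E' : ℝ} (hφ : HasDerivAt φ φ' 0) (hE : HasDerivAt E E' 0)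
    (h0 : φ 0 = E 0) (h : ∀ᶠ τ in 𝓝[>] (0 : ℝ), φ (-τ) ≤ E (-τ)) : E' ≤ φ' := by
  have h1 : E' - φ' ≤ 0 := by
    refine LayCM_der (hE.sub hφ) ?_ ?_
    · show E 0 - φ 0 = 0
      rw [h0, sub_self]
    · filter_upwards [h] with τ hτ
      show 0 ≤ E (-τ) - φ (-τ)
      linarith
  linarith

private lemma LayCM_wp {q q' : ℕ} (h : q' ≤ q) (v : Vec d) : Wp q v ≤ Wp q' v := by
  have h1 : 1 ≤ 1 + nsq v := by
    have := sq_nonneg' v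
    linarith
  unfold Wp
  exact inv_anti₀ (pow_pos (by linarith) _) (pow_le_pow_right₀ h1 h)

private lemma LayCM_wps (p : ℕ) (v : Vec d) : Wp (p + 1) v * (1 + nsq v) = Wp p v := by
  have h3 := sq_nonneg' v
  have h31 : 1 + nsq v ≠ 0 := by positivity
  unfold Wp
  rw [pow_succ, mul_inv, inv_mul_cancel_right₀ h31]

/-- the touching points are bounded -/
private lemma LayCM_v {p : ℕ} {ι L A : ℝ} {v : Vec d} (hι : 0 < ι) (hL : ι ≤ L)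
    (h : L * Wp p v ≤ A * Wp (p + 1) v) :
    1 + nsq v ≤ A / ι ∧ (1 + nsq v) ^ 2 ≤ (A / ι) ^ (p + 2) * Wp p v := by
  have h3 := sq_nonneg' v
  have hw : 0 < 1 + nsq v := by linarith
  have hW := Wp_pos p v
  have h4 : L * (1 + nsq v) * Wp p v ≤ A * Wp p v := by
    calc L * (1 + nsq v) * Wp p v = (L * Wp p v) * (1 + nsq v) := by ring
      _ ≤ (A * Wp (p + 1) v) * (1 + nsq v) := mul_le_mul_of_nonneg_right h hw.le
      _ = A * (Wp (p + 1) v * (1 + nsq v)) := by ring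
      _ = A * Wp p v := by rw [LayCM_wps]
  have h5 : L * (1 + nsq v) ≤ A := le_of_mul_le_mul_right h4 hW
  have h6 : 1 + nsq v ≤ A / ι := by
    rw [le_div_iff₀ hι]
    calc (1 + nsq v) * ι ≤ (1 + nsq v) * L := mul_le_mul_of_nonneg_left hL hw.le
      _ = L * (1 + nsq v) := mul_comm _ _
      _ ≤ A := h5
  refine ⟨h6, ?_⟩
  have h7 : (1 + nsq v) ^ 2 = (1 + nsq v) ^ (p + 2) * Wp p v := by
    have h8 := Wp_mul p v
    calc (1 + nsq v) ^ 2 = (Wp p v * (1 + nsq v) ^ p) * (1 + nsq v) ^ 2 := by rw [h8, one_mul]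
      _ = (1 + nsq v) ^ (p + 2) * Wp p v := by ring
  rw [h7]
  exact mul_le_mul_of_nonneg_right (pow_le_pow_left₀ hw.le h6 _) hW.le

/-- the final contradiction -/
private lemma LayCM_con {δ s L Kr K₁ R KA K₅ A Y Z B' W q E : ℝ} (hδ : 0 < δ) (hW : 0 < W)
    (hL : 0 ≤ L) (hL1 : L ≤ 1) (hK₁ : 0 ≤ K₁) (hR : 0 ≤ R) (hKr : Kr = 2 * K₁ * R + 1)
    (hKA : KA * (1 + 2 * s) = K₅ * A) (hq : q ≤ R * W) (h1 : B' * W ≤ δ * E)
    (h2 : E ≤ L * (K₅ * A * (Y * Z) * W) + K₁ * (1 + L) * q)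
    (h3 : δ * Kr + L * (δ * Kr + KA * ((1 + 2 * s) * δ * Y * Z)) ≤ B') : False := by
  have a1 : K₁ * (1 + L) * q ≤ K₁ * 2 * (R * W) := by
    have b1 : K₁ * (1 + L) * q ≤ K₁ * (1 + L) * (R * W) :=
      mul_le_mul_of_nonneg_left hq (by positivity)
    have b2 : K₁ * (1 + L) * (R * W) ≤ K₁ * 2 * (R * W) :=
      mul_le_mul_of_nonneg_right (mul_le_mul_of_nonneg_left (by linarith) hK₁) (by positivity)
    exact b1.trans b2
  have a2 : δ * E ≤ δ * (L * (K₅ * A * (Y * Z) * W) + K₁ * 2 * (R * W)) :=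
    mul_le_mul_of_nonneg_left (by linarith) hδ.le
  have a3 := mul_le_mul_of_nonneg_right h3 hW.le
  have a4 : L * (δ * Kr + KA * ((1 + 2 * s) * δ * Y * Z)) =
      L * (δ * Kr) + δ * (L * (K₅ * A * (Y * Z))) := by
    rw [← hKA]
    ring
  rw [a4, add_mul, add_mul] at a3
  have a5 : 0 ≤ L * (δ * Kr) * W := by
    have : 0 ≤ Kr := by rw [hKr]; positivity
    positivity
  have a6 : 0 < δ * W := mul_pos hδ hW
  have a7 : δ * Kr * W = δ * (K₁ * 2 * (R * W)) + δ * W := by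
    rw [hKr]
    ring
  have a8 : δ * (L * (K₅ * A * (Y * Z) * W) + K₁ * 2 * (R * W)) =
      δ * (L * (K₅ * A * (Y * Z))) * W + δ * (K₁ * 2 * (R * W)) := by ring
  rw [a7] at a3
  rw [a8] at a2
  linarith

/-- the choice of `θ` -/
private lemma LayCM_th {ι Kr : ℝ} (hι : 0 < ι) (hKr : 0 < Kr) :
    ∃ θ : ℝ, 0 < θ ∧ θ ≤ 1 ∧ θ * Kr ≤ ι / 4 ∧ Real.exp (θ * Kr) ≤ 8 / 7 := by
  have hlog : 0 < Real.log (8 / 7) := Real.log_pos (by norm_num)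
  refine ⟨min 1 (min (ι / 4 / Kr) (Real.log (8 / 7) / Kr)), by positivity, min_le_left _ _, ?_, ?_⟩
  · calc min 1 (min (ι / 4 / Kr) (Real.log (8 / 7) / Kr)) * Kr ≤ ι / 4 / Kr * Kr :=
          mul_le_mul_of_nonneg_right ((min_le_right _ _).trans (min_le_left _ _)) hKr.le
      _ = ι / 4 := div_mul_cancel₀ _ hKr.ne'
  · have h1 : min 1 (min (ι / 4 / Kr) (Real.log (8 / 7) / Kr)) * Kr ≤ Real.log (8 / 7) := by
      calc min 1 (min (ι / 4 / Kr) (Real.log (8 / 7) / Kr)) * Kr ≤ Real.log (8 / 7) / Kr * Kr :=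
            mul_le_mul_of_nonneg_right ((min_le_right _ _).trans (min_le_right _ _)) hKr.le
        _ = Real.log (8 / 7) := div_mul_cancel₀ _ hKr.ne'
    calc Real.exp (min 1 (min (ι / 4 / Kr) (Real.log (8 / 7) / Kr)) * Kr)
        ≤ Real.exp (Real.log (8 / 7)) := Real.exp_le_exp.2 h1
      _ = 8 / 7 := Real.exp_log (by norm_num)

private lemma LayCM_sign (x : ℝ) : ∃ e : ℝ, |e| = 1 ∧ e * x = |x| := by
  rcases le_total 0 x with h | h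
  · exact ⟨1, abs_one, by rw [one_mul, abs_of_nonneg h]⟩
  · exact ⟨-1, by rw [abs_neg, abs_one], by rw [neg_one_mul, abs_of_nonpos h]⟩

/-- a continuous nonnegative function with positive integral is bounded below on a ball -/
private lemma LayCM_ball {F : Vec d → ℝ} (hc : Continuous F) (hF0 : ∀ v, 0 ≤ F v)
    (hFm : 0 < ∫ v, F v) : ∃ (v₁ : Vec d) (r₀ m₀ : ℝ), 0 < r₀ ∧ 0 < m₀ ∧
      ∀ u, len (u - v₁) ≤ r₀ → m₀ ≤ F u := by
  obtain ⟨v₁, hv⟩ : ∃ v₁, 0 < F v₁ := by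
    by_contra hcon
    push Not at hcon
    have h1 : F = fun _ => 0 := funext fun v => le_antisymm (hcon v) (hF0 v)
    rw [h1, integral_zero] at hFm
    exact lt_irrefl _ hFm
  obtain ⟨r, hr, hb⟩ := Metric.continuous_iff.1 hc v₁ (F v₁ / 2) (by linarith)
  refine ⟨v₁, r / 2, F v₁ / 2, by linarith, by linarith, fun u hu => ?_⟩
  have h2 : dist u v₁ < r := by
    rw [dist_eq_norm]
    have h3 : ‖u - v₁‖ ≤ len (u - v₁) := norm_le_len _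
    linarith
  have h4 := hb u h2
  rw [Real.dist_eq] at h4
  have h5 := (abs_lt.1 h4).1
  linarith

private lemma LayCM_dot_add (k x y : Vec d) : dot k (x + y) = dot k x + dot k y := by
  unfold dot
  rw [← Finset.sum_add_distrib]
  refine Finset.sum_congr rfl fun i _ => ?_
  simp only [Pi.add_apply]
  ring

private lemma LayCM_dot_single (k : Vec d) (i : Fin d) : dot k (Pi.single i 1) = k i := by
  unfold dot
  rw [Finset.sum_eq_single i]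
  · simp
  · intro j _ hj
    rw [Pi.single_eq_of_ne hj]
    simp
  · intro h
    exact absurd (Finset.mem_univ i) h

private lemma LayCM_per {S : Vec d → Vec d → ℝ} (δ : ℝ) {n : ℕ} (F : Vec d → ℝ)
    (cc : Fin n → Vec d → ℝ) {k : Fin n → Vec d} (φ : Fin n → ℝ)
    (hk : ∀ j i, ∃ z : ℤ, k j i = z) (t : ℝ) (x v : Vec d) (i : Fin d) :
    fa S δ F cc k φ t (x + Pi.single i 1) v = fa S δ F cc k φ t x v := by
  unfold fa GG
  congr 1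
  refine Finset.sum_congr rfl fun j _ => ?_
  obtain ⟨z, hz⟩ := hk j i
  have e : 2 * Real.pi * dot (k j) (x + Pi.single i 1) + φ j - dot ((2 * Real.pi * t) • k j) v =
      (2 * Real.pi * dot (k j) x + φ j - dot ((2 * Real.pi * t) • k j) v) +
        z * (2 * Real.pi) := by
    rw [LayCM_dot_add, LayCM_dot_single, hz]
    ring
  rw [e, Real.cos_add_int_mul_two_pi]

/-- THE LAYER LEMMA for the kernel `δ b` -/
theorem layerC (HL : HypL d γ s b C Ca cb) (hb : IsKernel d s b) (hs : 2 * s < 1)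
    {α : ℝ} (h1 : 2 * s < α) (h2 : α ≤ 1) {F : Vec d → ℝ} {MF : ℝ} (hF : HR α (2 * d + 22) MF F)
    (hF0 : ∀ v, 0 ≤ F v) (hFm : 0 < ∫ v, F v) :
    ∃ Kst : ℝ, 0 ≤ Kst ∧ ∀ (n : ℕ) (M : ℝ) (a : Fin n → ℝ) (cc : Fin n → Vec d → ℝ)
      (k : Fin n → Vec d) (φ : Fin n → ℝ), Fam α (2 * d + 24) M a cc k →
    ∀ (B : ℕ → ℝ) (ι : ℝ), 0 < ι →
      2 * Real.exp (Kst * ∑ j, a j * len (k j) ^ (2 * s)) * ι ≤ 1 →
    ∃ θ : ℝ, 0 < θ ∧ ∃ U : ℕ → ℝ, ∀ δ : ℝ, 0 < δ → δ ≤ 1 → ∀ T : ℝ, δ * T ≤ θ →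
    ∀ f : ℝ → Vec d → Vec d → ℝ, IsBoltzmannSol γ (fun x => δ * b x) T f →
      (∀ N x v, (1 + ‖v‖) ^ N * f 0 x v ≤ B N) →
      (∀ x v, |f 0 x v - (F v + ∑ j, cc j v * Real.cos (2 * Real.pi * dot (k j) x + φ j))| ≤
        ι * Wp (d + 10) v) →
    ∀ t ∈ Ico 0 T, ∀ x v,
      |f t x v - F v| ≤ (2 * Real.exp (Kst * ∑ j, a j * len (k j) ^ (2 * s)) * ι +
        Kst * (∑ j, a j) / (1 + δ * t ^ (1 + 2 * s))) * Wp (d + 10) v ∧
      ∀ N, (1 + ‖v‖) ^ N * f t x v ≤ U N := by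
  have hs0 : 0 < s := HL.H.hs
  have hα0 : 0 < α := by linarith
  obtain ⟨v₁, r₀, m₀, hr, hm, hball⟩ := LayCM_ball (hr_cont hα0 hF) hF0 hFm
  obtain ⟨K, c, κ₀, hK⟩ := sg_K HL hs hα0 (q := 2 * d + 22) (by omega) MF hr hm
  have hS := hK F v₁ hF hF0 hball
  obtain ⟨S, hSd⟩ : ∃ S : Vec d → Vec d → ℝ, S = fun κ v => sgE γ b 0 F κ v := ⟨_, rfl⟩
  rw [← hSd] at hS
  obtain ⟨K₃, hK₃d⟩ : ∃ K₃ : ℝ, K₃ = kA s c κ₀ := ⟨_, rfl⟩
  have hK₃ : 1 ≤ K₃ := by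
    rw [hK₃d]
    exact (dam1 hs0 hS).1
  obtain ⟨K₅, hK₅, hOp⟩ := opUM HL.H hs h1 h2 K c κ₀ MF
  refine ⟨K₅ + K₃, by linarith, ?_⟩
  intro n M a cc k φ hFam B ι hι hsmall
  obtain ⟨p, hp⟩ : ∃ p, p = d + 10 := ⟨_, rfl⟩
  have ha0 : ∀ j, 0 ≤ a j := fun j => by
    have e1 := (abs_nonneg _).trans (hFam.ha j 0)
    exact nonneg_of_mul_nonneg_left e1 (Wp_pos _ _)
  obtain ⟨A, hA⟩ : ∃ A : ℝ, A = ∑ j, a j * len (k j) ^ (2 * s) := ⟨_, rfl⟩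
  have hA0 : 0 ≤ A := by
    rw [hA]
    exact Finset.sum_nonneg fun j _ => mul_nonneg (ha0 j) (Real.rpow_nonneg (len_nonneg _) _)
  have hSa0 : 0 ≤ ∑ j, a j := Finset.sum_nonneg fun j _ => ha0 j
  rw [← hA] at hsmall
  rw [← hA]
  have hs1 : 0 < 1 + 2 * s := by linarith
  obtain ⟨KA, hKA⟩ : ∃ KA : ℝ, KA = K₅ * A / (1 + 2 * s) := ⟨_, rfl⟩
  have hKA0 : 0 ≤ KA := by rw [hKA]; positivity
  have hKAm : KA * (1 + 2 * s) = K₅ * A := by rw [hKA, div_mul_cancel₀ _ hs1.ne']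
  have hKA1 : KA ≤ (K₅ + K₃) * A := by
    have e1 : KA ≤ K₅ * A := by
      rw [hKA]
      exact div_le_self (mul_nonneg hK₅ hA0) (by linarith)
    have e2 : 0 ≤ K₃ * A := mul_nonneg (by linarith) hA0
    linarith
  have hexpK : Real.exp KA ≤ Real.exp ((K₅ + K₃) * A) := Real.exp_le_exp.2 hKA1
  have hexpι : 2 * Real.exp KA * ι ≤ 2 * Real.exp ((K₅ + K₃) * A) * ι :=
    mul_le_mul_of_nonneg_right (mul_le_mul_of_nonneg_left hexpK (by norm_num)) hι.le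
  have hexp1 : 2 * Real.exp KA * ι ≤ 1 := hexpι.trans hsmall
  obtain ⟨M', hM'd⟩ : ∃ M' : ℝ, M' = kO s K c κ₀ M MF n (∑ j, len (k j)) := ⟨_, rfl⟩
  have hM'0 : 0 ≤ M' := by
    rw [hM'd]
    exact (osc hs0 hα0 hS (2 * d + 20) n M MF F a cc k hF hFam).1
  have hfa := (osc hs0 hα0 hS (2 * d + 20) n M MF F a cc k hF hFam).2
  rw [← hM'd, ← hK₃d] at hfa
  obtain ⟨A₁, hA₁⟩ : ∃ A₁ : ℝ, A₁ = M' + 1 := ⟨_, rfl⟩
  obtain ⟨U, hU⟩ := prpDM HL.H.hd ⟨hs0, HL.H.hs1⟩ (gam_ge HL.H hs) HL.H.h0 HL.H.h2 hb (p := p)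
    hp.ge A₁ B
  obtain ⟨Mf, hMf⟩ : ∃ Mf : ℝ, Mf = ((d : ℝ) + 1) ^ (p + 1) * |U (2 * (p + 1))| := ⟨_, rfl⟩
  have hMf0 : 0 ≤ Mf := by rw [hMf]; positivity
  obtain ⟨K₁, hK₁, hOp1⟩ := hOp n M a k Mf 0 hFam.hk0
  obtain ⟨ρ, hρ⟩ : ∃ ρ : ℝ, ρ = (Mf + M') / ι := ⟨_, rfl⟩
  have hρ0 : 0 ≤ ρ := by rw [hρ]; positivity
  obtain ⟨Kr, hKr⟩ : ∃ Kr : ℝ, Kr = 2 * K₁ * ρ ^ (p + 2) + 1 := ⟨_, rfl⟩
  have hKr0 : 0 < Kr := by rw [hKr]; positivity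
  obtain ⟨θ, hθ0, hθ1, hθr, hθe⟩ := LayCM_th hι hKr0
  refine ⟨θ, hθ0, U, ?_⟩
  intro δ hδ hδ1 T hT f hf hf0 hdf
  have hf' : IsClassicalSol T (fun t x => boltzQ γ (fun x => δ * b x) (f t x)) f := hf
  rw [← hp] at hdf ⊢
  have hBle : ∀ t, 0 ≤ t → δ * t ≤ θ → 3 / 2 * ι ≤ Bq s δ ι Kr Kr KA t ∧
      Bq s δ ι Kr Kr KA t ≤ 2 * Real.exp KA * ι := fun t ht h =>
    bar_le hδ hι hKr0.le hKr0.le hKA0 hθr hθe ht h
  have hδt : ∀ t ∈ Ico 0 T, δ * t ≤ θ := fun t ht =>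
    (mul_le_mul_of_nonneg_left ht.2.le hδ.le).trans hT
  have hfaw : ∀ t, 0 ≤ t → ∀ q, q ≤ 2 * d + 20 → ∀ x v,
      |fa S δ F cc k φ t x v| ≤ M' * Wp q v := fun t ht q hq x v =>
    ((hfa δ hδ hδ1 t ht φ x v).1).trans (mul_le_mul_of_nonneg_left (LayCM_wp hq v) hM'0)
  have hfA : ∀ τ, 0 ≤ τ → δ * τ ≤ θ → ∀ y w,
      |f τ y w - fa S δ F cc k φ τ y w| < Bq s δ ι Kr Kr KA τ * Wp p w →
      f τ y w ≤ A₁ * Wp p w := by
    intro τ hτ hτθ y w h3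
    have h4 := (abs_lt.1 h3).2
    have h5 := (abs_le.1 (hfaw τ hτ p (by omega) y w)).2
    have h6 := Wp_pos p w
    have h7 : Bq s δ ι Kr Kr KA τ * Wp p w ≤ 1 * Wp p w :=
      mul_le_mul_of_nonneg_right ((hBle τ hτ hτθ).2.trans hexp1) h6.le
    rw [hA₁]
    linarith
  have key : ∀ t ∈ Ico 0 T, ∀ x v,
      |f t x v - fa S δ F cc k φ t x v| < Bq s δ ι Kr Kr KA t * Wp p v := by
    intro t ht x v
    by_contra hcon
    push Not at hcon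
    have hcgt : CG t (p + 1) M' (fa S δ F cc k φ) := by
      refine ⟨(fa_cont hs0 hα0 hS hF hFam φ δ).continuousOn, fun τ _ y w i => ?_,
        fun τ hτ y w => hfaw τ hτ.1 (p + 1) (by omega) y w⟩
      exact LayCM_per δ F cc φ hFam.hk τ y w i
    have hB0 : ∀ τ ∈ Icc 0 t, 0 < Bq s δ ι Kr Kr KA τ := fun τ hτ =>
      lt_of_lt_of_le (by positivity) (hBle τ hτ.1
        ((mul_le_mul_of_nonneg_left hτ.2 hδ.le).trans (hδt t ht))).1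
    obtain ⟨t₀, ht₀, x₀, v₀, heq, hlt, hle⟩ := tch3 hf' p hcgt ht.1 ht.2
      (B := fun τ => Bq s δ ι Kr Kr KA τ) ((bar_cont hs0 hδ).mono fun τ h => h.1) hB0
      (fun y w => by
        show |f 0 y w - fa S δ F cc k φ 0 y w| < Bq s δ ι Kr Kr KA 0 * Wp p w
        rw [fa_zero]
        refine (hdf y w).trans_lt ?_
        have e1 := (hBle 0 le_rfl (by rw [mul_zero]; exact hθ0.le)).1
        exact mul_lt_mul_of_pos_right (by linarith) (Wp_pos p w))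
      ⟨t, ⟨ht.1, le_rfl⟩, x, v, hcon⟩
    have ht₀T : t₀ ∈ Ioo 0 T := ⟨ht₀.1, ht₀.2.trans_lt ht.2⟩
    have ht₀C : t₀ ∈ Ico 0 T := ⟨ht₀.1.le, ht₀T.2⟩
    have ht₀θ : δ * t₀ ≤ θ := hδt t₀ ht₀C
    obtain ⟨L, hL⟩ : ∃ L : ℝ, L = Bq s δ ι Kr Kr KA t₀ := ⟨_, rfl⟩
    have hLb := hBle t₀ ht₀.1.le ht₀θ
    rw [← hL] at hLb
    have hLι : ι ≤ L := by linarith [hLb.1]
    have hL0 : 0 ≤ L := hι.le.trans hLι
    have hL1 : L ≤ 1 := hLb.2.trans hexp1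
    have hdif : ∀ u, |f t₀ x₀ u - fa S δ F cc k φ t₀ x₀ u| ≤ L * Wp p u := fun u => by
      rw [hL]; exact hle x₀ u
    have heqL : |f t₀ x₀ v₀ - fa S δ F cc k φ t₀ x₀ v₀| = L * Wp p v₀ := by
      rw [hL]; exact heq
    have hUt := hU δ hδ hδ1 t₀ (ht₀θ.trans hθ1) f
      (Pool.Agent.H48.PI.sol_restrict hf' ht₀T.2.le) hf0
      (fun τ hτ y w => hfA τ hτ.1 (hδt τ ⟨hτ.1, hτ.2.trans ht₀T.2⟩) y w (hlt τ hτ y w))
    have hU0 : ∀ N w, (1 + ‖w‖) ^ N * f t₀ x₀ w ≤ U N := fun N w =>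
      LayCM_ext hf' ht₀T fun τ hτ => hUt τ hτ N x₀ w
    have hf1 : ∀ w, f t₀ x₀ w ≤ Mf * Wp (p + 1) w := fun w => by
      rw [hMf]
      exact LayCM_le (hf'.nonneg t₀ ht₀C x₀ w) (hU0 (2 * (p + 1)) w)
    have hf2 : ∀ w, f t₀ x₀ w ≤ Mf * Wp p w := fun w =>
      (hf1 w).trans (mul_le_mul_of_nonneg_left (LayCM_wp (Nat.le_succ p) w) hMf0)
    have hv : L * Wp p v₀ ≤ (Mf + M') * Wp (p + 1) v₀ := by
      rw [← heqL]
      have e1 := hf1 v₀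
      have e2 := hf'.nonneg t₀ ht₀C x₀ v₀
      have e3 := abs_le.1 (hfaw t₀ ht₀.1.le (p + 1) (by omega) x₀ v₀)
      have e4 := Wp_pos (p + 1) v₀
      have e5 : 0 ≤ Mf * Wp (p + 1) v₀ := mul_nonneg hMf0 e4.le
      rw [abs_le, add_mul]
      constructor
      · linarith [e3.2]
      · linarith [e3.1]
    obtain ⟨-, hq⟩ := LayCM_v hι hLι hv
    rw [← hρ] at hq
    obtain ⟨e, he, hsg⟩ := LayCM_sign (f t₀ x₀ v₀ - fa S δ F cc k φ t₀ x₀ v₀)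
    rw [heqL] at hsg
    have hW := Wp_pos p v₀
    have hdf0 := char_deriv hf' ht₀T x₀ v₀
    have hdg0 := fa_char hs0 hS δ F cc k φ t₀ x₀ v₀
    have hχ := (hdf0.sub hdg0).const_mul e
    obtain ⟨B', hB', hB'le⟩ := bar_der hs0 hδ hι hKr0.le hKr0.le hKA0 ht₀.1
    have hE : HasDerivAt (fun τ : ℝ => Bq s δ ι Kr Kr KA (t₀ + τ) * Wp p v₀)
        (B' * Wp p v₀) 0 := by
      have e2 : HasDerivAt (fun τ : ℝ => t₀ + τ) 1 0 := (hasDerivAt_id (0 : ℝ)).const_add t₀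
      have e3 : HasDerivAt (fun t => Bq s δ ι Kr Kr KA t) B' (t₀ + 0) := by
        rw [add_zero]; exact hB'
      have e4 := HasDerivAt.comp (0 : ℝ) e3 e2
      rw [mul_one] at e4
      exact e4.mul_const (Wp p v₀)
    have hcmp := LayCM_cmp hχ hE (by
      show e * (f (t₀ + 0) (x₀ + (0 : ℝ) • v₀) v₀ -
        fa S δ F cc k φ (t₀ + 0) (x₀ + (0 : ℝ) • v₀) v₀) =
          Bq s δ ι Kr Kr KA (t₀ + 0) * Wp p v₀
      rw [add_zero, zero_smul, add_zero, hsg, hL]) (by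
      filter_upwards [Ioo_mem_nhdsGT ht₀.1] with τ hτ
      have e1 := (hlt (t₀ + -τ) ⟨by linarith [hτ.2], by linarith [hτ.1]⟩
        (x₀ + (-τ) • v₀) v₀).le
      refine le_trans ?_ e1
      refine (le_abs_self _).trans ?_
      show |e * (f (t₀ + -τ) (x₀ + (-τ) • v₀) v₀ -
        fa S δ F cc k φ (t₀ + -τ) (x₀ + (-τ) • v₀) v₀)| ≤ _
      rw [abs_mul, he, one_mul])
    have hnice : Nice (f t₀ x₀) := IsClassicalSol.nice hf' ht₀T x₀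
    have hsc := Pool.Agent.H25.PN.boltzQ_scale HL.H.hd hs0 HL.H.hs1 HL.H.h0 HL.H.h2 hb δ hnice v₀
    have hopv := hOp1 S F cc hS hF hFam δ hδ hδ1 t₀ ht₀.1 (fun κ v => by
        rw [hSd, sub_self, abs_zero]
        simp) φ x₀ (f t₀ x₀) hnice
      (fun u => hf'.nonneg t₀ ht₀C x₀ u) (by rw [← hp]; exact hf2) L hL0
      (by rw [← hp]; exact hdif) e v₀ he (by rw [← hp]; exact hsg)
    rw [← hp, ← hA] at hopv
    have hR0 : 0 ≤ ρ ^ (p + 2) := pow_nonneg hρ0 _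
    refine LayCM_con hδ hW hL0 hL1 hK₁ hR0 hKr hKAm hq (le_trans hcmp (le_of_eq ?_)) hopv
      (by rw [hL]; exact hB'le)
    show e * (boltzQ γ (fun x => δ * b x) (f t₀ x₀) v₀ - _) = _
    rw [hsc]
    ring
  intro t ht x v
  have hk := key t ht x v
  have hW := Wp_pos p v
  refine ⟨?_, fun N => hU δ hδ hδ1 T (hT.trans hθ1) f hf hf0
    (fun τ hτ y w => hfA τ hτ.1 (hδt τ hτ) y w (key τ hτ y w)) t ht N x v⟩
  have e1 := (hfa δ hδ hδ1 t ht.1 φ x v).2.1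
  have hX : 0 < 1 + δ * t ^ (1 + 2 * s) := by
    have := Real.rpow_nonneg ht.1 (1 + 2 * s)
    positivity
  have e2 : K₃ * (∑ j, a j) / (1 + δ * t ^ (1 + 2 * s)) * Wp (2 * d + 20) v ≤
      (K₅ + K₃) * (∑ j, a j) / (1 + δ * t ^ (1 + 2 * s)) * Wp p v := by
    have e3 : K₃ * (∑ j, a j) ≤ (K₅ + K₃) * (∑ j, a j) :=
      mul_le_mul_of_nonneg_right (by linarith) hSa0
    exact mul_le_mul (div_le_div_of_nonneg_right e3 hX.le) (LayCM_wp (by omega) v)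
      (Wp_pos _ v).le (by positivity)
  have e4 : Bq s δ ι Kr Kr KA t * Wp p v ≤ 2 * Real.exp ((K₅ + K₃) * A) * ι * Wp p v :=
    mul_le_mul_of_nonneg_right ((hBle t ht.1 (hδt t ht)).2.trans hexpι) hW.le
  have e5 : |f t x v - F v| ≤ |f t x v - fa S δ F cc k φ t x v| +
      |fa S δ F cc k φ t x v - F v| := abs_sub_le _ _ _
  rw [add_mul]
  linarith

end Pool.Agent.H82.HM
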