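import Pool.Agent.H82.HW.LayW
import Pool.Agent.H82.HM.FootM
import Pool.Agent.H82.HM.OpUM
import Pool.Agent.H82.HM.PrpM

/-!
# Block M (MP_c15324_an), soft potentials, module LayM: THE LAYER LEMMA WITH A SLOW VARIABLE, `0 ≤ γ + 2s ≤ 2`, `2s < 1`

As HW/LayW for `0 ≤ γ + 2s ≤ 2` (so `γ > -1`), with coefficients of the class `2d+24`.
-/

set_option autoImplicit false

open MeasureTheory Set Filter Topology Pool.Agent.H25.Kin Pool.Agent.H48.PL Pool.Agent.H48.PD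
open Pool.Agent.H82.BK Pool.Agent.H82.CM Pool.Agent.H48.PR
open Pool.Agent.H82.HF (HR hr_cont hr_mono Fam fa GG Am Dm CG fa_zero Bq bar_cont
  bar_der bar_le tch3)
open Pool.Agent.H15.HF (sgE)
open Pool.Agent.H15.HF.M (gam_ge)
open Pool.Agent.H82.HW (HRy FamY ft sgF foot_min foot_lip foot_len ft_hr hry_cont low_ball fw
  fw_per fw_zero hry_mono famY_mono fam_ft)

namespace Pool.Agent.H82.HM

variable {d : ℕ} {γ s C Ca cb : ℝ} {b : ℝ → ℝ}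

/-- pointwise decay from a weighted bound -/
private lemma LayM_le {q : ℕ} {v : Vec d} {a c : ℝ} (ha : 0 ≤ a) (h : (1 + ‖v‖) ^ (2 * q) * a ≤ c) :
    a ≤ ((d : ℝ) + 1) ^ q * |c| * Wp q v := by
  have hn := norm_nonneg v
  have h2 : 1 + nsq v ≤ ((d : ℝ) + 1) * (1 + ‖v‖) ^ 2 := by
    have h3 := sq_le v
    have h4 : (0 : ℝ) ≤ d := Nat.cast_nonneg _
    nlinarith [mul_nonneg h4 hn]
  have h5 : (1 + nsq v) ^ q ≤ ((d : ℝ) + 1) ^ q * (1 + ‖v‖) ^ (2 * q) := by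
    rw [pow_mul, ← mul_pow]
    exact pow_le_pow_left₀ (by have := sq_nonneg' v; linarith) h2 q
  have h6 : 0 < (1 + nsq v) ^ q := by
    have := sq_nonneg' v
    positivity
  rw [Wp, ← div_eq_mul_inv, le_div_iff₀ h6]
  calc a * (1 + nsq v) ^ q ≤ a * (((d : ℝ) + 1) ^ q * (1 + ‖v‖) ^ (2 * q)) :=
        mul_le_mul_of_nonneg_left h5 ha
    _ = ((d : ℝ) + 1) ^ q * ((1 + ‖v‖) ^ (2 * q) * a) := by ring
    _ ≤ ((d : ℝ) + 1) ^ q * |c| := by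
        gcongr
        exact h.trans (le_abs_self c)

/-- extension of bounds by continuity in time -/
private lemma LayM_ext {T : ℝ} {Q f : ℝ → Vec d → Vec d → ℝ} (hf : IsClassicalSol T Q f) {t₀ : ℝ}
    (ht : t₀ ∈ Ioo 0 T) {A c : ℝ} {x v : Vec d} (h : ∀ t ∈ Ico 0 t₀, A * f t x v ≤ c) :
    A * f t₀ x v ≤ c := by
  have hc : ContinuousOn (fun t : ℝ => A * f t x v) (Ico 0 T) := by
    have h3 : ContinuousOn (fun t : ℝ => unc f (t, x, v)) (Ico 0 T) :=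
      ContinuousOn.comp (show ContinuousOn (unc f) (Ico 0 T ×ˢ univ) from hf.isCont)
        (Continuous.continuousOn (by fun_prop)) fun t ht => ⟨ht, mem_univ _⟩
    exact h3.const_mul A
  have hne : (𝓝[Ico 0 t₀] t₀).NeBot := by
    rw [← mem_closure_iff_nhdsWithin_neBot, closure_Ico ht.1.ne]
    exact ⟨ht.1.le, le_rfl⟩
  have hs : Ico 0 t₀ ⊆ Ico 0 T := fun t ht' => ⟨ht'.1, ht'.2.trans ht.2⟩
  have l1 : Tendsto (fun t : ℝ => A * f t x v) (𝓝[Ico 0 t₀] t₀) (𝓝 (A * f t₀ x v)) :=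
    (hc t₀ ⟨ht.1.le, ht.2⟩).mono hs
  refine le_of_tendsto l1 ?_
  filter_upwards [self_mem_nhdsWithin] with t ht'
  exact h t ht'

/-- the derivative at a touching point -/
private lemma LayM_der {g : ℝ → ℝ} {g' : ℝ} (hg : HasDerivAt g g' 0) (h0 : g 0 = 0)
    (h : ∀ᶠ τ in 𝓝[>] (0 : ℝ), 0 ≤ g (-τ)) : g' ≤ 0 := by
  have h1 : HasDerivAt (fun τ : ℝ => -g (-τ)) g' 0 := by
    have hn : HasDerivAt (fun τ : ℝ => -τ) (-1) 0 := hasDerivAt_neg' (0 : ℝ)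
    have hd' : HasDerivAt g g' (-(0 : ℝ)) := by rwa [neg_zero]
    have h3 := (hd'.comp (0 : ℝ) hn).neg
    rw [mul_neg, mul_one, neg_neg] at h3
    exact h3
  have h2 := h1.tendsto_slope_zero_right
  refine le_of_tendsto h2 ?_
  filter_upwards [h, self_mem_nhdsWithin] with τ h3 h4
  have h4' : 0 < τ := h4
  rw [zero_add, smul_eq_mul, neg_zero, h0, neg_zero, sub_zero]
  exact mul_nonpos_of_nonneg_of_nonpos (inv_nonneg.2 h4'.le) (by linarith)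

/-- comparison of derivatives at a touching point -/
private lemma LayM_cmp {φ E : ℝ → ℝ} {φ' E' : ℝ} (hφ : HasDerivAt φ φ' 0) (hE : HasDerivAt E E' 0)
    (h0 : φ 0 = E 0) (h : ∀ᶠ τ in 𝓝[>] (0 : ℝ), φ (-τ) ≤ E (-τ)) : E' ≤ φ' := by
  have h1 : E' - φ' ≤ 0 := by
    refine LayM_der (hE.sub hφ) ?_ ?_
    · show E 0 - φ 0 = 0
      rw [h0, sub_self]
    · filter_upwards [h] with τ hτ
      show 0 ≤ E (-τ) - φ (-τ)
      linarith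
  linarith

private lemma LayM_wp {q q' : ℕ} (h : q' ≤ q) (v : Vec d) : Wp q v ≤ Wp q' v := by
  have h1 : 1 ≤ 1 + nsq v := by
    have := sq_nonneg' v
    linarith
  unfold Wp
  exact inv_anti₀ (pow_pos (by linarith) _) (pow_le_pow_right₀ h1 h)

private lemma LayM_wps (p : ℕ) (v : Vec d) : Wp (p + 1) v * (1 + nsq v) = Wp p v := by
  have h3 := sq_nonneg' v
  have h31 : 1 + nsq v ≠ 0 := by positivity
  unfold Wp
  rw [pow_succ, mul_inv, inv_mul_cancel_right₀ h31]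

private lemma LayM_cg {T₁ : ℝ} {q q' : ℕ} (h : q' ≤ q) {M : ℝ} (hM : 0 ≤ M)
    {g : ℝ → Vec d → Vec d → ℝ} (hg : CG T₁ q M g) : CG T₁ q' M g :=
  ⟨hg.cont, hg.per, fun t ht x v =>
    (hg.dec t ht x v).trans (mul_le_mul_of_nonneg_left (LayM_wp h v) hM)⟩

/-- the touching points are bounded -/
private lemma LayM_v {p : ℕ} {ι L A : ℝ} {v : Vec d} (hι : 0 < ι) (hL : ι ≤ L)
    (h : L * Wp p v ≤ A * Wp (p + 1) v) :
    1 + nsq v ≤ A / ι ∧ (1 + nsq v) ^ 2 ≤ (A / ι) ^ (p + 2) * Wp p v := by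
  have h3 := sq_nonneg' v
  have hw : 0 < 1 + nsq v := by linarith
  have hW := Wp_pos p v
  have h4 : L * (1 + nsq v) * Wp p v ≤ A * Wp p v := by
    calc L * (1 + nsq v) * Wp p v = (L * Wp p v) * (1 + nsq v) := by ring
      _ ≤ (A * Wp (p + 1) v) * (1 + nsq v) := mul_le_mul_of_nonneg_right h hw.le
      _ = A * (Wp (p + 1) v * (1 + nsq v)) := by ring
      _ = A * Wp p v := by rw [LayM_wps]
  have h5 : L * (1 + nsq v) ≤ A := le_of_mul_le_mul_right h4 hW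
  have h6 : 1 + nsq v ≤ A / ι := by
    rw [le_div_iff₀ hι]
    calc (1 + nsq v) * ι ≤ (1 + nsq v) * L := mul_le_mul_of_nonneg_left hL hw.le
      _ = L * (1 + nsq v) := mul_comm _ _
      _ ≤ A := h5
  refine ⟨h6, ?_⟩
  have h7 : (1 + nsq v) ^ 2 = (1 + nsq v) ^ (p + 2) * Wp p v := by
    have h8 := Wp_mul p v
    calc (1 + nsq v) ^ 2 = (Wp p v * (1 + nsq v) ^ p) * (1 + nsq v) ^ 2 := by rw [h8, one_mul]
      _ = (1 + nsq v) ^ (p + 2) * Wp p v := by ring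
  rw [h7]
  exact mul_le_mul_of_nonneg_right (pow_le_pow_left₀ hw.le h6 _) hW.le

/-- the final contradiction -/
private lemma LayM_con {δ s L Kr K₁ R KA K₅ A Y Z B' W q E : ℝ} (hδ : 0 < δ) (hW : 0 < W)
    (hL : 0 ≤ L) (hL1 : L ≤ 1) (hK₁ : 0 ≤ K₁) (hR : 0 ≤ R) (hKr : Kr = 2 * K₁ * R + 1)
    (hKA : KA * (1 + 2 * s) = K₅ * A) (hq : q ≤ R * W) (h1 : B' * W ≤ δ * E)
    (h2 : E ≤ L * (K₅ * A * (Y * Z) * W) + K₁ * (1 + L) * q)
    (h3 : δ * Kr + L * (δ * Kr + KA * ((1 + 2 * s) * δ * Y * Z)) ≤ B') : False := by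
  have a1 : K₁ * (1 + L) * q ≤ K₁ * 2 * (R * W) := by
    have b1 : K₁ * (1 + L) * q ≤ K₁ * (1 + L) * (R * W) :=
      mul_le_mul_of_nonneg_left hq (by positivity)
    have b2 : K₁ * (1 + L) * (R * W) ≤ K₁ * 2 * (R * W) :=
      mul_le_mul_of_nonneg_right (mul_le_mul_of_nonneg_left (by linarith) hK₁) (by positivity)
    exact b1.trans b2
  have a2 : δ * E ≤ δ * (L * (K₅ * A * (Y * Z) * W) + K₁ * 2 * (R * W)) :=
    mul_le_mul_of_nonneg_left (by linarith) hδ.le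
  have a3 := mul_le_mul_of_nonneg_right h3 hW.le
  have a4 : L * (δ * Kr + KA * ((1 + 2 * s) * δ * Y * Z)) =
      L * (δ * Kr) + δ * (L * (K₅ * A * (Y * Z))) := by
    rw [← hKA]
    ring
  rw [a4, add_mul, add_mul] at a3
  have a5 : 0 ≤ L * (δ * Kr) * W := by
    have : 0 ≤ Kr := by rw [hKr]; positivity
    positivity
  have a6 : 0 < δ * W := mul_pos hδ hW
  have a7 : δ * Kr * W = δ * (K₁ * 2 * (R * W)) + δ * W := by
    rw [hKr]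
    ring
  have a8 : δ * (L * (K₅ * A * (Y * Z) * W) + K₁ * 2 * (R * W)) =
      δ * (L * (K₅ * A * (Y * Z))) * W + δ * (K₁ * 2 * (R * W)) := by ring
  rw [a7] at a3
  rw [a8] at a2
  linarith

/-- the choice of `θ` -/
private lemma LayM_th {ι Kr : ℝ} (hι : 0 < ι) (hKr : 0 < Kr) :
    ∃ θ : ℝ, 0 < θ ∧ θ ≤ 1 ∧ θ * Kr ≤ ι / 4 ∧ Real.exp (θ * Kr) ≤ 8 / 7 := by
  have hlog : 0 < Real.log (8 / 7) := Real.log_pos (by norm_num)
  refine ⟨min 1 (min (ι / 4 / Kr) (Real.log (8 / 7) / Kr)), by positivity, min_le_left _ _, ?_, ?_⟩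
  · calc min 1 (min (ι / 4 / Kr) (Real.log (8 / 7) / Kr)) * Kr ≤ ι / 4 / Kr * Kr :=
          mul_le_mul_of_nonneg_right ((min_le_right _ _).trans (min_le_left _ _)) hKr.le
      _ = ι / 4 := div_mul_cancel₀ _ hKr.ne'
  · have h1 : min 1 (min (ι / 4 / Kr) (Real.log (8 / 7) / Kr)) * Kr ≤ Real.log (8 / 7) := by
      calc min 1 (min (ι / 4 / Kr) (Real.log (8 / 7) / Kr)) * Kr ≤ Real.log (8 / 7) / Kr * Kr :=
            mul_le_mul_of_nonneg_right ((min_le_right _ _).trans (min_le_right _ _)) hKr.le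
        _ = Real.log (8 / 7) := div_mul_cancel₀ _ hKr.ne'
    calc Real.exp (min 1 (min (ι / 4 / Kr) (Real.log (8 / 7) / Kr)) * Kr)
        ≤ Real.exp (Real.log (8 / 7)) := Real.exp_le_exp.2 h1
      _ = 8 / 7 := Real.exp_log (by norm_num)

private lemma LayM_sign (x : ℝ) : ∃ e : ℝ, |e| = 1 ∧ e * x = |x| := by
  rcases le_total 0 x with h | h
  · exact ⟨1, abs_one, by rw [one_mul, abs_of_nonneg h]⟩
  · exact ⟨-1, by rw [abs_neg, abs_one], by rw [neg_one_mul, abs_of_nonpos h]⟩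

/-- the change of the slow variable along a short characteristic -/
private lemma LayM_slow {α MF : ℝ} {q p : ℕ} (hq : p + 1 ≤ q) {F : Vec d → Vec d → ℝ}
    (hF : HRy α q MF F) {t : ℝ} (ht : 0 ≤ t) (x v : Vec d) :
    |ft t x F v - F x v| ≤ MF * t * Wp p v := by
  have hM := (hF.hr x).nn
  have h1 := hF.lip (x - t • v) x v
  have h2 : len (x - t • v - x) = t * len v := by
    have e : x - t • v - x = t • (-v) := by
      rw [smul_neg]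
      abel
    rw [e, len_smul ht]
    congr 1
    unfold len nsq
    simp
  rw [h2] at h1
  have n1 := sq_nonneg' v
  have h3 : len v ≤ 1 + nsq v := by
    have h9 : len v ≤ (1 + len v ^ 2) / 2 := by nlinarith [sq_nonneg (len v - 1)]
    rw [len_sq] at h9
    linarith
  have hW := Wp_pos q v
  have h4 : Wp q v ≤ Wp (p + 1) v := LayM_wp hq v
  have hW1 := Wp_pos (p + 1) v
  calc |ft t x F v - F x v| ≤ MF * (t * len v) * Wp q v := h1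
    _ ≤ MF * (t * (1 + nsq v)) * Wp (p + 1) v := by
        have := len_nonneg v
        gcongr
    _ = MF * t * (Wp (p + 1) v * (1 + nsq v)) := by ring
    _ = MF * t * Wp p v := by rw [LayM_wps]

private lemma LayM_X {N t s : ℝ} (hN : 0 < N) (ht : 0 ≤ t) :
    N⁻¹ * (N * t) ^ (1 + 2 * s) = N ^ (2 * s) * t ^ (1 + 2 * s) := by
  rw [Real.mul_rpow hN.le ht, Real.rpow_add hN, Real.rpow_one]
  field_simp

/-- THE LAYER LEMMA WITH A SLOW VARIABLE, comparison with the value at the foot -/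
theorem layerM0 (HL : HypL d γ s b C Ca cb) (hb : IsKernel d s b) (hs : 2 * s < 1)
    {α : ℝ} (h1 : 2 * s < α) (h2 : α ≤ 1) {F : Vec d → Vec d → ℝ} {MF : ℝ}
    (hF : HRy α (2 * d + 22) MF F) (hF0 : ∀ y v, 0 ≤ F y v) (hFm : ∀ y, 0 < ∫ v, F y v) :
    ∃ Kst : ℝ, 0 ≤ Kst ∧ ∀ (n : ℕ) (M : ℝ) (a : Fin n → ℝ) (cc : Fin n → Vec d → Vec d → ℝ)
      (k : Fin n → Vec d) (φ : Fin n → ℝ), FamY α (2 * d + 24) M a cc k →
    ∀ (B : ℕ → ℝ) (ι : ℝ), 0 < ι →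
      2 * Real.exp (Kst * ∑ j, a j * len (k j) ^ (2 * s)) * ι ≤ 1 →
    ∃ θ : ℝ, 0 < θ ∧ ∃ U : ℕ → ℝ, ∀ N : ℕ, 1 ≤ N → ∀ T : ℝ, T ≤ θ →
    ∀ f : ℝ → Vec d → Vec d → ℝ, IsBoltzmannSol γ b T f →
      (∀ m x v, (1 + ‖v‖) ^ m * f 0 x v ≤ B m) →
      (∀ x v, |f 0 x v - (F x v + ∑ j, cc j x v *
        Real.cos (2 * Real.pi * dot (k j) ((N : ℝ) • x) + φ j))| ≤ ι * Wp (d + 10) v) →
    ∀ t ∈ Ico 0 T, ∀ x v,
      |f t x v - F (x - t • v) v| ≤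
        (2 * Real.exp (Kst * ∑ j, a j * len (k j) ^ (2 * s)) * ι +
        Kst * (∑ j, a j) / (1 + (N : ℝ)⁻¹ * ((N : ℝ) * t) ^ (1 + 2 * s))) * Wp (d + 10) v ∧
      ∀ m, (1 + ‖v‖) ^ m * f t x v ≤ U m := by
  have hs0 : 0 < s := HL.H.hs
  have hα0 : 0 < α := by linarith
  have hMF : 0 ≤ MF := (hF.hr 0).nn
  obtain ⟨K, c, κ₀, hSy, hSf⟩ := sgF_K HL hs hα0 h2 (q := 2 * d + 22) (by omega) hF hF0 hFm
  obtain ⟨Kd, hKd, hdiff⟩ := sg_diffM HL.H hs (q := 2 * d + 22) (by omega)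
  obtain ⟨K₃, hK₃d⟩ : ∃ K₃ : ℝ, K₃ = kA s c κ₀ := ⟨_, rfl⟩
  have hK₃ : 1 ≤ K₃ := by
    rw [hK₃d]
    exact (dam1 hs0 (hSy 0)).1
  obtain ⟨K₅, hK₅, hOp⟩ := opUM HL.H hs h1 h2 K c κ₀ (3 * MF)
  refine ⟨K₅ + K₃, by linarith, ?_⟩
  intro n M a cc k φ hFam B ι hι hsmall
  obtain ⟨p, hp⟩ : ∃ p, p = d + 10 := ⟨_, rfl⟩
  have ha0 : ∀ j, 0 ≤ a j := fun j => by
    have e1 := (abs_nonneg _).trans (hFam.ha j 0 0)
    exact nonneg_of_mul_nonneg_left e1 (Wp_pos _ _)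
  obtain ⟨A, hA⟩ : ∃ A : ℝ, A = ∑ j, a j * len (k j) ^ (2 * s) := ⟨_, rfl⟩
  have hA0 : 0 ≤ A := by
    rw [hA]
    exact Finset.sum_nonneg fun j _ => mul_nonneg (ha0 j) (Real.rpow_nonneg (len_nonneg _) _)
  have hSa0 : 0 ≤ ∑ j, a j := Finset.sum_nonneg fun j _ => ha0 j
  rw [← hA] at hsmall
  rw [← hA]
  have hs1 : 0 < 1 + 2 * s := by linarith
  obtain ⟨KA, hKA⟩ : ∃ KA : ℝ, KA = K₅ * A / (1 + 2 * s) := ⟨_, rfl⟩
  have hKA0 : 0 ≤ KA := by rw [hKA]; positivity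
  have hKAm : KA * (1 + 2 * s) = K₅ * A := by rw [hKA, div_mul_cancel₀ _ hs1.ne']
  have hKA1 : KA ≤ (K₅ + K₃) * A := by
    have e1 : KA ≤ K₅ * A := by
      rw [hKA]
      exact div_le_self (mul_nonneg hK₅ hA0) (by linarith)
    have e2 : 0 ≤ K₃ * A := mul_nonneg (by linarith) hA0
    linarith
  have hexpK : Real.exp KA ≤ Real.exp ((K₅ + K₃) * A) := Real.exp_le_exp.2 hKA1
  have hexpι : 2 * Real.exp KA * ι ≤ 2 * Real.exp ((K₅ + K₃) * A) * ι :=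
    mul_le_mul_of_nonneg_right (mul_le_mul_of_nonneg_left hexpK (by norm_num)) hι.le
  have hexp1 : 2 * Real.exp KA * ι ≤ 1 := hexpι.trans hsmall
  obtain ⟨M', hM'd⟩ : ∃ M' : ℝ, M' = kO s K c κ₀ (3 * M) (3 * MF) n (∑ j, len (k j)) := ⟨_, rfl⟩
  have hosc : ∀ t : ℝ, 0 ≤ t → t ≤ 1 → ∀ x : Vec d, _ := fun t ht ht1 x =>
    osc hs0 hα0 (hSf t ht ht1 x) (2 * d + 20) n (3 * M) (3 * MF) (ft t x F) a
      (fun j => ft t x (cc j)) k (ft_hr hα0 h2 hF ht ht1 x) (fam_ft hα0 h2 hFam ht ht1 x)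
  have hM'0 : 0 ≤ M' := by
    rw [hM'd]
    exact (hosc 0 le_rfl zero_le_one 0).1
  obtain ⟨A₁, hA₁⟩ : ∃ A₁ : ℝ, A₁ = M' + 1 := ⟨_, rfl⟩
  obtain ⟨U, hU⟩ := prpM HL.H.hd ⟨hs0, HL.H.hs1⟩ (gam_ge HL.H hs) HL.H.h0 HL.H.h2 hb (p := p)
    hp.ge 1 A₁ B
  obtain ⟨Mf, hMf⟩ : ∃ Mf : ℝ, Mf = ((d : ℝ) + 1) ^ (p + 1) * |U (2 * (p + 1))| := ⟨_, rfl⟩
  have hMf0 : 0 ≤ Mf := by rw [hMf]; positivity
  obtain ⟨K₁, hK₁, hOp1⟩ := hOp n (3 * M) a k Mf (Kd * MF) hFam.hk0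
  obtain ⟨ρ, hρ⟩ : ∃ ρ : ℝ, ρ = (Mf + M') / ι := ⟨_, rfl⟩
  have hρ0 : 0 ≤ ρ := by rw [hρ]; positivity
  obtain ⟨Kr, hKr⟩ : ∃ Kr : ℝ, Kr = 2 * K₁ * ρ ^ (p + 2) + 1 := ⟨_, rfl⟩
  have hKr0 : 0 < Kr := by rw [hKr]; positivity
  obtain ⟨θ, hθ0, hθ1, hθr, hθe⟩ := LayM_th hι hKr0
  refine ⟨θ, hθ0, U, ?_⟩
  intro N₀ hN₀ T hT f hf hf0 hdf
  obtain ⟨N, hN⟩ : ∃ N : ℝ, N = N₀ := ⟨_, rfl⟩
  have hN1 : 1 ≤ N := by
    rw [hN]
    exact_mod_cast hN₀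
  have hNp : 0 < N := by linarith
  obtain ⟨δ, hδd⟩ : ∃ δ : ℝ, δ = N⁻¹ := ⟨_, rfl⟩
  have hδ : 0 < δ := by rw [hδd]; positivity
  have hδ1 : δ ≤ 1 := by rw [hδd]; exact inv_le_one_of_one_le₀ hN1
  have hδN : ∀ t : ℝ, δ * (N * t) = t := fun t => by
    rw [hδd, inv_mul_cancel_left₀ hNp.ne']
  have hf' : IsClassicalSol T (fun t x => boltzQ γ b (f t x)) f := hf
  rw [← hp, ← hN] at hdf
  rw [← hp, ← hN]
  have hBle : ∀ t, 0 ≤ t → t ≤ θ → 3 / 2 * ι ≤ Bq s δ ι Kr Kr KA (N * t) ∧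
      Bq s δ ι Kr Kr KA (N * t) ≤ 2 * Real.exp KA * ι := fun t ht h =>
    bar_le hδ hι hKr0.le hKr0.le hKA0 hθr hθe (by positivity) (by rw [hδN]; exact h)
  have hδt : ∀ t ∈ Ico 0 T, t ≤ θ := fun t ht => ht.2.le.trans hT
  have hfaw : ∀ t, 0 ≤ t → t ≤ 1 → ∀ q, q ≤ 2 * d + 20 → ∀ x v,
      |fw γ b N F cc k φ t x v| ≤ M' * Wp q v := fun t ht ht1 q hq x v => by
    have e1 := ((hosc t ht ht1 x).2 N⁻¹ (by positivity) (by rw [← hδd]; exact hδ1) (N * t)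
      (by positivity) φ (N • x) v).1
    rw [← hM'd] at e1
    exact e1.trans (mul_le_mul_of_nonneg_left (LayM_wp hq v) hM'0)
  have hfA : ∀ τ, 0 ≤ τ → τ ≤ θ → ∀ y w,
      |f τ y w - fw γ b N F cc k φ τ y w| < Bq s δ ι Kr Kr KA (N * τ) * Wp p w →
      f τ y w ≤ A₁ * Wp p w := by
    intro τ hτ hτθ y w h3
    have h4 := (abs_lt.1 h3).2
    have h5 := (abs_le.1 (hfaw τ hτ (hτθ.trans hθ1) p (by omega) y w)).2
    have h6 := Wp_pos p w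
    have h7 : Bq s δ ι Kr Kr KA (N * τ) * Wp p w ≤ 1 * Wp p w :=
      mul_le_mul_of_nonneg_right ((hBle τ hτ hτθ).2.trans hexp1) h6.le
    rw [hA₁]
    linarith
  have key : ∀ t ∈ Ico 0 T, ∀ x v,
      |f t x v - fw γ b N F cc k φ t x v| < Bq s δ ι Kr Kr KA (N * t) * Wp p v := by
    intro t ht x v
    by_contra hcon
    push Not at hcon
    have htθ := hδt t ht
    have hcgt : CG t (p + 1) M' (fw γ b N F cc k φ) := by
      refine ⟨(fw_contM HL.H hs hα0 (q := 2 * d + 22) (by omega) hF hSy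
        (famY_mono (by omega) hFam) φ N).continuousOn, fun τ _ y w i => ?_, fun τ hτ y w =>
          hfaw τ hτ.1 ((hτ.2.trans htθ).trans hθ1) (p + 1) (by omega) y w⟩
      rw [hN]
      exact fw_per hF (famY_mono (q := 2 * d + 22) (by omega) hFam) φ N₀ τ y w i
    have hB0 : ∀ τ ∈ Icc 0 t, 0 < Bq s δ ι Kr Kr KA (N * τ) := fun τ hτ =>
      lt_of_lt_of_le (by positivity) (hBle τ hτ.1 (hτ.2.trans htθ)).1
    obtain ⟨t₀, ht₀, x₀, v₀, heq, hlt, hle⟩ := tch3 hf' p hcgt ht.1 ht.2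
      (B := fun τ => Bq s δ ι Kr Kr KA (N * τ))
      ((bar_cont hs0 hδ).comp (by fun_prop) fun τ h => by
        show 0 ≤ N * τ
        exact mul_nonneg hNp.le h.1) hB0
      (fun y w => by
        show |f 0 y w - fw γ b N F cc k φ 0 y w| < Bq s δ ι Kr Kr KA (N * 0) * Wp p w
        rw [fw_zero]
        refine (hdf y w).trans_lt ?_
        have e1 := (hBle 0 le_rfl hθ0.le).1
        exact mul_lt_mul_of_pos_right (by linarith) (Wp_pos p w))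
      ⟨t, ⟨ht.1, le_rfl⟩, x, v, hcon⟩
    have ht₀T : t₀ ∈ Ioo 0 T := ⟨ht₀.1, ht₀.2.trans_lt ht.2⟩
    have ht₀C : t₀ ∈ Ico 0 T := ⟨ht₀.1.le, ht₀T.2⟩
    have ht₀θ : t₀ ≤ θ := hδt t₀ ht₀C
    have ht₀1 : t₀ ≤ 1 := ht₀θ.trans hθ1
    have hNt₀ : 0 < N * t₀ := mul_pos hNp ht₀.1
    obtain ⟨L, hL⟩ : ∃ L : ℝ, L = Bq s δ ι Kr Kr KA (N * t₀) := ⟨_, rfl⟩
    have hLb := hBle t₀ ht₀.1.le ht₀θ
    rw [← hL] at hLb
    have hLι : ι ≤ L := by linarith [hLb.1]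
    have hL0 : 0 ≤ L := hι.le.trans hLι
    have hL1 : L ≤ 1 := hLb.2.trans hexp1
    have hdif : ∀ u, |f t₀ x₀ u - fw γ b N F cc k φ t₀ x₀ u| ≤ L * Wp p u := fun u => by
      rw [hL]; exact hle x₀ u
    have heqL : |f t₀ x₀ v₀ - fw γ b N F cc k φ t₀ x₀ v₀| = L * Wp p v₀ := by
      rw [hL]; exact heq
    have hUt := hU t₀ ht₀1 f
      (Pool.Agent.H48.PI.sol_restrict hf' ht₀T.2.le) hf0
      (fun τ hτ y w => hfA τ hτ.1 (hδt τ ⟨hτ.1, hτ.2.trans ht₀T.2⟩) y w (hlt τ hτ y w))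
    have hU0 : ∀ m w, (1 + ‖w‖) ^ m * f t₀ x₀ w ≤ U m := fun m w =>
      LayM_ext hf' ht₀T fun τ hτ => hUt τ hτ m x₀ w
    have hf1 : ∀ w, f t₀ x₀ w ≤ Mf * Wp (p + 1) w := fun w => by
      rw [hMf]
      exact LayM_le (hf'.nonneg t₀ ht₀C x₀ w) (hU0 (2 * (p + 1)) w)
    have hf2 : ∀ w, f t₀ x₀ w ≤ Mf * Wp p w := fun w =>
      (hf1 w).trans (mul_le_mul_of_nonneg_left (LayM_wp (Nat.le_succ p) w) hMf0)
    have hv : L * Wp p v₀ ≤ (Mf + M') * Wp (p + 1) v₀ := by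
      rw [← heqL]
      have e1 := hf1 v₀
      have e2 := hf'.nonneg t₀ ht₀C x₀ v₀
      have e3 := abs_le.1 (hfaw t₀ ht₀.1.le ht₀1 (p + 1) (by omega) x₀ v₀)
      have e4 := Wp_pos (p + 1) v₀
      have e5 : 0 ≤ Mf * Wp (p + 1) v₀ := mul_nonneg hMf0 e4.le
      rw [abs_le, add_mul]
      constructor
      · linarith [e3.2]
      · linarith [e3.1]
    obtain ⟨-, hq⟩ := LayM_v hι hLι hv
    rw [← hρ] at hq
    obtain ⟨e, he, hsg⟩ := LayM_sign (f t₀ x₀ v₀ - fw γ b N F cc k φ t₀ x₀ v₀)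
    rw [heqL] at hsg
    have hW := Wp_pos p v₀
    have hdf0 := char_deriv hf' ht₀T x₀ v₀
    have hdg0 := fw_charM (α := α) (K := K) (c := c) (κ₀ := κ₀) hs0 hSy hNp cc k φ t₀ x₀ v₀
    have hχ := (hdf0.sub hdg0).const_mul e
    obtain ⟨B', hB', hB'le⟩ := bar_der hs0 hδ hι hKr0.le hKr0.le hKA0 hNt₀
    have hE : HasDerivAt (fun τ : ℝ => Bq s δ ι Kr Kr KA (N * (t₀ + τ)) * Wp p v₀)
        (B' * N * Wp p v₀) 0 := by
      have e2 : HasDerivAt (fun τ : ℝ => N * (t₀ + τ)) N 0 := by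
        have e21 := ((hasDerivAt_id (0 : ℝ)).const_add t₀).const_mul N
        rwa [mul_one] at e21
      have e3 : HasDerivAt (fun t => Bq s δ ι Kr Kr KA t) B' (N * (t₀ + 0)) := by
        rw [add_zero]; exact hB'
      have e4 := HasDerivAt.comp (0 : ℝ) e3 e2
      exact e4.mul_const (Wp p v₀)
    have hcmp := LayM_cmp hχ hE (by
      show e * (f (t₀ + 0) (x₀ + (0 : ℝ) • v₀) v₀ -
        fw γ b N F cc k φ (t₀ + 0) (x₀ + (0 : ℝ) • v₀) v₀) =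
          Bq s δ ι Kr Kr KA (N * (t₀ + 0)) * Wp p v₀
      rw [add_zero, zero_smul, add_zero, hsg, hL]) (by
      filter_upwards [Ioo_mem_nhdsGT ht₀.1] with τ hτ
      have e1 := (hlt (t₀ + -τ) ⟨by linarith [hτ.2], by linarith [hτ.1]⟩
        (x₀ + (-τ) • v₀) v₀).le
      refine le_trans ?_ e1
      refine (le_abs_self _).trans ?_
      show |e * (f (t₀ + -τ) (x₀ + (-τ) • v₀) v₀ -
        fw γ b N F cc k φ (t₀ + -τ) (x₀ + (-τ) • v₀) v₀)| ≤ _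
      rw [abs_mul, he, one_mul])
    have hnice : Nice (f t₀ x₀) := IsClassicalSol.nice hf' ht₀T x₀
    have hopv := hOp1 (sgF γ b t₀ x₀ F) (ft t₀ x₀ F) (fun j => ft t₀ x₀ (cc j))
      (hSf t₀ ht₀.1.le ht₀1 x₀) (ft_hr hα0 h2 hF ht₀.1.le ht₀1 x₀)
      (fam_ft hα0 h2 hFam ht₀.1.le ht₀1 x₀) N⁻¹ (by positivity) (by rw [← hδd]; exact hδ1)
      (N * t₀) hNt₀ (fun κ v => by
        rw [inv_mul_cancel_left₀ hNp.ne']
        exact hdiff α MF F hα0 h2 hF t₀ x₀ κ v ht₀.1.le ht₀1) φ (N • x₀) (f t₀ x₀) hnice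
      (fun u => hf'.nonneg t₀ ht₀C x₀ u) (by rw [← hp]; exact hf2) L hL0
      (by rw [← hp]; exact hdif) e v₀ he (by rw [← hp]; exact hsg)
    rw [← hp, ← hA, ← hδd] at hopv
    have hR0 : 0 ≤ ρ ^ (p + 2) := pow_nonneg hρ0 _
    have hBfin : B' * Wp p v₀ ≤ δ * (e * (boltzQ γ b (f t₀ x₀) v₀ +
        ∑ j, sgF γ b t₀ x₀ F ((2 * Real.pi * (N * t₀)) • k j) v₀ *
          (Am (sgF γ b t₀ x₀ F) δ (ft t₀ x₀ (cc j)) (k j) (N * t₀) v₀ *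
          Real.cos (2 * Real.pi * dot (k j) (N • x₀) + φ j -
            dot ((2 * Real.pi * (N * t₀)) • k j) v₀)))) := by
      have e1 := mul_le_mul_of_nonneg_left hcmp hδ.le
      have e2 : δ * (B' * N * Wp p v₀) = B' * Wp p v₀ := by
        have e3 := hδN 1
        rw [mul_one] at e3
        calc δ * (B' * N * Wp p v₀) = B' * Wp p v₀ * (δ * N) := by ring
          _ = B' * Wp p v₀ := by rw [e3, mul_one]
      rw [e2] at e1
      refine e1.trans (le_of_eq ?_)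
      rw [sub_neg_eq_add, ← hδd]
    exact LayM_con hδ hW hL0 hL1 hK₁ hR0 hKr hKAm hq hBfin hopv (by rw [hL]; exact hB'le)
  intro t ht x v
  have hk := key t ht x v
  have hW := Wp_pos p v
  have htθ := hδt t ht
  have ht1 : t ≤ 1 := htθ.trans hθ1
  have hT1 : T ≤ 1 := hT.trans hθ1
  refine ⟨?_, fun m => hU T hT1 f hf' hf0
    (fun τ hτ y w => hfA τ hτ.1 (hδt τ hτ) y w (key τ hτ y w)) t ht m x v⟩
  have e1 := ((hosc t ht.1 ht1 x).2 N⁻¹ (by positivity) (by rw [← hδd]; exact hδ1) (N * t)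
      (mul_nonneg hNp.le ht.1) φ (N • x) v).2.1
  rw [← hK₃d, ← hδd] at e1
  rw [← hδd]
  have hX : 0 < 1 + δ * (N * t) ^ (1 + 2 * s) := by
    have := Real.rpow_nonneg (mul_nonneg hNp.le ht.1) (1 + 2 * s)
    positivity
  have e2 : K₃ * (∑ j, a j) / (1 + δ * (N * t) ^ (1 + 2 * s)) * Wp (2 * d + 20) v ≤
      (K₅ + K₃) * (∑ j, a j) / (1 + δ * (N * t) ^ (1 + 2 * s)) * Wp p v := by
    have e3 : K₃ * (∑ j, a j) ≤ (K₅ + K₃) * (∑ j, a j) :=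
      mul_le_mul_of_nonneg_right (by linarith) hSa0
    exact mul_le_mul (div_le_div_of_nonneg_right e3 hX.le) (LayM_wp (by omega) v)
      (Wp_pos _ v).le (by positivity)
  have e4 : Bq s δ ι Kr Kr KA (N * t) * Wp p v ≤
      2 * Real.exp ((K₅ + K₃) * A) * ι * Wp p v :=
    mul_le_mul_of_nonneg_right ((hBle t ht.1 htθ).2.trans hexpι) hW.le
  have e5 : |f t x v - ft t x F v| ≤ |f t x v - fw γ b N F cc k φ t x v| +
      |fw γ b N F cc k φ t x v - ft t x F v| := abs_sub_le _ _ _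
  have e8 : |fw γ b N F cc k φ t x v - ft t x F v| ≤
      K₃ * (∑ j, a j) / (1 + δ * (N * t) ^ (1 + 2 * s)) * Wp (2 * d + 20) v := by
    have e9 := e1
    rw [hδd] at e9 ⊢
    exact e9
  rw [add_mul]
  show |f t x v - ft t x F v| ≤ _
  linarith

/-- THE LAYER LEMMA WITH A SLOW VARIABLE -/
theorem layerM (HL : HypL d γ s b C Ca cb) (hb : IsKernel d s b) (hs : 2 * s < 1)
    {α : ℝ} (h1 : 2 * s < α) (h2 : α ≤ 1) {F : Vec d → Vec d → ℝ} {MF : ℝ}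
    (hF24 : HRy α (2 * d + 24) MF F) (hF0 : ∀ y v, 0 ≤ F y v) (hFm : ∀ y, 0 < ∫ v, F y v) :
    ∃ Kst : ℝ, 0 ≤ Kst ∧ ∀ (n : ℕ) (M : ℝ) (a : Fin n → ℝ) (cc : Fin n → Vec d → Vec d → ℝ)
      (k : Fin n → Vec d) (φ : Fin n → ℝ), FamY α (2 * d + 24) M a cc k →
    ∀ (B : ℕ → ℝ) (ι : ℝ), 0 < ι →
      2 * Real.exp (Kst * ∑ j, a j * len (k j) ^ (2 * s)) * ι ≤ 1 →
    ∃ θ : ℝ, 0 < θ ∧ ∃ U : ℕ → ℝ, ∀ N : ℕ, 1 ≤ N → ∀ T : ℝ, T ≤ θ →
    ∀ f : ℝ → Vec d → Vec d → ℝ, IsBoltzmannSol γ b T f →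
      (∀ m x v, (1 + ‖v‖) ^ m * f 0 x v ≤ B m) →
      (∀ x v, |f 0 x v - (F x v + ∑ j, cc j x v *
        Real.cos (2 * Real.pi * dot (k j) ((N : ℝ) • x) + φ j))| ≤ ι * Wp (d + 10) v) →
    ∀ t ∈ Ico 0 T, ∀ x v,
      |f t x v - F x v| ≤ (2 * Real.exp (Kst * ∑ j, a j * len (k j) ^ (2 * s)) * ι +
        Kst * (∑ j, a j) / (1 + (N : ℝ) ^ (2 * s) * t ^ (1 + 2 * s)) + Kst * t) *
          Wp (d + 10) v ∧
      ∀ m, (1 + ‖v‖) ^ m * f t x v ≤ U m := by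
  have hs0 : 0 < s := HL.H.hs
  have hF : HRy α (2 * d + 22) MF F := hry_mono (by omega) hF24
  have hMF : 0 ≤ MF := (hF.hr 0).nn
  obtain ⟨K₀, hK₀, hm⟩ := layerM0 HL hb hs h1 h2 hF hF0 hFm
  refine ⟨K₀ + MF, by positivity, ?_⟩
  intro n M a cc k φ hFam B ι hι hsmall
  have ha0 : ∀ j, 0 ≤ a j := fun j => by
    have e1 := (abs_nonneg _).trans (hFam.ha j 0 0)
    exact nonneg_of_mul_nonneg_left e1 (Wp_pos _ _)
  obtain ⟨A, hA⟩ : ∃ A : ℝ, A = ∑ j, a j * len (k j) ^ (2 * s) := ⟨_, rfl⟩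
  have hA0 : 0 ≤ A := by
    rw [hA]
    exact Finset.sum_nonneg fun j _ => mul_nonneg (ha0 j) (Real.rpow_nonneg (len_nonneg _) _)
  have hSa0 : 0 ≤ ∑ j, a j := Finset.sum_nonneg fun j _ => ha0 j
  rw [← hA] at hsmall ⊢
  have hexp : Real.exp (K₀ * A) ≤ Real.exp ((K₀ + MF) * A) :=
    Real.exp_le_exp.2 (mul_le_mul_of_nonneg_right (by linarith) hA0)
  have hexpι : 2 * Real.exp (K₀ * A) * ι ≤ 2 * Real.exp ((K₀ + MF) * A) * ι :=
    mul_le_mul_of_nonneg_right (mul_le_mul_of_nonneg_left hexp (by norm_num)) hι.le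
  obtain ⟨θ, hθ, U, hU⟩ := hm n M a cc k φ hFam B ι hι (by
    rw [← hA]
    exact hexpι.trans hsmall)
  rw [← hA] at hU
  refine ⟨θ, hθ, U, fun N hN T hT f hf hf0 hdf t ht x v => ?_⟩
  obtain ⟨k1, k2⟩ := hU N hN T hT f hf hf0 hdf t ht x v
  refine ⟨?_, k2⟩
  have hNp : 0 < (N : ℝ) := by exact_mod_cast hN
  have hW := Wp_pos (d + 10) v
  rw [LayM_X hNp ht.1] at k1
  have e1 : |F (x - t • v) v - F x v| ≤ MF * t * Wp (d + 10) v :=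
    LayM_slow (q := 2 * d + 22) (p := d + 10) (by omega) hF ht.1 x v
  have hX : 0 < 1 + (N : ℝ) ^ (2 * s) * t ^ (1 + 2 * s) := by
    have := Real.rpow_nonneg ht.1 (1 + 2 * s)
    have := Real.rpow_nonneg hNp.le (2 * s)
    positivity
  have e2 : K₀ * (∑ j, a j) / (1 + (N : ℝ) ^ (2 * s) * t ^ (1 + 2 * s)) ≤
      (K₀ + MF) * (∑ j, a j) / (1 + (N : ℝ) ^ (2 * s) * t ^ (1 + 2 * s)) :=
    div_le_div_of_nonneg_right (mul_le_mul_of_nonneg_right (by linarith) hSa0) hX.le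
  have e3 : 0 ≤ K₀ * t := mul_nonneg hK₀ ht.1
  refine (abs_sub_le _ (F (x - t • v) v) _).trans ((add_le_add k1 e1).trans ?_)
  rw [← add_mul]
  refine mul_le_mul_of_nonneg_right ?_ hW.le
  have e4 : (K₀ + MF) * t = K₀ * t + MF * t := by ring
  rw [e4]
  linarith

end Pool.Agent.H82.HM
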