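import Pool.Agent.H82.HM.ThM

/-!
# Block M (MP_c15324_an): the oscillating integral for `-1 ≤ γ ≤ 2` (copy of `osc`, H15/HF/Osc, with the weight `og`)
-/

set_option autoImplicit false

open MeasureTheory Set Filter Topology Pool.Agent.H25.Kin Pool.Agent.H48.PL Pool.Agent.H48.PD
open Pool.Agent.H82.BK Pool.Agent.H82.CM Pool.Agent.H48.PR Pool.Agent.H82.HF
open scoped ENNReal

namespace Pool.Agent.H15.HF.M

variable {d : ℕ} {γ s C Ca cb : ℝ} {b : ℝ → ℝ}

private lemma OscM_hol2 {α : ℝ} {q : ℕ} {M : ℝ} {a : Vec d → ℝ} (h : HR α q M a) (v z : Vec d) :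
    |a (v + z) - a v| ≤ 2 * M * min 1 (len z) ^ α := by
  refine (h.hol v z).trans ?_
  have h1 : 0 ≤ min 1 (len z) ^ α := Real.rpow_nonneg (le_min zero_le_one (len_nonneg z)) α
  have h0 := h.nn
  have h2 := Wp_le_one q v
  have h3 := Wp_le_one q (v + z)
  calc M * min 1 (len z) ^ α * (Wp q v + Wp q (v + z)) ≤ M * min 1 (len z) ^ α * 2 :=
        mul_le_mul_of_nonneg_left (by linarith) (by positivity)
    _ = _ := by ring

private lemma OscM_cont {α : ℝ} (hα : 0 < α) {q : ℕ} {M : ℝ} {a : Vec d → ℝ} (h : HR α q M a) :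
    Continuous a := by
  rw [continuous_iff_continuousAt]
  intro v
  unfold ContinuousAt
  rw [tendsto_iff_norm_sub_tendsto_zero]
  have hc : Continuous (fun w : Vec d => 2 * M * min 1 (len (w - v)) ^ α) := by
    have h1 : Continuous (fun w : Vec d => len (w - v)) :=
      (continuous_sq.sqrt).comp (continuous_id.sub continuous_const)
    exact continuous_const.mul ((continuous_const.min h1).rpow_const fun _ => Or.inr hα.le)
  have h2 := hc.tendsto v
  have h3 : 2 * M * min 1 (len (v - v)) ^ α = 0 := by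
    rw [sub_self, len_zero, min_eq_right zero_le_one, Real.zero_rpow hα.ne', mul_zero]
  rw [h3] at h2
  refine squeeze_zero (fun w => norm_nonneg _) (fun w => ?_) h2
  have h4 := OscM_hol2 h v (w - v)
  rw [add_sub_cancel] at h4
  exact h4

private lemma OscM_len_smul {a : ℝ} (ha : 0 ≤ a) (z : Vec d) : len (a • z) = a * len z :=
  len_smul ha z

/-- `x^p ≤ 1 + x²` for `0 ≤ p ≤ 2` -/
private lemma OscM_rpow {x p : ℝ} (hx : 0 ≤ x) (h0 : 0 ≤ p) (h2 : p ≤ 2) : x ^ p ≤ 1 + x ^ 2 := by
  rcases le_total x 1 with h | h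
  · exact (Real.rpow_le_one hx h h0).trans (by nlinarith [sq_nonneg x])
  · have := Real.rpow_le_rpow_of_exponent_le h h2
    rw [Real.rpow_two] at this
    linarith

/-- `(len κ len m)^(2s) ≤ (1 + nsq κ) (1 + nsq m)` -/
private lemma OscM_2s {p : ℝ} (h0 : 0 ≤ p) (h2 : p ≤ 2) (κ m : Vec d) :
    (len κ * len m) ^ p ≤ (1 + nsq κ) * (1 + nsq m) := by
  have := OscM_rpow (mul_nonneg (len_nonneg κ) (len_nonneg m)) h0 h2
  rw [mul_pow, len_sq, len_sq] at this
  nlinarith [sq_nonneg' κ, sq_nonneg' m]

/-- Peetre -/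
private lemma OscM_W (q : ℕ) {D : ℝ} {x δ : Vec d} (hδ : nsq δ ≤ D) :
    Wp q (x - δ) ≤ (2 * (1 + D)) ^ q * Wp q x := by
  have hx := sq_nonneg' x
  have hδ0 := sq_nonneg' δ
  have hy := sq_nonneg' (x - δ)
  have hD : 0 ≤ D := hδ0.trans hδ
  have h1 : 1 + nsq x ≤ 2 * (1 + D) * (1 + nsq (x - δ)) := by
    have e : x = (x - δ) + δ := by abel
    have h2 : nsq x ≤ 2 * nsq (x - δ) + 2 * nsq δ := by
      have h3 := nsq_add (x - δ) δ
      rw [← e] at h3
      have h4 := nsq_sub (x - δ) δ
      have h5 := sq_nonneg' (x - δ - δ)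
      linarith
    nlinarith [mul_nonneg hD hy]
  unfold Wp
  rw [← div_eq_mul_inv, inv_eq_one_div, div_le_div_iff₀ (by positivity) (by positivity), one_mul,
    ← mul_pow]
  exact pow_le_pow_left₀ (by positivity) h1 q

theorem oscM (H : Hyp d γ s b C Ca) (hs : 2 * s < 1) {α : ℝ} (h1 : 2 * s < α)
    (h2 : α ≤ 1) {q : ℕ} (hq : d + 10 ≤ q) (Cq : ℝ) {k : Vec d} (hk : k ≠ 0) (l : Vec d) :
    ∃ K : ℝ, 0 ≤ K ∧ ∀ (lam ε θ : ℝ) (A : Vec d → ℝ) (v : Vec d), 0 ≤ lam → 0 ≤ ε → HR α q Cq A →
      |∫ m, len m ^ γ * (A (v - m) * Real.cos (θ - dot (lam • k) (v - m)) *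
        Jf γ b ε (lam • l) m)| ≤ K * (1 + nsq v) ^ 2 := by
  have hs0 := H.hs
  have h0 : -1 ≤ γ := gam_ge H hs
  have hγ2 := H.g2
  have hα : 0 < α := by linarith
  have hlk : 0 < len k := len_pos hk
  have hnk : 0 < nsq k := sq_pos_of_ne hk
  obtain ⟨A₀, hA₀, hJ⟩ := Jf_le H hs
  obtain ⟨KO, hKO, hout⟩ := outerM (d := d) H.hd h0 hγ2 hq
  obtain ⟨KW, hKW, hW⟩ := og_int (d := d) H.hd hq
  set D : ℝ := max (Real.pi * len l / len k) (Real.pi / len k) with hD
  obtain ⟨KT, hKT, hTh⟩ := Th_difM H h0 hs D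
  have hlq := sq_nonneg' l
  set Kk : ℝ := (2 * (1 + (Real.pi / len k) ^ 2)) ^ q with hKk
  have hKk0 : 0 ≤ Kk := by positivity
  set c1 : ℝ := |Cq| * (Real.pi / len k) ^ α * A₀ * (1 + Kk) * (1 + nsq l) with hc1
  set c2 : ℝ := |Cq| * Kk * KT with hc2
  have hpk : 0 < Real.pi / len k := div_pos Real.pi_pos hlk
  have hc10 : 0 ≤ c1 := by positivity
  have hc20 : 0 ≤ c2 := by positivity
  set c3 : ℝ := |Cq| * KT with hc3
  have hc30 : 0 ≤ c3 := by positivity
  refine ⟨KO * (|Cq| * A₀ * (1 + nsq l)) + (c1 + c2 + c3) * KW, by positivity, ?_⟩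
  intro lam ε θ A v hlam hε hA
  have hC : |Cq| = Cq := abs_of_nonneg hA.nn
  have hC0 := hA.nn
  have hAc : Continuous A := OscM_cont hα hA
  have hv := sq_nonneg' v
  -- measurability
  have hΦm : Measurable fun m : Vec d => A (v - m) * Real.cos (θ - dot (lam • k) (v - m)) *
      Jf γ b ε (lam • l) m := by
    have e1 : Continuous fun m : Vec d => A (v - m) * Real.cos (θ - dot (lam • k) (v - m)) :=
      (hAc.comp (continuous_const.sub continuous_id)).mul (Real.continuous_cos.comp
        (continuous_const.sub ((dot_cont (lam • k)).comp (continuous_const.sub continuous_id))))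
    exact e1.measurable.mul (Jf_meas H.bm γ ε (lam • l))
  -- crude bound
  have hΦb : ∀ m : Vec d, |A (v - m) * Real.cos (θ - dot (lam • k) (v - m)) *
      Jf γ b ε (lam • l) m| ≤ (Cq * A₀ * (1 + nsq (lam • l))) * ((1 + nsq m) * Wp q (v - m)) := by
    intro m
    have e1 := hA.le (v - m)
    have e2 := Real.abs_cos_le_one (θ - dot (lam • k) (v - m))
    have e3 := (hJ ε hε (lam • l) 0 m).2.1
    have e4 := OscM_2s (p := 2 * s) (by linarith) (by linarith) (lam • l) m
    have e5 := Jf_nonneg γ b ε (lam • l) m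
    have hw := Wp_pos q (v - m)
    rw [abs_mul, abs_mul, abs_of_nonneg e5]
    calc |A (v - m)| * |Real.cos (θ - dot (lam • k) (v - m))| * Jf γ b ε (lam • l) m
        ≤ (Cq * Wp q (v - m)) * 1 * (A₀ * ((1 + nsq (lam • l)) * (1 + nsq m))) := by
          refine mul_le_mul (mul_le_mul e1 e2 (abs_nonneg _) (by positivity))
            (e3.trans (mul_le_mul_of_nonneg_left e4 hA₀)) e5 (by positivity)
      _ = _ := by ring
  have hlam2 : 0 ≤ 1 + nsq (lam • l) := by linarith [sq_nonneg' (lam • l)]
  obtain ⟨hint, hbd⟩ := hout v _ (Cq * A₀ * (1 + nsq (lam • l))) hΦm (by positivity) hΦb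
  rcases le_total lam 1 with hl1 | hl1
  · -- small lam
    have e1 : nsq (lam • l) ≤ nsq l := by
      rw [nsq_smul]
      exact mul_le_of_le_one_left hlq (by nlinarith)
    refine hbd.trans ?_
    have e2 : KO * (Cq * A₀ * (1 + nsq (lam • l))) ≤ KO * (|Cq| * A₀ * (1 + nsq l)) := by
      rw [hC]
      gcongr
    have e3 : 0 ≤ (c1 + c2 + c3) * KW := by positivity
    exact mul_le_mul_of_nonneg_right (by linarith) (by positivity)
  · -- large lam
    have hlp : 0 < lam := by linarith
    set δ : Vec d := (Real.pi / (lam * nsq k)) • k with hδ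
    have hcoef : 0 ≤ Real.pi / (lam * nsq k) := by positivity
    have hlenδ : len δ = Real.pi / (lam * len k) := by
      rw [hδ, len_smul hcoef]
      rw [← len_sq k]
      field_simp
    have hlenδ1 : len δ ≤ Real.pi / len k := by
      rw [hlenδ]
      exact div_le_div_of_nonneg_left Real.pi_pos.le hlk (by nlinarith)
    have hnδ : nsq δ ≤ (Real.pi / len k) ^ 2 := by
      rw [← len_sq]
      exact pow_le_pow_left₀ (len_nonneg δ) hlenδ1 2
    have hdotδ : dot (lam • k) δ = Real.pi := by
      rw [hδ, dot_smul, dot_comm, dot_smul, dot_self]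
      field_simp
    set F : Vec d → ℝ := fun m => len m ^ γ * (A (v - m) * Real.cos (θ - dot (lam • k) (v - m)) *
        Jf γ b ε (lam • l) m) with hF
    set Th : Vec d → ℝ := fun m => len m ^ γ * Jf γ b ε (lam • l) m with hThd
    have hcos : ∀ m : Vec d, Real.cos (θ - dot (lam • k) (v - (m + δ))) =
        -Real.cos (θ - dot (lam • k) (v - m)) := by
      intro m
      have e : v - (m + δ) = (v - m) - δ := by abel
      rw [e, dot_sub, hdotδ, ← Real.cos_add_pi]
      congr 1
      ring
    have hFsum : ∀ m : Vec d, F m + F (m + δ) =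
        (Th m * A (v - m) - Th (m + δ) * A (v - (m + δ))) *
          Real.cos (θ - dot (lam • k) (v - m)) := by
      intro m
      simp only [hF, hThd]
      rw [hcos m]
      ring
    have htr : ∫ m, F (m + δ) = ∫ m, F m := integral_add_right_eq_self F δ
    have hint2 : Integrable fun m => F (m + δ) := hint.comp_add_right δ
    have h2I : 2 * ∫ m, F m = ∫ m, (F m + F (m + δ)) := by
      rw [integral_add hint hint2, htr]
      ring
    -- pointwise bound
    have hpt : ∀ m : Vec d, ‖F m + F (m + δ)‖ ≤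
        (c1 + c2) * (og m * ((1 + nsq m) * Wp q (v - m))) +
          c3 * (og (m + δ) * ((1 + nsq (m + δ)) * Wp q (v - (m + δ)))) := by
      intro m
      have hw := Wp_pos q (v - m)
      have hm := sq_nonneg' m
      have hw2 : Wp q (v - (m + δ)) ≤ Kk * Wp q (v - m) := by
        have e : v - (m + δ) = (v - m) - δ := by abel
        rw [e]
        exact OscM_W q hnδ
      have hw3 := Wp_pos q (v - (m + δ))
      have hlm := len_og h0 hγ2 m
      have ho := og_pos m
      have ho' := og_pos (m + δ)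
      have hmδ := sq_nonneg' (m + δ)
      have hlm0 : 0 ≤ len m ^ γ := Real.rpow_nonneg (len_nonneg m) γ
      have hTh0 : 0 ≤ Th m := mul_nonneg hlm0 (Jf_nonneg γ b ε (lam • l) m)
      -- Hoelder continuity of `A`
      have g1 : |A (v - m) - A (v - (m + δ))| ≤ Cq * ((Real.pi / len k) ^ α * lam⁻¹ ^ α) *
          ((1 + Kk) * Wp q (v - m)) := by
        have e := hA.hol (v - (m + δ)) δ
        have e' : v - (m + δ) + δ = v - m := by abel
        rw [e'] at e
        refine e.trans ?_
        have e1 : min 1 (len δ) ^ α ≤ (Real.pi / len k) ^ α * lam⁻¹ ^ α := by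
          rw [← Real.mul_rpow hpk.le (inv_nonneg.2 hlam)]
          have e7 : Real.pi / len k * lam⁻¹ = len δ := by
            rw [hlenδ]
            field_simp
          rw [e7]
          exact Real.rpow_le_rpow (le_min zero_le_one (len_nonneg δ)) (min_le_right _ _) hα.le
        have e0 : 0 ≤ min 1 (len δ) ^ α :=
          Real.rpow_nonneg (le_min zero_le_one (len_nonneg δ)) α
        have e2 : Wp q (v - (m + δ)) + Wp q (v - m) ≤ (1 + Kk) * Wp q (v - m) := by linarith
        exact mul_le_mul (mul_le_mul_of_nonneg_left e1 hC0) e2 (by linarith)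
          (by positivity)
      have g2 : Th m ≤ A₀ * (lam ^ (2 * s) * ((1 + nsq l) * (og m * (1 + nsq m)))) := by
        have e3 := (hJ ε hε (lam • l) 0 m).2.1
        rw [len_smul hlam, mul_assoc, Real.mul_rpow hlam
          (mul_nonneg (len_nonneg l) (len_nonneg m))] at e3
        have e4 := OscM_2s (p := 2 * s) (by linarith) (by linarith) l m
        have e5 : 0 ≤ lam ^ (2 * s) := Real.rpow_nonneg hlam _
        calc Th m ≤ og m * (A₀ * (lam ^ (2 * s) * ((1 + nsq l) * (1 + nsq m)))) := by
              simp only [hThd]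
              refine mul_le_mul hlm (e3.trans ?_) (Jf_nonneg γ b ε (lam • l) m) (by linarith)
              exact mul_le_mul_of_nonneg_left (mul_le_mul_of_nonneg_left e4 e5) hA₀
          _ = _ := by ring
      have glam : lam ^ (2 * s) * lam⁻¹ ^ α ≤ 1 := by
        rw [Real.inv_rpow hlam, ← div_eq_mul_inv, div_le_one (Real.rpow_pos_of_pos hlp α)]
        exact Real.rpow_le_rpow_of_exponent_le hl1 h1.le
      have hla0 : 0 ≤ lam⁻¹ ^ α := Real.rpow_nonneg (inv_nonneg.2 hlam) α
      have hl2s : 0 ≤ lam ^ (2 * s) := Real.rpow_nonneg hlam _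
      have t1 : Th m * |A (v - m) - A (v - (m + δ))| ≤
          c1 * (og m * ((1 + nsq m) * Wp q (v - m))) := by
        calc Th m * |A (v - m) - A (v - (m + δ))|
            ≤ (A₀ * (lam ^ (2 * s) * ((1 + nsq l) * (og m * (1 + nsq m))))) *
              (Cq * ((Real.pi / len k) ^ α * lam⁻¹ ^ α) * ((1 + Kk) * Wp q (v - m))) :=
              mul_le_mul g2 g1 (abs_nonneg _) (by positivity)
          _ = (lam ^ (2 * s) * lam⁻¹ ^ α) * (Cq * (Real.pi / len k) ^ α * A₀ * (1 + Kk) *
              (1 + nsq l) * (og m * ((1 + nsq m) * Wp q (v - m)))) := by ring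
          _ ≤ 1 * (Cq * (Real.pi / len k) ^ α * A₀ * (1 + Kk) *
              (1 + nsq l) * (og m * ((1 + nsq m) * Wp q (v - m)))) :=
              mul_le_mul_of_nonneg_right glam (by positivity)
          _ = _ := by rw [hc1, hC]; ring
      -- the second difference
      have hκδ : len (lam • l) * len δ ≤ D := by
        rw [len_smul hlam, hlenδ]
        refine le_trans (le_of_eq ?_) (le_max_left _ _)
        field_simp
      have g3 := hTh ε hε (lam • l) m δ hκδ
      have hAw := hA.le (v - (m + δ))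
      have t2 : |A (v - (m + δ))| * |Th m - Th (m + δ)| ≤
          c2 * (og m * ((1 + nsq m) * Wp q (v - m))) +
            c3 * (og (m + δ) * ((1 + nsq (m + δ)) * Wp q (v - (m + δ)))) := by
        calc |A (v - (m + δ))| * |Th m - Th (m + δ)|
            ≤ (Cq * Wp q (v - (m + δ))) * (KT * (og m + og (m + δ))) :=
              mul_le_mul hAw g3 (abs_nonneg _) (by positivity)
          _ = Cq * KT * (og m * Wp q (v - (m + δ))) +
              Cq * KT * (og (m + δ) * Wp q (v - (m + δ))) := by ring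
          _ ≤ Cq * KT * (og m * (Kk * Wp q (v - m))) +
              Cq * KT * (og (m + δ) * ((1 + nsq (m + δ)) * Wp q (v - (m + δ)))) := by
              have e1 : Wp q (v - (m + δ)) ≤ (1 + nsq (m + δ)) * Wp q (v - (m + δ)) :=
                le_mul_of_one_le_left hw3.le (by linarith)
              gcongr
          _ ≤ Cq * KT * (og m * (Kk * ((1 + nsq m) * Wp q (v - m)))) +
              Cq * KT * (og (m + δ) * ((1 + nsq (m + δ)) * Wp q (v - (m + δ)))) := by
              have e1 : Wp q (v - m) ≤ (1 + nsq m) * Wp q (v - m) :=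
                le_mul_of_one_le_left hw.le (by linarith)
              gcongr
          _ = _ := by rw [hc2, hc3, hC]; ring
      rw [Real.norm_eq_abs, hFsum m, abs_mul]
      have e8 : Th m * A (v - m) - Th (m + δ) * A (v - (m + δ)) =
          Th m * (A (v - m) - A (v - (m + δ))) + A (v - (m + δ)) * (Th m - Th (m + δ)) := by ring
      have e9 : |Th m * A (v - m) - Th (m + δ) * A (v - (m + δ))| ≤
          Th m * |A (v - m) - A (v - (m + δ))| + |A (v - (m + δ))| * |Th m - Th (m + δ)| := by
        rw [e8]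
        have e10 : |Th m * (A (v - m) - A (v - (m + δ)))| =
            Th m * |A (v - m) - A (v - (m + δ))| := by
          rw [abs_mul (Th m), abs_of_nonneg hTh0]
        have e11 : |A (v - (m + δ)) * (Th m - Th (m + δ))| =
            |A (v - (m + δ))| * |Th m - Th (m + δ)| := abs_mul _ _
        rw [← e10, ← e11]
        exact abs_add_le _ _
      refine (mul_le_of_le_one_right (abs_nonneg _) (Real.abs_cos_le_one _)).trans ?_
      linarith
    have hfin : |2 * ∫ m, F m| ≤ (c1 + c2 + c3) * (KW * (1 + nsq v) ^ 2) := by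
      rw [h2I]
      have i1 := (hW v).1.const_mul (c1 + c2)
      have i2 : Integrable fun m : Vec d =>
          c3 * (og (m + δ) * ((1 + nsq (m + δ)) * Wp q (v - (m + δ)))) :=
        (((hW v).1).comp_add_right δ).const_mul c3
      have := norm_integral_le_of_norm_le (i1.add i2) (Filter.Eventually.of_forall hpt)
      refine this.trans ?_
      rw [Pi.add_def, integral_add i1 i2, integral_const_mul, integral_const_mul,
        integral_add_right_eq_self (fun m : Vec d => og m * ((1 + nsq m) * Wp q (v - m))) δ]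
      have e1 := (hW v).2
      have e2 := mul_le_mul_of_nonneg_left e1 (by positivity : 0 ≤ c1 + c2 + c3)
      linarith
    have e4 : |∫ m, F m| ≤ |2 * ∫ m, F m| := by
      rw [abs_mul, abs_two]
      linarith [abs_nonneg (∫ m, F m)]
    refine (e4.trans hfin).trans ?_
    have e5 : 0 ≤ KO * (|Cq| * A₀ * (1 + nsq l)) := by positivity
    have e6 : (c1 + c2 + c3) * (KW * (1 + nsq v) ^ 2) =
        ((c1 + c2 + c3) * KW) * (1 + nsq v) ^ 2 := by ring
    rw [e6]
    exact mul_le_mul_of_nonneg_right (by linarith) (by positivity)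

end Pool.Agent.H15.HF.M
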