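import Pool.Agent.H82.HM.Pre
import Pool.Agent.H15.HF.JfB

/-!
# Block M (MP_c15324_an): the difference `Θ(m) - Θ(m+δ)`, `Θ(m) = |m|^γ Jf κ m`, for `-1 ≤ γ ≤ 2` (copy of `Th_dif`, H15/HF/JfB)

Small `m`: `Θ(z) ≤ |z|^γ A₁ (|κ| |z|)^(2s) ≤ A₁ (3E)^(2s) og z`. Large `m`: `|u^γ - 1| ≤ 3 |u - 1|` for `1/2 ≤ u ≤ 2`.
-/

set_option autoImplicit false

open MeasureTheory Set Filter Topology Pool.Agent.H25.Kin Pool.Agent.H48.PL Pool.Agent.H48.PD
open Pool.Agent.H82.BK Pool.Agent.H82.CM Pool.Agent.H48.PR Pool.Agent.H82.HF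
open scoped ENNReal

namespace Pool.Agent.H15.HF.M

variable {d : ℕ} {γ s C Ca cb : ℝ} {b : ℝ → ℝ}

/-- `|u^γ - 1| ≤ 3 |u - 1|` for `-1 ≤ γ ≤ 2`, `1/2 ≤ u ≤ 2` -/
private lemma ThM_pow {γ u : ℝ} (h0 : -1 ≤ γ) (h2 : γ ≤ 2) (hu : 1 / 2 ≤ u) (hu2 : u ≤ 2) :
    |u ^ γ - 1| ≤ 3 * |u - 1| := by
  have hup : 0 < u := by linarith
  have e : u ^ (2 : ℝ) = u ^ 2 := by
    exact_mod_cast Real.rpow_natCast u 2
  have e' : u ^ (-1 : ℝ) = u⁻¹ := Real.rpow_neg_one u
  have hui : u⁻¹ * u = 1 := inv_mul_cancel₀ hup.ne'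
  have hi0 : 0 < u⁻¹ := inv_pos.2 hup
  rcases le_total 1 u with h | h
  · have h4 : u ^ γ ≤ u ^ (2 : ℝ) := Real.rpow_le_rpow_of_exponent_le h h2
    have h5 : u ^ (-1 : ℝ) ≤ u ^ γ := Real.rpow_le_rpow_of_exponent_le h h0
    rw [e] at h4
    rw [e'] at h5
    rw [abs_of_nonneg (by linarith : 0 ≤ u - 1), abs_le]
    constructor
    · nlinarith
    · nlinarith
  · have h4 : u ^ (2 : ℝ) ≤ u ^ γ := Real.rpow_le_rpow_of_exponent_ge hup h h2
    have h5 : u ^ γ ≤ u ^ (-1 : ℝ) := Real.rpow_le_rpow_of_exponent_ge hup h h0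
    rw [e] at h4
    rw [e'] at h5
    rw [abs_of_nonpos (by linarith : u - 1 ≤ 0), abs_le]
    constructor
    · nlinarith
    · nlinarith

theorem Th_difM (H : Hyp d γ s b C Ca) (h0 : -1 ≤ γ) (hs : 2 * s < 1) (D : ℝ) : ∃ A : ℝ, 0 ≤ A ∧
    ∀ ε : ℝ, 0 ≤ ε → ∀ κ m δ : Vec d, len κ * len δ ≤ D →
      |len m ^ γ * Jf γ b ε κ m - len (m + δ) ^ γ * Jf γ b ε κ (m + δ)| ≤
        A * (og m + og (m + δ)) := by
  obtain ⟨A₁, hA₁, hJ⟩ := Jf_le H hs
  obtain ⟨A₂, hA₂, hC⟩ := Jf_cpl H hs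
  have hγ2 := H.g2
  have hs0 := H.hs
  have h2s : 0 ≤ 2 * s := by linarith
  set E : ℝ := |D| with hE
  have hE0 : 0 ≤ E := abs_nonneg D
  refine ⟨A₁ * (3 * E) ^ (2 * s) + (A₂ * E ^ (2 * s) + 3 * (A₁ * (2 * E) ^ (2 * s))),
    by positivity, fun ε hε κ m δ h1 => ?_⟩
  have hDE : D ≤ E := le_abs_self D
  have h1' : len κ * len δ ≤ E := h1.trans hDE
  have ho := og_pos m
  have ho' := og_pos (m + δ)
  have hn : 0 ≤ nsq m := sq_nonneg' m
  have hk := len_nonneg κ
  have hx := len_nonneg m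
  have ht := len_nonneg δ
  have hy := len_nonneg (m + δ)
  have hyx : len (m + δ) ≤ len m + len δ := len_add_le m δ
  have hxy : len m ≤ len (m + δ) + len δ := by
    have := len_sub_le (m + δ) δ
    rwa [add_sub_cancel_right] at this
  have hJx := (hJ ε hε κ κ m).2.1
  have hJy := (hJ ε hε κ κ (m + δ)).2.1
  have hJx0 := Jf_nonneg γ b ε κ m
  have hJy0 := Jf_nonneg γ b ε κ (m + δ)
  have c1 : 0 ≤ A₁ * (3 * E) ^ (2 * s) := by positivity
  have c2 : 0 ≤ A₂ * E ^ (2 * s) := by positivity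
  have c3 : 0 ≤ 3 * (A₁ * (2 * E) ^ (2 * s)) := by positivity
  rcases lt_or_ge (len m) (2 * len δ) with hc | hc
  · -- small `m`
    have key : ∀ z : Vec d, len z ≤ 3 * len δ → len z ^ γ * Jf γ b ε κ z ≤
        og z * (A₁ * (3 * E) ^ (2 * s)) := by
      intro z hz
      have hz0 := len_nonneg z
      have hJz := (hJ ε hε κ κ z).2.1
      have hoz := og_pos z
      have hz2 : len κ * len z ≤ 3 * E := by
        have := mul_le_mul_of_nonneg_left hz hk
        linarith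
      refine mul_le_mul (len_og h0 hγ2 z) (hJz.trans ?_) (Jf_nonneg _ _ _ _ _)
        (by linarith)
      exact mul_le_mul_of_nonneg_left (Real.rpow_le_rpow (by positivity) hz2 h2s) hA₁
    have k1 := key m (by linarith)
    have k2 := key (m + δ) (by linarith)
    have k3 : 0 ≤ len m ^ γ * Jf γ b ε κ m := mul_nonneg (Real.rpow_nonneg hx _) hJx0
    have k4 : 0 ≤ len (m + δ) ^ γ * Jf γ b ε κ (m + δ) := mul_nonneg (Real.rpow_nonneg hy _) hJy0
    have k6 : 0 ≤ og m * (A₁ * (3 * E) ^ (2 * s)) := mul_nonneg (by linarith) c1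
    have k7 : 0 ≤ og (m + δ) * (A₁ * (3 * E) ^ (2 * s)) := mul_nonneg (by linarith) c1
    have k5 : |len m ^ γ * Jf γ b ε κ m - len (m + δ) ^ γ * Jf γ b ε κ (m + δ)| ≤
        (A₁ * (3 * E) ^ (2 * s)) * (og m + og (m + δ)) := by
      rw [abs_le]
      constructor <;> linarith
    refine k5.trans ?_
    exact mul_le_mul_of_nonneg_right (by linarith) (by linarith)
  · -- large `m`
    by_cases hm : m = 0
    · have hδ : δ = 0 := by
        by_contra hne
        have := len_pos hne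
        rw [hm, len_zero] at hc
        linarith
      rw [hδ, add_zero, sub_self, abs_zero]
      positivity
    have hm0 : 0 < len m := len_pos hm
    have e0 : m + δ - m = δ := by abel
    have hd1 := hC ε hε κ m (m + δ) hm (by rw [e0]; linarith)
    rw [e0] at hd1
    have hd2 : |Jf γ b ε κ m - Jf γ b ε κ (m + δ)| ≤ A₂ * E ^ (2 * s) :=
      hd1.trans (mul_le_mul_of_nonneg_left (Real.rpow_le_rpow (by positivity) h1' h2s) hA₂)
    have hxg := len_og h0 hγ2 m
    have hxg0 : 0 ≤ len m ^ γ := Real.rpow_nonneg hx _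
    have hy0 : 0 < len (m + δ) := by linarith
    set u : ℝ := len (m + δ) / len m with hu
    have hu0 : 0 < u := div_pos hy0 hm0
    have hu2 : u ≤ 3 / 2 := by
      rw [hu, div_le_iff₀ hm0]
      linarith
    have hyu : len (m + δ) = len m * u := by
      rw [hu]
      field_simp
    have hu3 : 1 / 2 ≤ u := by
      rw [hu, le_div_iff₀ hm0]
      linarith
    have hu1 : |u - 1| ≤ len δ / len m := by
      have e : u - 1 = (len (m + δ) - len m) / len m := by
        rw [hu]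
        field_simp
      rw [e, abs_div, abs_of_pos hm0]
      refine div_le_div_of_nonneg_right ?_ hm0.le
      rw [abs_le]
      constructor <;> linarith
    have hp : |len m ^ γ - len (m + δ) ^ γ| ≤ 3 * (len m ^ γ * (len δ / len m)) := by
      have e : len m ^ γ - len (m + δ) ^ γ = -(len m ^ γ * (u ^ γ - 1)) := by
        rw [hyu, Real.mul_rpow hx hu0.le]
        ring
      rw [e, abs_neg, abs_mul, abs_of_nonneg hxg0]
      have := ThM_pow h0 hγ2 hu3 (by linarith)
      have h3 : |u ^ γ - 1| ≤ 3 * (len δ / len m) := this.trans (by linarith)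
      have h4 := mul_le_mul_of_nonneg_left h3 hxg0
      linarith
    have ht0 : 0 ≤ len δ / len m := by positivity
    have ht1 : len δ / len m ≤ 1 := by
      rw [div_le_one hm0]
      linarith
    have hts : len δ / len m ≤ (len δ / len m) ^ (2 * s) := by
      rcases ht0.eq_or_lt with h | h
      · rw [← h, Real.zero_rpow (by linarith)]
      · have := Real.rpow_le_rpow_of_exponent_ge h ht1 hs.le
        rwa [Real.rpow_one] at this
    have hprod : len δ / len m * Jf γ b ε κ (m + δ) ≤ A₁ * (2 * E) ^ (2 * s) := by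
      have q1 : Jf γ b ε κ (m + δ) ≤ A₁ * (len κ * (3 / 2 * len m)) ^ (2 * s) := by
        refine hJy.trans (mul_le_mul_of_nonneg_left (Real.rpow_le_rpow (by positivity) ?_ h2s) hA₁)
        refine mul_le_mul_of_nonneg_left ?_ hk
        linarith
      have q2 : len δ / len m * Jf γ b ε κ (m + δ) ≤
          (len δ / len m) ^ (2 * s) * (A₁ * (len κ * (3 / 2 * len m)) ^ (2 * s)) :=
        mul_le_mul hts q1 hJy0 (by positivity)
      refine q2.trans ?_
      have q3 : (len δ / len m) ^ (2 * s) * (A₁ * (len κ * (3 / 2 * len m)) ^ (2 * s)) =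
          A₁ * ((len δ / len m) * (len κ * (3 / 2 * len m))) ^ (2 * s) := by
        rw [Real.mul_rpow ht0 (by positivity)]
        ring
      rw [q3]
      refine mul_le_mul_of_nonneg_left (Real.rpow_le_rpow (by positivity) ?_ h2s) hA₁
      have q4 : len δ / len m * (len κ * (3 / 2 * len m)) = 3 / 2 * (len κ * len δ) := by
        field_simp
      rw [q4]
      linarith
    have e : len m ^ γ * Jf γ b ε κ m - len (m + δ) ^ γ * Jf γ b ε κ (m + δ) =
        len m ^ γ * (Jf γ b ε κ m - Jf γ b ε κ (m + δ)) +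
          (len m ^ γ - len (m + δ) ^ γ) * Jf γ b ε κ (m + δ) := by ring
    rw [e]
    refine (abs_add_le _ _).trans ?_
    rw [abs_mul, abs_mul, abs_of_nonneg hxg0, abs_of_nonneg hJy0]
    have r1 : len m ^ γ * |Jf γ b ε κ m - Jf γ b ε κ (m + δ)| ≤ A₂ * E ^ (2 * s) * og m := by
      have := mul_le_mul hxg hd2 (abs_nonneg _) (by linarith : (0 : ℝ) ≤ og m)
      linarith
    have r2 : |len m ^ γ - len (m + δ) ^ γ| * Jf γ b ε κ (m + δ) ≤
        3 * (A₁ * (2 * E) ^ (2 * s)) * og m := by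
      have r3 := mul_le_mul_of_nonneg_right hp hJy0
      have r4 : 3 * (len m ^ γ * (len δ / len m)) * Jf γ b ε κ (m + δ) =
          3 * (len m ^ γ * (len δ / len m * Jf γ b ε κ (m + δ))) := by ring
      rw [r4] at r3
      refine r3.trans ?_
      have r5 := mul_le_mul hxg hprod (mul_nonneg ht0 hJy0) (by linarith : (0 : ℝ) ≤ og m)
      linarith
    have r6 : 0 ≤ A₁ * (3 * E) ^ (2 * s) * og m := mul_nonneg c1 (by linarith)
    have r7 : 0 ≤ (A₁ * (3 * E) ^ (2 * s) + (A₂ * E ^ (2 * s) +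
        3 * (A₁ * (2 * E) ^ (2 * s)))) * og (m + δ) :=
      mul_nonneg (by linarith) (by linarith)
    rw [mul_add]
    have r8 : (A₁ * (3 * E) ^ (2 * s) + (A₂ * E ^ (2 * s) + 3 * (A₁ * (2 * E) ^ (2 * s)))) * og m =
        A₁ * (3 * E) ^ (2 * s) * og m + A₂ * E ^ (2 * s) * og m +
          3 * (A₁ * (2 * E) ^ (2 * s)) * og m := by ring
    rw [r8]
    linarith

end Pool.Agent.H15.HF.M
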